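import Pool.Agent.Lib.MP_4a7415_coS.Halves

/-! # The deterministic chain of halvings -/

namespace Pool.Agent.MP4a7415S

open Finset Filter Pool.Agent.MP4a7415

/-- The conclusion of `halve` for fixed parameters. -/
private def ChainH (n q r K : ℕ) (c D : ℝ) : Prop :=
  ∀ G ⊆ Blk n q, ∀ A ⊆ G,
    (∀ R ∈ Blk n r, ((G.filter (fun e => R ⊆ e)).card : ℝ) ≤ 2 * D) →
    (∀ y : Finset (Fin n) → ℝ, Min n q r y →
      c * D * ∑ R ∈ Blk n r, y R ^ 2 ≤ ∑ e ∈ A, dZ (ev r y e) ^ 2) →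
    Clo n q r K (c / (10 * q.choose r) * D) G →
    ∀ (a : Finset (Fin n) → ℕ) (W v : Finset (Fin n) → ℤ), (∀ e ∈ G, a e ≤ 2) →
    (∀ e ∈ A, 1 ≤ a e) → (∀ e ∈ G, (2 : ℤ) ∣ W e - a e) → Ph n q r v →
    (∀ R ∈ Blk n r, ∑ e ∈ G with R ⊆ e, W e = 2 * v R) →
    ∃ W' : Finset (Fin n) → ℤ, (∀ R ∈ Blk n r, ∑ e ∈ G with R ⊆ e, W' e = v R) ∧
      ∀ e ∈ G, |2 * W' e - W e| ≤ a e

private theorem chain_deg {n r : ℕ} {D : ℝ} {G G' : Finset (Finset (Fin n))}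
    (h : ∀ R ∈ Blk n r, ((G.filter (fun e => R ⊆ e)).card : ℝ) ≤ 2 * D) (hG : G' ⊆ G) :
    ∀ R ∈ Blk n r, ((G'.filter (fun e => R ⊆ e)).card : ℝ) ≤ 2 * D := by
  intro R hR
  refine le_trans ?_ (h R hR)
  exact_mod_cast card_le_card (filter_subset_filter _ hG)

/-- One step with values in `[0, 2 b]`. -/
private theorem chain_step {n q r K : ℕ} {c D : ℝ} (H : ChainH n q r K c D)
    {G A : Finset (Finset (Fin n))} (hG : G ⊆ Blk n q) (hA : A ⊆ G)
    (hdeg : ∀ R ∈ Blk n r, ((G.filter (fun e => R ⊆ e)).card : ℝ) ≤ 2 * D)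
    (hcoe : Coe n q r (c * D) A) (hclo : Clo n q r K (c / (10 * q.choose r) * D) G)
    (W v : Finset (Fin n) → ℤ) (b : ℤ) (hW : ∀ e ∈ G, 0 ≤ W e ∧ W e ≤ 2 * b)
    (hodd : ∀ e ∈ A, W e % 2 = 1) (hv : Ph n q r v)
    (hsum : ∀ R ∈ Blk n r, ∑ e ∈ G with R ⊆ e, W e = 2 * v R) :
    ∃ X : Finset (Fin n) → ℤ, (∀ R ∈ Blk n r, ∑ e ∈ G with R ⊆ e, X e = v R) ∧
      ∀ e ∈ G, 0 ≤ X e ∧ X e ≤ b := by
  have hmod : ∀ e, ((W e % 2).toNat : ℤ) = W e % 2 := fun e =>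
    Int.toNat_of_nonneg (Int.emod_nonneg _ (by norm_num))
  obtain ⟨X, hX, hX'⟩ := H G hG A hA hdeg hcoe hclo (fun e => (W e % 2).toNat) W v
    (by
      intro e _
      have h1 := hmod e
      have h2 := Int.emod_lt_of_pos (W e) (show (0 : ℤ) < 2 by norm_num)
      show (W e % 2).toNat ≤ 2
      omega)
    (by
      intro e he
      have h1 := hmod e
      have h2 := hodd e he
      show 1 ≤ (W e % 2).toNat
      omega)
    (by
      intro e _
      have h1 := hmod e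
      show (2 : ℤ) ∣ W e - ((W e % 2).toNat : ℤ)
      rw [h1]
      omega) hv hsum
  refine ⟨X, hX, fun e he => ?_⟩
  have h1 := hX' e he
  have h2 : ((((W e % 2).toNat : ℕ)) : ℤ) = W e % 2 := hmod e
  have h3 := hW e he
  rw [abs_le] at h1
  obtain ⟨h4, h5⟩ := h1
  have h6 : -(W e % 2) ≤ 2 * X e - W e := by rw [← h2]; exact h4
  have h7 : 2 * X e - W e ≤ W e % 2 := by rw [← h2]; exact h5
  omega

/-- Repeated halving with `a e = 1` for odd and `a e = 2` for even values. -/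
private theorem chain_many {n q r K : ℕ} {c D : ℝ} (H : ChainH n q r K c D)
    {G : Finset (Finset (Fin n))} (hG : G ⊆ Blk n q)
    (hdeg : ∀ R ∈ Blk n r, ((G.filter (fun e => R ⊆ e)).card : ℝ) ≤ 2 * D)
    (hcoe : Coe n q r (c * D) G) (hclo : Clo n q r K (c / (10 * q.choose r) * D) G)
    (v : Finset (Fin n) → ℤ) (hv : Ph n q r v) (I : ℕ) : ∀ W : Finset (Fin n) → ℤ,
    (∀ R ∈ Blk n r, ∑ e ∈ G with R ⊆ e, W e = 2 ^ I * v R) →
    (∀ e ∈ G, 2 * 2 ^ I < W e + 2 ∧ W e - 2 < 6 * 2 ^ I) →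
    ∃ X : Finset (Fin n) → ℤ, (∀ R ∈ Blk n r, ∑ e ∈ G with R ⊆ e, X e = v R) ∧
      ∀ e ∈ G, 0 ≤ X e ∧ X e ≤ 8 := by
  induction I with
  | zero =>
    intro W hs hW
    refine ⟨W, fun R hR => by rw [hs R hR, pow_zero, one_mul], fun e he => ?_⟩
    have h1 := hW e he
    rw [pow_zero] at h1
    omega
  | succ I ih =>
    intro W hs hW
    have hsum : ∀ R ∈ Blk n r, ∑ e ∈ G with R ⊆ e, W e = 2 * (fun R => 2 ^ I * v R) R := by
      intro R hR
      rw [hs R hR]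
      show (2 : ℤ) ^ (I + 1) * v R = 2 * (2 ^ I * v R)
      rw [pow_succ]
      ring
    obtain ⟨X, hX, hX'⟩ := H G hG G (Finset.Subset.refl _) hdeg hcoe hclo
      (fun e => if W e % 2 = 1 then 1 else 2) W (fun R => 2 ^ I * v R)
      (by
        intro e _
        show (if W e % 2 = 1 then 1 else 2) ≤ 2
        split_ifs <;> norm_num)
      (by
        intro e _
        show 1 ≤ (if W e % 2 = 1 then 1 else 2)
        split_ifs <;> norm_num)
      (by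
        intro e _
        show (2 : ℤ) ∣ W e - ((if W e % 2 = 1 then 1 else 2 : ℕ) : ℤ)
        split_ifs with h
        · push_cast
          omega
        · push_cast
          omega) (hv.mul _) hsum
    refine ih X hX fun e he => ?_
    have h1 := hX' e he
    have h2 : (((if W e % 2 = 1 then 1 else 2 : ℕ)) : ℤ) ≤ 2 := by
      split_ifs <;> norm_num
    have h3 : |2 * X e - W e| ≤ 2 := le_trans h1 h2
    rw [abs_le] at h3
    have h4 := hW e he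
    have h5 : (2 : ℤ) ^ (I + 1) = 2 * 2 ^ I := by rw [pow_succ]; ring
    rw [h5] at h4
    omega

/-- Splitting a degree sum. -/
private theorem chain_sum {n : ℕ} {G A : Finset (Finset (Fin n))} (hA : A ⊆ G)
    (X : Finset (Fin n) → ℤ) (w : ℤ) (R : Finset (Fin n)) :
    ∑ e ∈ G with R ⊆ e, (if e ∈ A then w else X e) =
      ∑ e ∈ G \ A with R ⊆ e, X e + w * ((A.filter fun e => R ⊆ e).card : ℤ) := by
  rw [Finset.sum_filter, ← Finset.sum_sdiff hA, ← Finset.sum_filter, ← Finset.sum_filter]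
  congr 1
  · apply Finset.sum_congr rfl
    intro e he
    rw [Finset.mem_filter, Finset.mem_sdiff] at he
    rw [if_neg he.1.2]
  · rw [Finset.sum_congr rfl (g := fun _ => w), Finset.sum_const, nsmul_eq_mul, mul_comm]
    intro e he
    rw [Finset.mem_filter] at he
    rw [if_pos he.1]

private theorem chain_card {n q r : ℕ} {A : Finset (Finset (Fin n))} (hA : A ⊆ Blk n q) :
    Ph n q r (fun R => ((A.filter fun e => R ⊆ e).card : ℤ)) := by
  have h := Ph_edges (r := r) hA (fun _ => 1)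
  have h1 : (fun R => ((A.filter fun e => R ⊆ e).card : ℤ)) =
      fun R => ∑ e ∈ A with R ⊆ e, (1 : ℤ) := by
    funext R
    rw [Finset.sum_const, nsmul_eq_mul, mul_one]
  rw [h1]
  exact h

theorem chain (q r : ℕ) (hr : 1 ≤ r) (hqr : r < q) (K : ℕ) {c : ℝ} (hc : 0 < c) :
    ∃ C : ℝ, 1 ≤ C ∧ ∀ᶠ n : ℕ in atTop, ∀ D : ℝ, C * Real.log n ≤ D →
      ∀ G ⊆ Blk n q, ∀ A₁ ⊆ G, ∀ A₂ ⊆ G \ A₁, ∀ A₃ ⊆ (G \ A₁) \ A₂,
      (∀ R ∈ Blk n r, ((G.filter (fun e => R ⊆ e)).card : ℝ) ≤ 2 * D) →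
      Coe n q r (c * D) A₁ → Coe n q r (c * D) A₂ → Coe n q r (c * D) A₃ →
      Coe n q r (c * D) (((G \ A₁) \ A₂) \ A₃) →
      Clo n q r K (c / (10 * q.choose r) * D) G →
      ∀ v : Finset (Fin n) → ℤ, Ph n q r v → ∀ (I : ℕ) (W : Finset (Fin n) → ℤ),
      (∀ R ∈ Blk n r, ∑ e ∈ ((G \ A₁) \ A₂) \ A₃ with R ⊆ e, W e = 2 ^ I * (8 * v R -
        4 * (A₁.filter fun e => R ⊆ e).card - 2 * (A₂.filter fun e => R ⊆ e).card -
        3 * (A₃.filter fun e => R ⊆ e).card)) →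
      (∀ e ∈ ((G \ A₁) \ A₂) \ A₃, 2 * 2 ^ I ≤ W e ∧ W e ≤ 6 * 2 ^ I) →
      ∃ S ⊆ G, ∀ R ∈ Blk n r, ((S.filter fun e => R ⊆ e).card : ℤ) = v R := by
  obtain ⟨C, hC1, hC⟩ := halve q r hr hqr K hc
  refine ⟨C, hC1, ?_⟩
  filter_upwards [hC] with n hn
  intro D hD G hG A₁ hA₁ A₂ hA₂ A₃ hA₃ hdeg hc₁ hc₂ hc₃ hc₀ hclo v hv I W hW hWb
  have H : ChainH n q r K c D := hn D hD
  have hG1 : G \ A₁ ⊆ G := Finset.sdiff_subset
  have hG2 : (G \ A₁) \ A₂ ⊆ G := Finset.sdiff_subset.trans hG1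
  have hG3 : ((G \ A₁) \ A₂) \ A₃ ⊆ G := Finset.sdiff_subset.trans hG2
  have hP1 : Ph n q r (fun R => ((A₁.filter fun e => R ⊆ e).card : ℤ)) :=
    chain_card (hA₁.trans hG)
  have hP2 : Ph n q r (fun R => ((A₂.filter fun e => R ⊆ e).card : ℤ)) :=
    chain_card ((hA₂.trans hG1).trans hG)
  have hP3 : Ph n q r (fun R => ((A₃.filter fun e => R ⊆ e).card : ℤ)) :=
    chain_card ((hA₃.trans hG2).trans hG)
  -- the many halvings
  obtain ⟨X₀, hX₀, hX₀b⟩ := chain_many H (hG3.trans hG) (chain_deg hdeg hG3) hc₀ (hclo.mono hG3)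
    (fun R => 8 * v R - 4 * ((A₁.filter fun e => R ⊆ e).card : ℤ) -
      2 * ((A₂.filter fun e => R ⊆ e).card : ℤ) - 3 * ((A₃.filter fun e => R ⊆ e).card : ℤ))
    ((((hv.mul 8).sub (hP1.mul 4)).sub (hP2.mul 2)).sub (hP3.mul 3)) I W hW
    (by
      intro e he
      have h1 := hWb e he
      omega)
  -- the step on `G₂`
  obtain ⟨X₂, hX₂, hX₂b⟩ := chain_step H (hG2.trans hG) hA₃ (chain_deg hdeg hG2) hc₃
    (hclo.mono hG2) (fun e => if e ∈ A₃ then 3 else X₀ e)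
    (fun R => 4 * v R - 2 * ((A₁.filter fun e => R ⊆ e).card : ℤ) -
      ((A₂.filter fun e => R ⊆ e).card : ℤ)) 4
    (by
      intro e he
      by_cases h : e ∈ A₃
      · show 0 ≤ (if e ∈ A₃ then (3 : ℤ) else X₀ e) ∧ (if e ∈ A₃ then (3 : ℤ) else X₀ e) ≤ 2 * 4
        rw [if_pos h]
        norm_num
      · have h1 := hX₀b e (Finset.mem_sdiff.2 ⟨he, h⟩)
        show 0 ≤ (if e ∈ A₃ then (3 : ℤ) else X₀ e) ∧ (if e ∈ A₃ then (3 : ℤ) else X₀ e) ≤ 2 * 4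
        rw [if_neg h]
        omega)
    (by
      intro e he
      show (if e ∈ A₃ then (3 : ℤ) else X₀ e) % 2 = 1
      rw [if_pos he]
      norm_num)
    (((hv.mul 4).sub (hP1.mul 2)).sub hP2)
    (by
      intro R hR
      rw [chain_sum hA₃ X₀ 3 R, hX₀ R hR]
      ring)
  -- the step on `G₁`
  obtain ⟨X₁, hX₁, hX₁b⟩ := chain_step H (hG1.trans hG) hA₂ (chain_deg hdeg hG1) hc₂
    (hclo.mono hG1) (fun e => if e ∈ A₂ then 1 else X₂ e)
    (fun R => 2 * v R - ((A₁.filter fun e => R ⊆ e).card : ℤ)) 2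
    (by
      intro e he
      by_cases h : e ∈ A₂
      · show 0 ≤ (if e ∈ A₂ then (1 : ℤ) else X₂ e) ∧ (if e ∈ A₂ then (1 : ℤ) else X₂ e) ≤ 2 * 2
        rw [if_pos h]
        norm_num
      · have h1 := hX₂b e (Finset.mem_sdiff.2 ⟨he, h⟩)
        show 0 ≤ (if e ∈ A₂ then (1 : ℤ) else X₂ e) ∧ (if e ∈ A₂ then (1 : ℤ) else X₂ e) ≤ 2 * 2
        rw [if_neg h]
        omega)
    (by
      intro e he
      show (if e ∈ A₂ then (1 : ℤ) else X₂ e) % 2 = 1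
      rw [if_pos he]
      norm_num)
    ((hv.mul 2).sub hP1)
    (by
      intro R hR
      rw [chain_sum hA₂ X₂ 1 R, hX₂ R hR]
      ring)
  -- the last step
  obtain ⟨X, hX, hXb⟩ := chain_step H hG hA₁ hdeg hc₁ hclo
    (fun e => if e ∈ A₁ then 1 else X₁ e) v 1
    (by
      intro e he
      by_cases h : e ∈ A₁
      · show 0 ≤ (if e ∈ A₁ then (1 : ℤ) else X₁ e) ∧ (if e ∈ A₁ then (1 : ℤ) else X₁ e) ≤ 2 * 1
        rw [if_pos h]
        norm_num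
      · have h1 := hX₁b e (Finset.mem_sdiff.2 ⟨he, h⟩)
        show 0 ≤ (if e ∈ A₁ then (1 : ℤ) else X₁ e) ∧ (if e ∈ A₁ then (1 : ℤ) else X₁ e) ≤ 2 * 1
        rw [if_neg h]
        omega)
    (by
      intro e he
      show (if e ∈ A₁ then (1 : ℤ) else X₁ e) % 2 = 1
      rw [if_pos he]
      norm_num)
    hv
    (by
      intro R hR
      rw [chain_sum hA₁ X₁ 1 R, hX₁ R hR]
      ring)
  refine ⟨G.filter (fun e => X e = 1), Finset.filter_subset _ _, fun R hR => ?_⟩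
  rw [← hX R hR, Finset.card_filter, Finset.sum_filter, Finset.sum_filter]
  push_cast
  rw [← Finset.sum_filter, Finset.sum_filter]
  apply Finset.sum_congr rfl
  intro e he
  have h1 := hXb e he
  by_cases h : R ⊆ e
  · by_cases h2 : X e = 1
    · simp [h, h2]
    · have h3 : X e = 0 := by omega
      simp [h, h3]
  · simp [h]

end Pool.Agent.MP4a7415S
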