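import Pool.Agent.Lib.MP_4a7415_co.Good

/-! # Closure in the complete hypergraph -/

namespace Pool.Agent.MP4a7415S

open Finset Filter Pool.Agent.MP4a7415

private lemma clo_count {n r : ℕ} (S S' A : Finset (Finset (Fin n)))
    (hS : ∀ R ∈ S', R.card = r) (hSS : ∀ T ∈ A, ∀ R ∈ S, T ⊆ R → R ∈ S') (b : ℝ)
    (hA : ∀ T ∈ A, b ≤ ((S.filter fun R => T ⊆ R).card : ℝ)) :
    (A.card : ℝ) * b ≤ 2 ^ r * (S'.card : ℝ) := by
  have h1 : (A.card : ℝ) * b ≤ ∑ T ∈ A, ((S.filter fun R => T ⊆ R).card : ℝ) := by
    rw [← nsmul_eq_mul]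
    exact card_nsmul_le_sum _ _ _ hA
  have h2 : ∑ T ∈ A, (S.filter fun R => T ⊆ R).card ≤ ∑ T ∈ A, (S'.filter fun R => T ⊆ R).card := by
    apply sum_le_sum
    intro T hT
    apply card_le_card
    intro R hR
    rw [mem_filter] at hR ⊢
    exact ⟨hSS T hT R hR.1 hR.2, hR.2⟩
  have h3 : ∑ T ∈ A, (S'.filter fun R => T ⊆ R).card = ∑ R ∈ S', (A.filter fun T => T ⊆ R).card :=
    sum_card_bipartiteAbove_eq_sum_card_bipartiteBelow (fun T R : Finset (Fin n) => T ⊆ R)
  have h4 : ∑ R ∈ S', (A.filter fun T => T ⊆ R).card ≤ ∑ _R ∈ S', 2 ^ r := by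
    apply sum_le_sum
    intro R hR
    rw [← hS R hR, ← card_powerset]
    apply card_le_card
    intro T hT
    rw [mem_filter] at hT
    exact mem_powerset.2 hT.2
  have h5 : ((∑ T ∈ A, (S.filter fun R => T ⊆ R).card : ℕ) : ℝ) ≤ ((S'.card * 2 ^ r : ℕ) : ℝ) := by
    apply Nat.cast_le.2
    rw [h3] at h2
    refine (h2.trans h4).trans ?_
    rw [sum_const, smul_eq_mul]
  push_cast at h5
  linarith

private lemma desc_le {n r m : ℕ} (hm : m ≤ r) (hn : 3 * r ≤ n) :
    n.descFactorial m ≤ 2 ^ m * (n - r).descFactorial m := by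
  induction m with
  | zero => simp
  | succ k ih =>
    rw [Nat.descFactorial_succ, Nat.descFactorial_succ]
    have h1 := ih (by omega)
    have h2 : n - k ≤ 2 * (n - r - k) := by omega
    calc (n - k) * n.descFactorial k ≤ (2 * (n - r - k)) * (2 ^ k * (n - r).descFactorial k) :=
          Nat.mul_le_mul h2 h1
      _ = 2 ^ (k + 1) * ((n - r - k) * (n - r).descFactorial k) := by ring

private lemma choose_le' {n r m : ℕ} (hm : m ≤ r) (hn : 3 * r ≤ n) :
    n.choose m ≤ 2 ^ m * (n - r).choose m := by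
  have h := desc_le hm hn
  rw [Nat.descFactorial_eq_factorial_mul_choose, Nat.descFactorial_eq_factorial_mul_choose] at h
  have h2 : m.factorial * n.choose m ≤ m.factorial * (2 ^ m * (n - r).choose m) := by
    calc m.factorial * n.choose m ≤ 2 ^ m * (m.factorial * (n - r).choose m) := h
      _ = m.factorial * (2 ^ m * (n - r).choose m) := by ring
  exact Nat.le_of_mul_le_mul_left h2 m.factorial_pos

private lemma choose_prod_le {n q r m i : ℕ} (hm : m ≤ r) (hn : 3 * r ≤ n)
    (hmq : r + m ≤ q) :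
    (n - i).choose m * (n - (r + m)).choose (q - (r + m)) ≤
      2 ^ r * 2 ^ q * (n - r).choose (q - r) := by
  have h1 : (n - i).choose m ≤ 2 ^ r * (n - r).choose m := by
    calc (n - i).choose m ≤ n.choose m := Nat.choose_le_choose _ (Nat.sub_le _ _)
      _ ≤ 2 ^ m * (n - r).choose m := choose_le' hm hn
      _ ≤ 2 ^ r * (n - r).choose m :=
        Nat.mul_le_mul_right _ (Nat.pow_le_pow_right (by norm_num) hm)
  have h2 : (n - r).choose m * (n - (r + m)).choose (q - (r + m)) =
      (n - r).choose (q - r) * (q - r).choose m := by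
    rcases le_or_gt (q - r) (n - r) with h | h
    · rw [Nat.choose_mul (by omega : m ≤ q - r)]
      congr 1
      congr 1 <;> omega
    · rw [Nat.choose_eq_zero_of_lt h]
      rcases le_or_gt m (n - r) with h' | h'
      · rw [Nat.choose_eq_zero_of_lt (by omega : n - (r + m) < q - (r + m))]
        ring
      · rw [Nat.choose_eq_zero_of_lt h']
        ring
  have h3 : (q - r).choose m ≤ 2 ^ q := by
    calc (q - r).choose m ≤ 2 ^ (q - r) := Nat.choose_le_two_pow _ _
      _ ≤ 2 ^ q := Nat.pow_le_pow_right (by norm_num) (by omega)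
  calc (n - i).choose m * (n - (r + m)).choose (q - (r + m))
      ≤ (2 ^ r * (n - r).choose m) * (n - (r + m)).choose (q - (r + m)) :=
        Nat.mul_le_mul_right _ h1
    _ = 2 ^ r * ((n - r).choose m * (n - (r + m)).choose (q - (r + m))) := by ring
    _ = 2 ^ r * ((n - r).choose (q - r) * (q - r).choose m) := by rw [h2]
    _ ≤ 2 ^ r * ((n - r).choose (q - r) * 2 ^ q) :=
        Nat.mul_le_mul_left _ (Nat.mul_le_mul_left _ h3)
    _ = 2 ^ r * 2 ^ q * (n - r).choose (q - r) := by ring

theorem clo_det (q r : ℕ) (hr : 1 ≤ r) (hqr : r < q) {γ : ℝ} (hγ : 0 < γ) :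
    ∃ K : ℕ, ∀ᶠ n : ℕ in atTop, ∀ S ⊆ Blk n r, S.Nonempty →
      ∃ B ⊆ Blk n r, S ⊆ B ∧ B.card ≤ K * S.card ∧ ∀ R ∈ Blk n r, R ∉ B →
        (((Blk n q).filter fun e => R ⊆ e ∧ ∃ R' ∈ B, R' ⊆ e).card : ℝ) ≤
          γ * (n - r).choose (q - r) := by
  set M : ℝ := 2 ^ r * ((r + 1) * (2 ^ r * (2 ^ r * 2 ^ q))) with hM
  have hM0 : 0 < M := by positivity
  set ε : ℝ := min 1 (γ / M) with hε
  have hε0 : 0 < ε := lt_min one_pos (div_pos hγ hM0)
  have hε1 : ε ≤ 1 := min_le_left _ _
  have hεM : M * ε ≤ γ := by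
    have h1 : ε ≤ γ / M := min_le_right _ _
    calc M * ε ≤ M * (γ / M) := mul_le_mul_of_nonneg_left h1 hM0.le
      _ = γ := mul_div_cancel₀ γ hM0.ne'
  refine ⟨⌈(r + 1) * (2 ^ r * (1 / ε ^ r))⌉₊, ?_⟩
  filter_upwards [eventually_ge_atTop (3 * r + q)] with n hn
  intro S hS hSne
  have hScard : ∀ R ∈ S, R.card = r := fun R hR => (mem_powersetCard.1 (hS hR)).2
  -- rich sets of size `j`
  let Rch : Finset (Fin n) → Prop := fun T => T.card ≤ r ∧
    ε ^ (r - T.card) * ((n - T.card).choose (r - T.card) : ℝ) ≤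
      ((S.filter fun R => T ⊆ R).card : ℝ)
  let RT : ℕ → Finset (Finset (Fin n)) := fun j => (Blk n j).filter Rch
  have hRTmem : ∀ {j T}, T ∈ RT j ↔ T.card = j ∧ Rch T := by
    intro j T
    simp only [RT, mem_filter, mem_powersetCard, subset_univ, true_and]
  let B : Finset (Finset (Fin n)) := (Blk n r).filter fun R => ∃ T ⊆ R, Rch T
  have hchpos : ∀ j ≤ r, (0 : ℝ) < ((n - j).choose (r - j) : ℝ) := by
    intro j hj
    exact_mod_cast Nat.choose_pos (by omega)
  refine ⟨B, filter_subset _ _, ?_, ?_, ?_⟩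
  · intro R hR
    have hc := hScard R hR
    refine mem_filter.2 ⟨hS hR, R, Subset.refl _, hc.le, ?_⟩
    rw [hc, Nat.sub_self, pow_zero, Nat.choose_zero_right, Nat.cast_one, one_mul]
    have : 0 < (S.filter fun R' => R ⊆ R').card :=
      card_pos.2 ⟨R, mem_filter.2 ⟨hR, Subset.refl _⟩⟩
    exact_mod_cast this
  · -- the size of B
    have h1 : B ⊆ (range (r + 1)).biUnion fun j => (RT j).biUnion fun T =>
        (Blk n r).filter fun R => T ⊆ R := by
      intro R hR
      obtain ⟨hR1, T, hT, hrich⟩ := mem_filter.1 hR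
      simp only [mem_biUnion, mem_range]
      exact ⟨T.card, by have := hrich.1; omega, T, hRTmem.2 ⟨rfl, hrich⟩,
        mem_filter.2 ⟨hR1, hT⟩⟩
    have h2 : B.card ≤ ∑ j ∈ range (r + 1), (RT j).card * (n - j).choose (r - j) := by
      refine (card_le_card h1).trans (card_biUnion_le.trans ?_)
      apply sum_le_sum
      intro j hj
      have hj' : j ≤ r := by have := mem_range.1 hj; omega
      refine card_biUnion_le.trans ?_
      rw [← smul_eq_mul]
      apply sum_le_card_nsmul
      intro T hT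
      have hTc := (hRTmem.1 hT).1
      rw [card_sup (subset_univ _) (by omega), card_univ, Fintype.card_fin, hTc]
    have h3 : ∀ j ∈ range (r + 1), (((RT j).card * (n - j).choose (r - j) : ℕ) : ℝ) ≤
        2 ^ r * (1 / ε ^ r) * S.card := by
      intro j hj
      have hj' : j ≤ r := by have := mem_range.1 hj; omega
      have h4 := clo_count S S (RT j) hScard (fun _ _ _ hR _ => hR)
        (ε ^ (r - j) * ((n - j).choose (r - j) : ℝ)) (by
          intro T hT
          obtain ⟨hTc, hT2⟩ := hRTmem.1 hT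
          have h5 := hT2.2
          rw [hTc] at h5
          exact h5)
      have h6 : ε ^ r ≤ ε ^ (r - j) := pow_le_pow_of_le_one hε0.le hε1 (by omega)
      have h7 : (0 : ℝ) ≤ ((RT j).card : ℝ) * ((n - j).choose (r - j) : ℝ) := by positivity
      have h8 : ((RT j).card : ℝ) * ((n - j).choose (r - j) : ℝ) * ε ^ r ≤ 2 ^ r * (S.card : ℝ) := by
        refine (mul_le_mul_of_nonneg_left h6 h7).trans (le_trans (le_of_eq ?_) h4)
        ring
      have hp : 0 < ε ^ r := pow_pos hε0 r
      push_cast
      calc ((RT j).card : ℝ) * ((n - j).choose (r - j) : ℝ)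
          ≤ 2 ^ r * (S.card : ℝ) / ε ^ r := (le_div_iff₀ hp).2 h8
        _ = 2 ^ r * (1 / ε ^ r) * S.card := by ring
    have h9 : (B.card : ℝ) ≤ (r + 1) * (2 ^ r * (1 / ε ^ r)) * S.card := by
      calc (B.card : ℝ) ≤ ((∑ j ∈ range (r + 1), (RT j).card * (n - j).choose (r - j) : ℕ) : ℝ) :=
            Nat.cast_le.2 h2
        _ = ∑ j ∈ range (r + 1), (((RT j).card * (n - j).choose (r - j) : ℕ) : ℝ) :=
            Nat.cast_sum _ _
        _ ≤ ∑ _j ∈ range (r + 1), 2 ^ r * (1 / ε ^ r) * (S.card : ℝ) := sum_le_sum h3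
        _ = (r + 1) * (2 ^ r * (1 / ε ^ r)) * S.card := by
            rw [sum_const, card_range, nsmul_eq_mul]
            push_cast
            ring
    have h10 : (B.card : ℝ) ≤ ((⌈((r : ℝ) + 1) * (2 ^ r * (1 / ε ^ r))⌉₊ * S.card : ℕ) : ℝ) := by
      push_cast
      exact h9.trans (mul_le_mul_of_nonneg_right (Nat.le_ceil _) (by positivity))
    exact_mod_cast h10
  · -- few touching blocks
    intro R hR hRB
    have hRc : R.card = r := (mem_powersetCard.1 hR).2
    have hnot : ∀ T ⊆ R, ¬ Rch T := fun T hT h => hRB (mem_filter.2 ⟨hR, T, hT, h⟩)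
    -- the rich sets of size `j` which meet `R` in `T`
    let W : Finset (Fin n) → ℕ → Finset (Finset (Fin n)) := fun T j =>
      (RT j).filter fun T' => R ∩ T' = T
    have hcover : ((Blk n q).filter fun e => R ⊆ e ∧ ∃ R' ∈ B, R' ⊆ e) ⊆
        R.powerset.biUnion fun T => (range (r + 1)).biUnion fun j => (W T j).biUnion fun T' =>
          (Blk n q).filter fun e => R ∪ T' ⊆ e := by
      intro e he
      obtain ⟨he1, hRe, R', hR'B, hR'e⟩ := mem_filter.1 he
      obtain ⟨hR'1, T', hT'R', hrich⟩ := mem_filter.1 hR'B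
      simp only [mem_biUnion, mem_range, mem_powerset]
      exact ⟨R ∩ T', inter_subset_left, T'.card, by have := hrich.1; omega, T',
        mem_filter.2 ⟨hRTmem.2 ⟨rfl, hrich⟩, rfl⟩,
        mem_filter.2 ⟨he1, union_subset hRe (hT'R'.trans hR'e)⟩⟩
    -- the contribution of one pair
    have hone : ∀ T ∈ R.powerset, ∀ j ∈ range (r + 1),
        ((((W T j).biUnion fun T' => (Blk n q).filter fun e => R ∪ T' ⊆ e).card : ℕ) : ℝ) ≤
          2 ^ r * (2 ^ r * 2 ^ q) * ε * (n - r).choose (q - r) := by
      intro T hT j hj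
      have hTR := mem_powerset.1 hT
      have hj' : j ≤ r := by have := mem_range.1 hj; omega
      have hrhs : (0 : ℝ) ≤ 2 ^ r * (2 ^ r * 2 ^ q) * ε * (n - r).choose (q - r) := by positivity
      have hTr : T.card ≤ r := hRc ▸ card_le_card hTR
      have hWmem : ∀ T' ∈ W T j, T'.card = j ∧ Rch T' ∧ R ∩ T' = T ∧ T ⊆ T' ∧ T.card < j := by
        intro T' hT'
        obtain ⟨h1, h2⟩ := mem_filter.1 hT'
        obtain ⟨h3, h4⟩ := hRTmem.1 h1
        have h5 : T ⊆ T' := h2 ▸ inter_subset_right
        refine ⟨h3, h4, h2, h5, ?_⟩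
        rw [← h3]
        apply card_lt_card
        refine Finset.ssubset_iff_subset_ne.2 ⟨h5, ?_⟩
        intro h6
        exact hnot T hTR (h6 ▸ h4)
      rcases (W T j).eq_empty_or_nonempty with hem | ⟨T0, hT0⟩
      · rw [hem, biUnion_empty, card_empty, Nat.cast_zero]
        exact hrhs
      obtain ⟨-, -, -, -, hij⟩ := hWmem T0 hT0
      set i := T.card with hi
      set m := j - i with hm
      have hunion : ∀ T' ∈ W T j, (R ∪ T').card = r + m := by
        intro T' hT'
        obtain ⟨h1, -, h2, -, -⟩ := hWmem T' hT'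
        have h3 := card_union_add_card_inter R T'
        rw [h2, hRc, h1] at h3
        omega
      by_cases hq : r + m ≤ q
      · -- number of rich sets
        have hnr : ((S.filter fun R' => T ⊆ R').card : ℝ) ≤
            ε ^ (r - i) * ((n - i).choose (r - i) : ℝ) := by
          have h1 := hnot T hTR
          by_contra h2
          exact h1 ⟨hTr, (not_le.1 h2).le⟩
        have h1 := clo_count S (S.filter fun R' => T ⊆ R') (W T j)
          (fun R' hR' => hScard R' (mem_filter.1 hR').1)
          (fun T' hT' R' hR' hsub => mem_filter.2 ⟨hR', ((hWmem T' hT').2.2.2.1).trans hsub⟩)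
          (ε ^ (r - j) * ((n - j).choose (r - j) : ℝ)) (by
            intro T' hT'
            obtain ⟨h1, h2, -⟩ := hWmem T' hT'
            have h3 := h2.2
            rw [h1] at h3
            exact h3)
        have h2 : ((n - i).choose (r - i) : ℝ) ≤
            ((n - i).choose m : ℝ) * ((n - j).choose (r - j) : ℝ) := by
          have h3 : (n - i).choose (r - i) * (r - i).choose m =
              (n - i).choose m * (n - j).choose (r - j) := by
            rw [Nat.choose_mul (by omega : m ≤ r - i)]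
            congr 2 <;> omega
          have h4 : 1 ≤ (r - i).choose m := Nat.choose_pos (by omega)
          have h5 : (n - i).choose (r - i) ≤ (n - i).choose m * (n - j).choose (r - j) := by
            rw [← h3]
            exact Nat.le_mul_of_pos_right _ h4
          exact_mod_cast h5
        have hc := hchpos j hj'
        have hpj : 0 < ε ^ (r - j) := pow_pos hε0 _
        have h6 : ε ^ (r - i) ≤ ε * ε ^ (r - j) := by
          rw [← pow_succ']
          exact pow_le_pow_of_le_one hε0.le hε1 (by omega)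
        have h7 : ((W T j).card : ℝ) * (ε ^ (r - j) * ((n - j).choose (r - j) : ℝ)) ≤
            (2 ^ r * ε * ((n - i).choose m : ℝ)) * (ε ^ (r - j) * ((n - j).choose (r - j) : ℝ)) := by
          calc ((W T j).card : ℝ) * (ε ^ (r - j) * ((n - j).choose (r - j) : ℝ))
              ≤ 2 ^ r * ((S.filter fun R' => T ⊆ R').card : ℝ) := h1
            _ ≤ 2 ^ r * (ε ^ (r - i) * ((n - i).choose (r - i) : ℝ)) :=
                mul_le_mul_of_nonneg_left hnr (by positivity)
            _ ≤ 2 ^ r * ((ε * ε ^ (r - j)) *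
                (((n - i).choose m : ℝ) * ((n - j).choose (r - j) : ℝ))) :=
                mul_le_mul_of_nonneg_left (mul_le_mul h6 h2 (by positivity) (by positivity))
                  (by positivity)
            _ = (2 ^ r * ε * ((n - i).choose m : ℝ)) *
                (ε ^ (r - j) * ((n - j).choose (r - j) : ℝ)) := by ring
        have h8 : ((W T j).card : ℝ) ≤ 2 ^ r * ε * ((n - i).choose m : ℝ) :=
          le_of_mul_le_mul_right h7 (mul_pos hpj hc)
        have h9 : ((W T j).biUnion fun T' => (Blk n q).filter fun e => R ∪ T' ⊆ e).card ≤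
            (W T j).card * (n - (r + m)).choose (q - (r + m)) := by
          refine card_biUnion_le.trans ?_
          rw [← smul_eq_mul]
          apply sum_le_card_nsmul
          intro T' hT'
          have h10 := hunion T' hT'
          rw [card_sup (subset_univ _) (by omega), card_univ, Fintype.card_fin, h10]
        have h11 : (((n - i).choose m * (n - (r + m)).choose (q - (r + m)) : ℕ) : ℝ) ≤
            ((2 ^ r * 2 ^ q * (n - r).choose (q - r) : ℕ) : ℝ) :=
          Nat.cast_le.2 (choose_prod_le (by omega) (by omega) hq)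
        push_cast at h11
        calc ((((W T j).biUnion fun T' => (Blk n q).filter fun e => R ∪ T' ⊆ e).card : ℕ) : ℝ)
            ≤ (((W T j).card * (n - (r + m)).choose (q - (r + m)) : ℕ) : ℝ) := Nat.cast_le.2 h9
          _ = ((W T j).card : ℝ) * ((n - (r + m)).choose (q - (r + m)) : ℝ) := Nat.cast_mul _ _
          _ ≤ (2 ^ r * ε * ((n - i).choose m : ℝ)) *
              ((n - (r + m)).choose (q - (r + m)) : ℝ) :=
              mul_le_mul_of_nonneg_right h8 (by positivity)
          _ = 2 ^ r * ε * (((n - i).choose m : ℝ) *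
              ((n - (r + m)).choose (q - (r + m)) : ℝ)) := by ring
          _ ≤ 2 ^ r * ε * (2 ^ r * 2 ^ q * ((n - r).choose (q - r) : ℝ)) :=
              mul_le_mul_of_nonneg_left h11 (by positivity)
          _ = 2 ^ r * (2 ^ r * 2 ^ q) * ε * (n - r).choose (q - r) := by ring
      · -- no block contains `R ∪ T'`
        have h1 : ((W T j).biUnion fun T' => (Blk n q).filter fun e => R ∪ T' ⊆ e) = ∅ := by
          rw [eq_empty_iff_forall_notMem]
          intro e he
          obtain ⟨T', hT', he'⟩ := mem_biUnion.1 he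
          obtain ⟨he1, he2⟩ := mem_filter.1 he'
          have h2 := card_le_card he2
          rw [hunion T' hT', (mem_powersetCard.1 he1).2] at h2
          omega
        rw [h1, card_empty, Nat.cast_zero]
        exact hrhs
    set b : ℝ := 2 ^ r * (2 ^ r * 2 ^ q) * ε * (n - r).choose (q - r) with hb
    have hin : ∀ T ∈ R.powerset,
        ((((range (r + 1)).biUnion fun j => (W T j).biUnion fun T' =>
          (Blk n q).filter fun e => R ∪ T' ⊆ e).card : ℕ) : ℝ) ≤ (r + 1) * b := by
      intro T hT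
      calc ((((range (r + 1)).biUnion fun j => (W T j).biUnion fun T' =>
          (Blk n q).filter fun e => R ∪ T' ⊆ e).card : ℕ) : ℝ)
          ≤ ((∑ j ∈ range (r + 1), ((W T j).biUnion fun T' =>
              (Blk n q).filter fun e => R ∪ T' ⊆ e).card : ℕ) : ℝ) :=
            Nat.cast_le.2 card_biUnion_le
        _ = ∑ j ∈ range (r + 1), ((((W T j).biUnion fun T' =>
              (Blk n q).filter fun e => R ∪ T' ⊆ e).card : ℕ) : ℝ) := Nat.cast_sum _ _
        _ ≤ ∑ _j ∈ range (r + 1), b := sum_le_sum (hone T hT)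
        _ = (r + 1) * b := by
            rw [sum_const, card_range, nsmul_eq_mul]
            push_cast
            ring
    calc (((Blk n q).filter fun e => R ⊆ e ∧ ∃ R' ∈ B, R' ⊆ e).card : ℝ)
        ≤ (((R.powerset.biUnion fun T => (range (r + 1)).biUnion fun j =>
            (W T j).biUnion fun T' => (Blk n q).filter fun e => R ∪ T' ⊆ e).card : ℕ) : ℝ) :=
          Nat.cast_le.2 (card_le_card hcover)
      _ ≤ ((∑ T ∈ R.powerset, ((range (r + 1)).biUnion fun j =>
            (W T j).biUnion fun T' => (Blk n q).filter fun e => R ∪ T' ⊆ e).card : ℕ) : ℝ) :=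
          Nat.cast_le.2 card_biUnion_le
      _ = ∑ T ∈ R.powerset, ((((range (r + 1)).biUnion fun j =>
            (W T j).biUnion fun T' => (Blk n q).filter fun e => R ∪ T' ⊆ e).card : ℕ) : ℝ) :=
          Nat.cast_sum _ _
      _ ≤ ∑ _T ∈ R.powerset, (r + 1) * b := sum_le_sum hin
      _ = M * ε * (n - r).choose (q - r) := by
          rw [sum_const, card_powerset, hRc, nsmul_eq_mul, hb, hM]
          push_cast
          ring
      _ ≤ γ * (n - r).choose (q - r) := mul_le_mul_of_nonneg_right hεM (by positivity)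

end Pool.Agent.MP4a7415S
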