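import Pool.Agent.Lib.MP_4a7415_coS.Clo1

/-! # Closure in the random hypergraph -/

namespace Pool.Agent.MP4a7415S

open Finset Filter Pool.Agent.MP4a7415

/-- Every set of `r`-sets has a small closure. -/
def Clo (n q r K : ℕ) (b : ℝ) (G : Finset (Finset (Fin n))) : Prop :=
  ∀ S ⊆ Blk n r, S.Nonempty → ∃ B ⊆ Blk n r, S ⊆ B ∧ B.card ≤ K * S.card ∧
    ∀ R ∈ Blk n r, R ∉ B → ((G.filter fun e => R ⊆ e ∧ ∃ R' ∈ B, R' ⊆ e).card : ℝ) ≤ b

theorem Clo.mono {n q r K : ℕ} {b : ℝ} {G G' : Finset (Finset (Fin n))} (h : Clo n q r K b G)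
    (hG : G' ⊆ G) : Clo n q r K b G' := by
  intro S hS hSn
  obtain ⟨B, hB, h1, h2, h3⟩ := h S hS hSn
  refine ⟨B, hB, h1, h2, fun R hR hRB => (le_trans ?_ (h3 R hR hRB))⟩
  exact_mod_cast card_le_card (filter_subset_filter _ hG)

section seq

/-- a list of successive bad sets, the last one first -/
def Bad (n r : ℕ) (c : Finset (Finset (Fin n)) → Finset (Finset (Fin n))) (b : ℝ)
    (S G : Finset (Finset (Fin n))) : List (Finset (Fin n)) → Prop
  | [] => True
  | y :: L => Bad n r c b S G L ∧ y ∈ Blk n r ∧ y ∉ c (S ∪ L.toFinset) ∧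
      b < ((G.filter fun e => y ⊆ e ∧ ∃ R' ∈ c (S ∪ L.toFinset), R' ⊆ e).card : ℝ)

/-- the blocks which contain a set of the list and touch the closure of the previous ones -/
def FF (n q : ℕ) (c : Finset (Finset (Fin n)) → Finset (Finset (Fin n)))
    (S : Finset (Finset (Fin n))) : List (Finset (Fin n)) → Finset (Finset (Fin n))
  | [] => ∅
  | y :: L => FF n q c S L ∪
      (Blk n q).filter fun e => y ⊆ e ∧ ∃ R' ∈ c (S ∪ L.toFinset), R' ⊆ e

variable {n q r : ℕ} {c : Finset (Finset (Fin n)) → Finset (Finset (Fin n))} {b : ℝ}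
  {S G : Finset (Finset (Fin n))}

theorem Bad.mem {L : List (Finset (Fin n))} (h : Bad n r c b S G L) : ∀ y ∈ L, y ∈ Blk n r := by
  induction L with
  | nil => exact fun y hy => absurd hy List.not_mem_nil
  | cons a L ih =>
    intro y hy
    rcases List.mem_cons.1 hy with rfl | hy
    · exact h.2.1
    · exact ih h.1 y hy

theorem Bad.sub {L : List (Finset (Fin n))} (h : Bad n r c b S G L) : L.toFinset ⊆ Blk n r :=
  fun y hy => h.mem y (List.mem_toFinset.1 hy)

theorem FF_sub (L : List (Finset (Fin n))) : FF n q c S L ⊆ Blk n q := by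
  induction L with
  | nil => exact empty_subset _
  | cons a L ih => exact union_subset ih (filter_subset _ _)

/-- the properties of the closure operator -/
def IsClo (n q r K : ℕ) (g : ℝ) (c : Finset (Finset (Fin n)) → Finset (Finset (Fin n))) : Prop :=
  ∀ S ⊆ Blk n r, S.Nonempty → c S ⊆ Blk n r ∧ S ⊆ c S ∧ (c S).card ≤ K * S.card ∧
    ∀ R ∈ Blk n r, R ∉ c S →
      (((Blk n q).filter fun e => R ⊆ e ∧ ∃ R' ∈ c S, R' ⊆ e).card : ℝ) ≤ g

theorem FF_card {K : ℕ} {g : ℝ} (hc : IsClo n q r K g c) (hS : S ⊆ Blk n r) (hSn : S.Nonempty)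
    {L : List (Finset (Fin n))} (h : Bad n r c b S G L) :
    ((FF n q c S L).card : ℝ) ≤ L.length * g := by
  induction L with
  | nil => simp [FF]
  | cons a L ih =>
    have h1 := ih h.1
    have h2 := (hc (S ∪ L.toFinset) (union_subset hS h.1.sub) (hSn.mono subset_union_left)).2.2.2
      a h.2.1 h.2.2.1
    have h3 : ((FF n q c S (a :: L)).card : ℝ) ≤ (FF n q c S L).card +
        ((Blk n q).filter fun e => a ⊆ e ∧ ∃ R' ∈ c (S ∪ L.toFinset), R' ⊆ e).card := by
      exact_mod_cast card_union_le _ _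
    rw [List.length_cons]
    push_cast
    linarith

theorem Bad.notMem {K : ℕ} {g : ℝ} (hc : IsClo n q r K g c) (hS : S ⊆ Blk n r)
    (hSn : S.Nonempty) {a : Finset (Fin n)} {L : List (Finset (Fin n))}
    (h : Bad n r c b S G (a :: L)) : a ∉ L.toFinset := by
  intro ha
  have h1 := (hc (S ∪ L.toFinset) (union_subset hS h.1.sub) (hSn.mono subset_union_left)).2.1
  exact h.2.2.1 (h1 (mem_union_right _ ha))

theorem Bad.weight {K : ℕ} {g : ℝ} (hc : IsClo n q r K g c) (hS : S ⊆ Blk n r) (hSn : S.Nonempty)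
    (hG : G ⊆ Blk n q) {L : List (Finset (Fin n))} (h : Bad n r c b S G L) :
    (L.length : ℝ) * b ≤
      ∑ e ∈ G ∩ FF n q c S L, ((L.toFinset.filter fun y => y ⊆ e).card : ℝ) := by
  induction L with
  | nil => simp
  | cons a L ih =>
    have h1 := ih h.1
    have h2 := h.2.2.2
    have h0 := h.notMem hc hS hSn
    have hterm : ∀ e, (((a :: L).toFinset.filter fun y => y ⊆ e).card : ℝ) =
        ((L.toFinset.filter fun y => y ⊆ e).card : ℝ) + (if a ⊆ e then 1 else 0) := by
      intro e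
      rw [List.toFinset_cons, filter_insert]
      split_ifs with hae
      · rw [card_insert_of_notMem (fun hm => h0 (mem_filter.1 hm).1)]
        push_cast
        ring
      · rw [add_zero]
    have h3 : ∑ e ∈ G ∩ FF n q c S L, ((L.toFinset.filter fun y => y ⊆ e).card : ℝ) ≤
        ∑ e ∈ G ∩ FF n q c S (a :: L), ((L.toFinset.filter fun y => y ⊆ e).card : ℝ) :=
      sum_le_sum_of_subset_of_nonneg (inter_subset_inter_left subset_union_left)
        fun _ _ _ => Nat.cast_nonneg _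
    have h4 : ((G.filter fun e => a ⊆ e ∧ ∃ R' ∈ c (S ∪ L.toFinset), R' ⊆ e).card : ℝ) ≤
        ∑ e ∈ G ∩ FF n q c S (a :: L), (if a ⊆ e then (1 : ℝ) else 0) := by
      rw [← sum_filter, sum_const, nsmul_eq_mul, mul_one]
      refine Nat.cast_le.2 (card_le_card fun e he => ?_)
      rw [mem_filter] at he
      rw [mem_filter, mem_inter]
      exact ⟨⟨he.1, mem_union_right _ (mem_filter.2 ⟨hG he.1, he.2⟩)⟩, he.2.1⟩
    simp only [hterm]
    rw [sum_add_distrib, List.length_cons]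
    push_cast
    linarith

theorem Bad.many {K : ℕ} {g : ℝ} (hc : IsClo n q r K g c) (hS : S ⊆ Blk n r) (hSn : S.Nonempty)
    (hG : G ⊆ Blk n q) {L : List (Finset (Fin n))} (h : Bad n r c b S G L) :
    (L.length : ℝ) * b ≤ q.choose r * ((G ∩ FF n q c S L).card : ℝ) := by
  refine (h.weight hc hS hSn hG).trans ?_
  have h1 : ∀ e ∈ G ∩ FF n q c S L,
      ((L.toFinset.filter fun y => y ⊆ e).card : ℝ) ≤ q.choose r := by
    intro e he
    have h2 : e.card = q := (mem_powersetCard.1 (hG (mem_inter.1 he).1)).2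
    rw [← h2, ← card_powersetCard]
    refine Nat.cast_le.2 (card_le_card fun y hy => ?_)
    rw [mem_filter] at hy
    exact mem_powersetCard.2 ⟨hy.2, (mem_powersetCard.1 (h.sub hy.1)).2⟩
  refine (sum_le_sum h1).trans (le_of_eq ?_)
  rw [sum_const, nsmul_eq_mul, mul_comm]

theorem exists_bad {K : ℕ} {g : ℝ} (hc : IsClo n q r K g c) (hS : S ⊆ Blk n r) (hSn : S.Nonempty)
    (hno : ∀ B ⊆ Blk n r, S ⊆ B → B.card ≤ 2 * K * S.card → ∃ R ∈ Blk n r, R ∉ B ∧
      b < ((G.filter fun e => R ⊆ e ∧ ∃ R' ∈ B, R' ⊆ e).card : ℝ)) (k : ℕ) (hk : k ≤ S.card) :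
    ∃ L : List (Finset (Fin n)), L.length = k ∧ Bad n r c b S G L := by
  induction k with
  | zero => exact ⟨[], rfl, trivial⟩
  | succ k ih =>
    obtain ⟨L, hL, hb⟩ := ih (by omega)
    obtain ⟨h1, h2, h3, -⟩ := hc (S ∪ L.toFinset) (union_subset hS hb.sub)
      (hSn.mono subset_union_left)
    have h4 : (S ∪ L.toFinset).card ≤ 2 * S.card := by
      have := card_union_le S L.toFinset
      have := L.toFinset_card_le
      omega
    obtain ⟨R, hR, hRB, hlt⟩ := hno _ h1 (subset_union_left.trans h2)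
      (h3.trans (by
        calc K * (S ∪ L.toFinset).card ≤ K * (2 * S.card) := Nat.mul_le_mul_left _ h4
          _ = 2 * K * S.card := by ring))
    exact ⟨R :: L, by rw [List.length_cons, hL], hb, hR, hRB, hlt⟩

/-- The failure probability for a fixed set and a fixed list. -/
theorem bad_prob {K : ℕ} {g : ℝ} (hc : IsClo n q r K g c) (hS : S ⊆ Blk n r) (hSn : S.Nonempty)
    (hqr : r ≤ q) {p : ℝ} (h0 : 0 ≤ p) (h1 : p ≤ 1) (L : List (Finset (Fin n))) :
    PrE (Blk n q) p {G | Bad n r c b S G L} ≤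
      Real.exp (L.length * (2 * (p * g) - b / q.choose r)) := by
  classical
  have hk : (0 : ℝ) < q.choose r := by exact_mod_cast Nat.choose_pos hqr
  by_cases hex : ∃ G, Bad n r c b S G L
  · obtain ⟨G₀, hG₀⟩ := hex
    have h2 := FF_card hc hS hSn hG₀
    refine (markov (FF_sub (q := q) (c := c) (S := S) L) h0 h1 1 (L.length * (b / q.choose r)) _
      ?_ (by norm_num)).trans ?_
    · intro G hG hb
      have h3 := Bad.many hc hS hSn hG hb
      rw [one_mul, mul_div_assoc', div_le_iff₀ hk]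
      linarith
    · rw [Real.exp_le_exp]
      have h3 := mul_le_mul_of_nonneg_left h2 h0
      linarith
  · refine le_trans (le_of_eq ?_) (Real.exp_pos _).le
    rw [PrE]
    refine sum_eq_zero fun G _ => ?_
    rw [Set.indicator_of_notMem]
    exact fun h => hex ⟨G, h⟩

/-- The failure event for `m`. -/
def CFail (n r : ℕ) (c : Finset (Finset (Fin n)) → Finset (Finset (Fin n))) (b : ℝ) (m : ℕ) :
    Set (Finset (Finset (Fin n))) :=
  {G | ∃ x ∈ powersetCard m (Blk n r) ×ˢ Fintype.piFinset fun _ : Fin m => Blk n r,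
    G ∈ {G | Bad n r c b x.1 G (List.ofFn x.2)}}

theorem CFail_prob {K : ℕ} {g : ℝ} (hc : IsClo n q r K g c) (hqr : r ≤ q) {p : ℝ} (h0 : 0 ≤ p)
    (h1 : p ≤ 1) {m : ℕ} (hm : 1 ≤ m) :
    PrE (Blk n q) p (CFail n r c b m) ≤
      ((n.choose r : ℝ) ^ 2 * Real.exp (2 * (p * g) - b / q.choose r)) ^ m := by
  have hcr : (Blk n r).card = n.choose r := by
    rw [card_powersetCard, card_univ, Fintype.card_fin]
  refine (PrE_exists_le h0 h1 _ _ (b := Real.exp (m * (2 * (p * g) - b / q.choose r))) ?_).trans ?_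
  · intro x hx
    rw [mem_product, mem_powersetCard] at hx
    have hSn : x.1.Nonempty := card_pos.1 (by rw [hx.1.2]; omega)
    have := bad_prob (b := b) hc hx.1.1 hSn hqr h0 h1 (List.ofFn x.2)
    rwa [List.length_ofFn] at this
  · rw [card_product, card_powersetCard, Fintype.card_piFinset, prod_const, card_univ,
      Fintype.card_fin, hcr, mul_pow, ← Real.exp_nat_mul]
    refine mul_le_mul_of_nonneg_right ?_ (Real.exp_pos _).le
    rw [← pow_mul, mul_comm 2 m, pow_mul, sq]
    have h2 : (n.choose r).choose m ≤ (n.choose r) ^ m := Nat.choose_le_pow _ _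
    exact_mod_cast Nat.mul_le_mul_right _ h2

theorem not_clo_sub {K : ℕ} {g : ℝ} (hc : IsClo n q r K g c) {G : Finset (Finset (Fin n))}
    (hG : ¬ Clo n q r (2 * K) b G) : ∃ m ∈ Icc 1 (n.choose r), G ∈ CFail n r c b m := by
  have hcr : (Blk n r).card = n.choose r := by
    rw [card_powersetCard, card_univ, Fintype.card_fin]
  unfold Clo at hG
  push Not at hG
  obtain ⟨S, hS, hSn, h⟩ := hG
  obtain ⟨L, hL, hb⟩ := exists_bad hc hS hSn h S.card le_rfl
  refine ⟨S.card, mem_Icc.2 ⟨card_pos.2 hSn, by rw [← hcr]; exact card_le_card hS⟩, ?_⟩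
  refine ⟨(S, fun i => L.get (i.cast hL.symm)), ?_, ?_⟩
  · rw [mem_product, mem_powersetCard, Fintype.mem_piFinset]
    exact ⟨⟨hS, rfl⟩, fun i => hb.mem _ (List.get_mem _ _)⟩
  · have h2 : List.ofFn (fun i : Fin S.card => L.get (i.cast hL.symm)) = L := by
      apply List.ext_get
      · rw [List.length_ofFn, hL]
      · intro k h1 h2
        simp
    show Bad n r c b S G (List.ofFn fun i : Fin S.card => L.get (i.cast hL.symm))
    rw [h2]
    exact hb

end seq

theorem exp_log_neg {n : ℕ} (hn : 0 < n) (k : ℕ) :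
    Real.exp (-(k * Real.log n)) = 1 / (n : ℝ) ^ k := by
  have hn0 : (0 : ℝ) < n := by exact_mod_cast hn
  rw [Real.exp_neg, ← Real.log_pow, Real.exp_log (by positivity), one_div]

theorem clo_prob (q r : ℕ) (hr : 1 ≤ r) (hqr : r < q) {γ : ℝ} (hγ : 0 < γ) :
    ∃ K : ℕ, ∃ C : ℝ, 0 < C ∧ ∀ᶠ n : ℕ in atTop, ∀ p : ℝ, p ≤ 1 →
      C * (Real.log n / (n : ℝ) ^ (q - r)) ≤ p →
      PrE (Blk n q) p {G | ¬ Clo n q r K (γ * (p * (n - r).choose (q - r))) G} ≤ 1 / n := by
  have hk : (0 : ℝ) < q.choose r := by exact_mod_cast Nat.choose_pos hqr.le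
  obtain ⟨K, hK⟩ := clo_det q r hr hqr (γ := γ / (4 * q.choose r)) (by positivity)
  obtain ⟨C1, hC1⟩ : ∃ C1 : ℝ, C1 = 2 * q.choose r * (3 * r + 1) / γ := ⟨_, rfl⟩
  have hC10 : 0 < C1 := by
    rw [hC1]
    positivity
  refine ⟨2 * K, C1 * (2 ^ (q - r) * (q - r).factorial), by positivity, ?_⟩
  filter_upwards [eventually_ge_atTop (2 * q), hK] with n hn hK p h1 hp
  have hn2 : 2 ≤ n := by omega
  have hn0 : (0 : ℝ) < n := by exact_mod_cast (by omega : 0 < n)
  have hn1 : (1 : ℝ) ≤ n := by exact_mod_cast (by omega : 1 ≤ n)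
  have hl0 : 0 < Real.log n := Real.log_pos (by exact_mod_cast hn2)
  have hp0 : 0 < p := lt_of_lt_of_le (by positivity) hp
  obtain ⟨D, hD⟩ : ∃ D, D = p * ((n - r).choose (q - r) : ℝ) := ⟨_, rfl⟩
  -- the mean degree
  have hDC : C1 * Real.log n ≤ D := by
    have h2 := Nat.pow_le_choose (α := ℝ) (q - r) (n - r)
    have h3 : ((n : ℝ) / 2) ^ (q - r) ≤ (((n - r + 1 - (q - r) : ℕ) : ℝ)) ^ (q - r) := by
      refine pow_le_pow_left₀ (by positivity) ?_ _
      have : n ≤ 2 * (n - r + 1 - (q - r)) := by omega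
      have : (n : ℝ) ≤ 2 * ((n - r + 1 - (q - r) : ℕ) : ℝ) := by exact_mod_cast this
      linarith
    have hf : (0 : ℝ) < (q - r).factorial := by exact_mod_cast Nat.factorial_pos _
    have h4 : ((n : ℝ) / 2) ^ (q - r) / (q - r).factorial ≤ (n - r).choose (q - r) :=
      (div_le_div_of_nonneg_right h3 hf.le).trans h2
    rw [hD]
    have h5 := mul_le_mul hp h4 (by positivity) hp0.le
    refine le_trans (le_of_eq ?_) h5
    rw [div_pow]
    field_simp
  rw [← hD]
  -- the closure operator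
  obtain ⟨c, hc⟩ : ∃ c : Finset (Finset (Fin n)) → Finset (Finset (Fin n)),
      IsClo n q r K (γ / (4 * q.choose r) * (n - r).choose (q - r)) c := by
    classical
    refine ⟨fun S => if h : S ⊆ Blk n r ∧ S.Nonempty then (hK S h.1 h.2).choose else ∅, ?_⟩
    intro S hS hSn
    have h := (hK S hS hSn).choose_spec
    simp only [dif_pos (And.intro hS hSn)]
    exact h
  have hch : (n.choose r : ℝ) ≤ (n : ℝ) ^ r := by
    exact_mod_cast Nat.choose_le_pow n r
  have hexp : 2 * (p * (γ / (4 * q.choose r) * (n - r).choose (q - r))) - γ * D / q.choose r =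
      -(γ * D / (2 * q.choose r)) := by
    rw [hD]
    field_simp
    ring
  have hρ : (n.choose r : ℝ) ^ 2 * Real.exp (2 * (p * (γ / (4 * q.choose r) *
      (n - r).choose (q - r))) - γ * D / q.choose r) ≤ 1 / (n : ℝ) ^ (r + 1) := by
    rw [hexp]
    have e1 : ((3 * r + 1 : ℕ) : ℝ) * Real.log n ≤ γ * D / (2 * q.choose r) := by
      rw [le_div_iff₀ (by positivity)]
      have e2 := mul_le_mul_of_nonneg_left hDC hγ.le
      rw [hC1] at e2
      refine le_trans (le_of_eq ?_) e2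
      push_cast
      field_simp
    have e3 : Real.exp (-(γ * D / (2 * q.choose r))) ≤ 1 / (n : ℝ) ^ (3 * r + 1) := by
      rw [← exp_log_neg (by omega) (3 * r + 1), Real.exp_le_exp]
      exact neg_le_neg e1
    have e4 : (n.choose r : ℝ) ^ 2 ≤ ((n : ℝ) ^ r) ^ 2 := pow_le_pow_left₀ (by positivity) hch 2
    refine (mul_le_mul e4 e3 (Real.exp_pos _).le (by positivity)).trans (le_of_eq ?_)
    rw [← pow_mul, mul_one_div, div_eq_div_iff (by positivity) (by positivity), ← pow_add, one_mul]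
    congr 1
    ring
  have hρ1 : 1 / (n : ℝ) ^ (r + 1) ≤ 1 := by
    rw [div_le_one (by positivity)]
    exact one_le_pow₀ hn1
  have hA : ∀ m ∈ Icc 1 (n.choose r), PrE (Blk n q) p (CFail n r c (γ * D) m) ≤
      1 / (n : ℝ) ^ (r + 1) := by
    intro m hm
    rw [mem_Icc] at hm
    refine (CFail_prob hc hqr.le hp0.le h1 hm.1).trans
      ((pow_le_pow_left₀ (by positivity) hρ m).trans ?_)
    exact pow_le_of_le_one (by positivity) hρ1 (by omega)
  have h6 := PrE_exists_le hp0.le h1 (Icc 1 (n.choose r)) (CFail n r c (γ * D)) hA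
  have hcI : (Icc 1 (n.choose r)).card = n.choose r := by simp
  rw [hcI] at h6
  refine (PrE_mono hp0.le h1 fun G _ hG => not_clo_sub hc hG).trans (h6.trans ?_)
  refine (mul_le_mul_of_nonneg_right hch (by positivity)).trans (le_of_eq ?_)
  rw [pow_succ]
  field_simp

end Pool.Agent.MP4a7415S
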