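import Pool.Agent.Lib.MP_4a7415_coI.DZ

/-! # Inequalities for the cosine -/

namespace Pool.Agent.MP4a7415S

open Pool.Agent.MP4a7415

private theorem cos_le_exp {u : ℝ} (hu : |u| ≤ Real.pi / 2) :
    Real.cos u ≤ Real.exp (-(u ^ 2 / 2)) := by
  have hpi := Real.pi_lt_d2
  set v : ℝ := u / 2 with hv
  have hv1 : |v| ≤ 1 := by
    rw [hv, abs_div, abs_two]
    linarith
  have h1 := (abs_le.1 (Real.cos_bound hv1)).2
  have hv2 : v ^ 2 ≤ 1 := by
    rw [← sq_abs]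
    exact pow_le_one₀ (abs_nonneg v) hv1
  have h4 : |v| ^ 4 = (v ^ 2) ^ 2 := by
    rw [← sq_abs v]
    ring
  rw [h4] at h1
  have hc0 : 0 ≤ Real.cos v := by
    have : |v| ≤ Real.pi / 2 := by
      have := Real.pi_gt_three
      linarith
    exact Real.cos_nonneg_of_mem_Icc ⟨(abs_le.1 this).1, (abs_le.1 this).2⟩
  have h2 : Real.cos u = 2 * Real.cos v ^ 2 - 1 := by
    rw [← Real.cos_two_mul, hv]
    congr 1
    ring
  set t : ℝ := v ^ 2 with ht
  have ht0 : 0 ≤ t := sq_nonneg v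
  have h3 : Real.cos v ≤ 1 - t / 2 + 5 / 96 * t ^ 2 := by linarith
  have h5 : Real.cos v ^ 2 ≤ (1 - t / 2 + 5 / 96 * t ^ 2) ^ 2 := pow_le_pow_left₀ hc0 h3 2
  have h6 : Real.cos u ≤ (1 - t) ^ 2 := by
    rw [h2]
    have e1 : 2 * (1 - t / 2 + 5 / 96 * t ^ 2) ^ 2 - 1 = (1 - t) ^ 2 -
        t ^ 2 * (7 / 24 + 5 / 48 * t - 25 / 4608 * t ^ 2) := by ring
    have e2 : 0 ≤ t ^ 2 * (7 / 24 + 5 / 48 * t - 25 / 4608 * t ^ 2) := by
      apply mul_nonneg (sq_nonneg _)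
      nlinarith
    linarith
  have h7 : 1 - t ≤ Real.exp (-t) := by
    have := Real.add_one_le_exp (-t)
    linarith
  calc Real.cos u ≤ (1 - t) ^ 2 := h6
    _ ≤ Real.exp (-t) ^ 2 := pow_le_pow_left₀ (by linarith) h7 2
    _ = Real.exp (-(u ^ 2 / 2)) := by
      rw [← Real.exp_nat_mul, ht, hv]
      congr 1
      push_cast
      ring

private theorem pi_sq : 8 ≤ Real.pi ^ 2 ∧ Real.pi ^ 2 ≤ 987 / 100 := by
  have h1 := Real.pi_gt_three
  have h2 := Real.pi_lt_d4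
  constructor
  · nlinarith
  · nlinarith

theorem cos_mul_le {x y : ℝ} (hx : |x| < 1 / 2) (hy : |y| < 1 / 2) :
    Real.cos (Real.pi * x) * Real.cos (Real.pi * y) ≤
      Real.cos (Real.pi * ((x + y) / 2)) ^ 2 * Real.exp (-(2 * (x - y) ^ 2)) := by
  have hpi := Real.pi_pos
  set m : ℝ := Real.pi * ((x + y) / 2) with hm
  set h : ℝ := Real.pi * ((x - y) / 2) with hh
  have h1 : Real.cos (Real.pi * x) * Real.cos (Real.pi * y) =
      Real.cos m ^ 2 - Real.sin h ^ 2 := by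
    have e1 : Real.pi * x = m + h := by rw [hm, hh]; ring
    have e2 : Real.pi * y = m - h := by rw [hm, hh]; ring
    rw [e1, e2, Real.cos_add, Real.cos_sub]
    have e3 := Real.sin_sq m
    have e4 := Real.sin_sq h
    have e5 : (Real.cos m * Real.cos h - Real.sin m * Real.sin h) *
        (Real.cos m * Real.cos h + Real.sin m * Real.sin h) =
        Real.cos m ^ 2 * Real.cos h ^ 2 - Real.sin m ^ 2 * Real.sin h ^ 2 := by ring
    rw [e5, e3, e4]
    ring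
  have hcm : Real.cos m ^ 2 ≤ 1 := Real.cos_sq_le_one m
  have h2 : Real.cos m ^ 2 - Real.sin h ^ 2 ≤ Real.cos m ^ 2 * Real.cos h ^ 2 := by
    have e4 := Real.sin_sq h
    have e6 : 0 ≤ Real.sin h ^ 2 := sq_nonneg _
    have e7 : Real.cos h ^ 2 = 1 - Real.sin h ^ 2 := by linarith
    rw [e7]
    nlinarith
  have hd : |x - y| < 1 := by
    have := abs_sub x y
    linarith
  have h3 : |h| ≤ Real.pi / 2 := by
    rw [hh, abs_mul, abs_of_pos hpi, abs_div, abs_two]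
    nlinarith [abs_nonneg (x - y)]
  have h4 : Real.cos h ^ 2 ≤ Real.exp (-(2 * (x - y) ^ 2)) := by
    have e1 := cos_le_exp h3
    have e2 : 0 ≤ Real.cos h :=
      Real.cos_nonneg_of_mem_Icc ⟨(abs_le.1 h3).1, (abs_le.1 h3).2⟩
    calc Real.cos h ^ 2 ≤ Real.exp (-(h ^ 2 / 2)) ^ 2 := pow_le_pow_left₀ e2 e1 2
      _ = Real.exp (-(h ^ 2)) := by
        rw [← Real.exp_nat_mul]
        congr 1
        push_cast
        ring
      _ ≤ Real.exp (-(2 * (x - y) ^ 2)) := by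
        apply Real.exp_le_exp.2
        have e3 : h ^ 2 = Real.pi ^ 2 * (x - y) ^ 2 / 4 := by
          rw [hh]
          ring
        rw [e3]
        nlinarith [pi_sq.1, sq_nonneg (x - y)]
  rw [h1]
  exact h2.trans (mul_le_mul_of_nonneg_left h4 (sq_nonneg _))

theorem abs_cos_le (x : ℝ) :
    |Real.cos (Real.pi * x)| ≤ Real.exp (-(Real.pi ^ 2 / 2 * dZ x ^ 2)) := by
  have hpi := Real.pi_pos
  set r : ℝ := x - round x with hr
  have h1 : |Real.cos (Real.pi * x)| = |Real.cos (Real.pi * r)| := by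
    have e1 : Real.pi * x = Real.pi * r + (round x : ℤ) * Real.pi := by
      rw [hr]
      ring
    rw [e1, Real.cos_add_int_mul_pi, abs_mul]
    have e2 : |((-1 : ℝ) ^ (round x : ℤ))| = 1 := by
      rw [abs_zpow, abs_neg, abs_one, one_zpow]
    rw [e2, one_mul]
  have h2 : |Real.pi * r| ≤ Real.pi / 2 := by
    rw [abs_mul, abs_of_pos hpi]
    have := abs_sub_round x
    rw [← hr] at this
    nlinarith
  have h3 : 0 ≤ Real.cos (Real.pi * r) :=
    Real.cos_nonneg_of_mem_Icc ⟨(abs_le.1 h2).1, (abs_le.1 h2).2⟩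
  rw [h1, abs_of_nonneg h3]
  refine (cos_le_exp h2).trans (Real.exp_le_exp.2 ?_)
  have h4 : dZ x ^ 2 = r ^ 2 := by
    unfold dZ
    rw [sq_abs, hr]
  rw [h4]
  apply le_of_eq
  ring

theorem le_cos {x : ℝ} (hx : |x| ≤ 1 / 4) :
    Real.exp (-(10 * x ^ 2)) ≤ Real.cos (Real.pi * x) := by
  have h1 := Real.one_sub_sq_div_two_le_cos (x := Real.pi * x)
  have h2 : 1 + 10 * x ^ 2 ≤ Real.exp (10 * x ^ 2) := by
    have := Real.add_one_le_exp (10 * x ^ 2)
    linarith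
  have hx2 : x ^ 2 ≤ 1 / 16 := by
    rw [← sq_abs]
    have := pow_le_pow_left₀ (abs_nonneg x) hx 2
    linarith
  have hx0 : 0 ≤ x ^ 2 := sq_nonneg x
  refine le_trans ?_ h1
  rw [Real.exp_neg]
  have h3 : (Real.exp (10 * x ^ 2))⁻¹ ≤ (1 + 10 * x ^ 2)⁻¹ := inv_anti₀ (by linarith) h2
  refine h3.trans ?_
  rw [inv_le_iff_one_le_mul₀ (by linarith)]
  have h4 : (Real.pi * x) ^ 2 / 2 ≤ 987 / 200 * x ^ 2 := by
    have e1 : (Real.pi * x) ^ 2 = Real.pi ^ 2 * x ^ 2 := by ring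
    rw [e1]
    nlinarith [pi_sq.2]
  have h5 : (1 - 987 / 200 * x ^ 2) * (1 + 10 * x ^ 2) ≤
      (1 - (Real.pi * x) ^ 2 / 2) * (1 + 10 * x ^ 2) :=
    mul_le_mul_of_nonneg_right (by linarith) (by linarith)
  refine le_trans ?_ h5
  nlinarith

/-- The bound used on the edges that meet `B`: `x` is the part on `B`, `s` the rest. -/
theorem abs_cos_add_le (x s : ℝ) :
    |Real.cos (Real.pi * (x + s))| ≤ Real.exp (-(2 * dZ x ^ 2) + 5 * s ^ 2) := by
  refine (abs_cos_le (x + s)).trans (Real.exp_le_exp.2 ?_)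
  have h1 : dZ x ≤ dZ (x + s) + |s| := by
    have := dZ_le_add_abs x (x + s)
    have e : |x - (x + s)| = |s| := by
      rw [← abs_neg]
      congr 1
      ring
    rw [e] at this
    exact this
  have h2 := dZ_nonneg x
  have h3 := dZ_nonneg (x + s)
  have h4 : dZ x ^ 2 ≤ 2 * dZ (x + s) ^ 2 + 2 * s ^ 2 := by
    have e1 : dZ x ^ 2 ≤ (dZ (x + s) + |s|) ^ 2 := pow_le_pow_left₀ h2 h1 2
    have e2 : |s| ^ 2 = s ^ 2 := sq_abs s
    nlinarith [sq_nonneg (dZ (x + s) - |s|)]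
  have h5 := pi_sq.1
  have h6 := pi_sq.2
  nlinarith [sq_nonneg (dZ x), sq_nonneg s, sq_nonneg (dZ (x + s))]

end Pool.Agent.MP4a7415S
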