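import Pool.Agent.Lib.MP_4a7415_coS.Near
import Pool.Agent.Lib.MP_4a7415_coS.Cos

/-! # Strong log-concavity of the comparison function -/

namespace Pool.Agent.MP4a7415S

open Finset MeasureTheory Pool.Agent.MP4a7415

variable {ι κ : Type*} [Fintype ι] [Fintype κ] {M : κ → ι → ℤ} {Ls : AddSubgroup (κ → ℝ)}
  {a : ι → ℕ} {k Q K : ℕ} {c D : ℝ}

omit [Fintype ι] in
private theorem lc_cont_Lm (M : κ → ι → ℤ) (B : Finset κ) (e : ι) :
    Continuous fun t : κ → ℝ => Lm M (offB B t) e := by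
  classical
  unfold Lm offB
  refine continuous_finsetSum _ fun R _ => ?_
  by_cases hR : R ∈ B
  · simp only [if_pos hR]
    exact continuous_const
  · simp only [if_neg hR]
    exact continuous_const.mul (continuous_apply R)

theorem continuous_gB (M : κ → ι → ℤ) (a : ι → ℕ) (B : Finset κ) : Continuous (gB M a B) := by
  unfold gB
  refine Continuous.mul ?_ ?_
  · refine continuous_finsetProd _ fun e _ => ?_
    exact (Real.continuous_cos.comp (continuous_const.mul (lc_cont_Lm M B e))).pow _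
  · refine Real.continuous_exp.comp (continuous_const.mul ?_)
    refine continuous_finsetSum _ fun e _ => ?_
    exact continuous_const.mul ((lc_cont_Lm M B e).pow 2)

theorem gB_neg (M : κ → ι → ℤ) (a : ι → ℕ) (B : Finset κ) (t : κ → ℝ) :
    gB M a B (fun R => - t R) = gB M a B t := by
  classical
  have h1 : ∀ e, Lm M (offB B fun R => - t R) e = - Lm M (offB B t) e := by
    intro e
    unfold Lm offB
    rw [← Finset.sum_neg_distrib]
    refine Finset.sum_congr rfl fun R _ => ?_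
    by_cases hR : R ∈ B
    · simp only [if_pos hR, mul_zero, neg_zero]
    · simp only [if_neg hR, mul_neg]
  unfold gB
  simp only [h1, mul_neg, Real.cos_neg, neg_sq]

omit [Fintype ι] [Fintype κ] in
private theorem lc_offB_le {B : Finset κ} {w τ : ℝ} (hτ : 0 ≤ τ) {t : κ → ℝ} (ht : t ∈ bx B w τ)
    (R : κ) : |offB B t R| ≤ τ := by
  classical
  unfold offB
  by_cases hR : R ∈ B
  · simp only [if_pos hR, abs_zero]
    exact hτ
  · simp only [if_neg hR]
    exact ht.2 R hR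

private theorem lc_tau_nonneg (k Q : ℕ) : 0 ≤ tau k Q := by
  unfold tau
  positivity

private theorem lc_sq_le (h : Spl M Ls a k Q K c D) (y : κ → ℝ) (e : ι) :
    Lm M y e ^ 2 ≤ k * ∑ R ∈ univ.filter (fun R => M R e ≠ 0), y R ^ 2 := by
  classical
  have h1 : Lm M y e = ∑ R ∈ univ.filter (fun R => M R e ≠ 0), y R := by
    unfold Lm
    rw [Finset.sum_filter]
    refine Finset.sum_congr rfl fun R _ => ?_
    rcases h.m01 R e with h0 | h0
    · rw [if_neg (by simp [h0]), h0, Int.cast_zero, zero_mul]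
    · rw [if_pos (by simp [h0]), h0, Int.cast_one, one_mul]
  rw [h1]
  refine (sq_sum_le_card_mul_sum_sq).trans ?_
  refine mul_le_mul_of_nonneg_right ?_ (Finset.sum_nonneg fun R _ => sq_nonneg _)
  exact_mod_cast h.col e

private theorem lc_abs_le (h : Spl M Ls a k Q K c D) {y : κ → ℝ} (hy : ∀ R, |y R| ≤ tau k Q)
    (e : ι) : |Lm M y e| ≤ 1 / 4 := by
  classical
  have h1 : |Lm M y e| ≤ ∑ R ∈ univ.filter (fun R => M R e ≠ 0), tau k Q := by
    unfold Lm
    refine (Finset.abs_sum_le_sum_abs _ _).trans ?_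
    rw [Finset.sum_filter]
    refine Finset.sum_le_sum fun R _ => ?_
    rcases h.m01 R e with h0 | h0
    · rw [if_neg (by simp [h0]), h0, Int.cast_zero, zero_mul, abs_zero]
    · rw [if_pos (by simp [h0]), h0, Int.cast_one, one_mul]
      exact hy R
  refine h1.trans ?_
  rw [Finset.sum_const, nsmul_eq_mul]
  have hk : (1 : ℝ) ≤ k := by exact_mod_cast h.k1
  have hQ : (1 : ℝ) ≤ Q := by exact_mod_cast h.Q1
  calc ((univ.filter fun R => M R e ≠ 0).card : ℝ) * tau k Q ≤ k * tau k Q := by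
        refine mul_le_mul_of_nonneg_right ?_ (lc_tau_nonneg k Q)
        exact_mod_cast h.col e
    _ = 1 / (4 * Q) := by
        unfold tau
        field_simp
    _ ≤ 1 / 4 := by
        refine one_div_le_one_div_of_le (by norm_num) ?_
        linarith

private theorem lc_cos_nonneg {x : ℝ} (hx : |x| ≤ 1 / 4) : 0 ≤ Real.cos (Real.pi * x) := by
  rw [abs_le] at hx
  apply Real.cos_nonneg_of_neg_pi_div_two_le_of_le
  · nlinarith [Real.pi_pos]
  · nlinarith [Real.pi_pos]

theorem gB_nonneg (h : Spl M Ls a k Q K c D) {B : Finset κ} {w : ℝ} {t : κ → ℝ}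
    (ht : t ∈ bx B w (tau k Q)) : 0 ≤ gB M a B t := by
  unfold gB
  refine mul_nonneg (Finset.prod_nonneg fun e _ => pow_nonneg ?_ _) (Real.exp_pos _).le
  exact lc_cos_nonneg (lc_abs_le h (lc_offB_le (lc_tau_nonneg k Q) ht) e)

omit [Fintype κ] in
theorem closed_bx (B : Finset κ) (w τ : ℝ) : IsClosed (bx B w τ) := by
  have h1 : bx B w τ = (⋂ R ∈ B, {t : κ → ℝ | |t R| ≤ w}) ∩ ⋂ R, ⋂ (_ : R ∉ B), {t : κ → ℝ | |t R| ≤ τ} := by
    ext t
    simp only [bx, Set.mem_ofPred_eq, Set.mem_inter_iff, Set.mem_iInter]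
  rw [h1]
  refine IsClosed.inter ?_ ?_
  · exact isClosed_biInter fun R _ => isClosed_le (continuous_apply R).abs continuous_const
  · exact isClosed_iInter fun R => isClosed_iInter fun _ =>
      isClosed_le (continuous_apply R).abs continuous_const

theorem gB_lc (h : Spl M Ls a k Q K c D) (hD : 0 < D) {B : Finset κ}
    (hB : Cl M (c / (10 * k) * D) B) (w : ℝ) (x y : κ → ℝ) :
    (bx B w (tau k Q)).indicator (gB M a B) x * (bx B w (tau k Q)).indicator (gB M a B) y ≤
      (bx B w (tau k Q)).indicator (gB M a B) (fun i => (x i + y i) / 2) ^ 2 *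
        Real.exp (-(c * D * ∑ i ∈ cpl B, (x i - y i) ^ 2)) := by
  classical
  by_cases hx : x ∈ bx B w (tau k Q)
  swap
  · rw [Set.indicator_of_notMem hx, zero_mul]
    positivity
  by_cases hy : y ∈ bx B w (tau k Q)
  swap
  · rw [Set.indicator_of_notMem hy, mul_zero]
    positivity
  have hm : (fun i => (x i + y i) / 2) ∈ bx B w (tau k Q) := by
    constructor
    · intro R hR
      have h1 := abs_le.1 (hx.1 R hR)
      have h2 := abs_le.1 (hy.1 R hR)
      exact abs_le.2 ⟨by linarith, by linarith⟩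
    · intro R hR
      have h1 := abs_le.1 (hx.2 R hR)
      have h2 := abs_le.1 (hy.2 R hR)
      exact abs_le.2 ⟨by linarith, by linarith⟩
  rw [Set.indicator_of_mem hx, Set.indicator_of_mem hy, Set.indicator_of_mem hm]
  have hk : (1 : ℝ) ≤ k := by exact_mod_cast h.k1
  have hQ : (1 : ℝ) ≤ Q := by exact_mod_cast h.Q1
  set X : ι → ℝ := fun e => Lm M (offB B x) e with hX
  set Y : ι → ℝ := fun e => Lm M (offB B y) e with hY
  set z : κ → ℝ := fun R => offB B x R - offB B y R with hz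
  have hXle : ∀ e, |X e| ≤ 1 / 4 := fun e => lc_abs_le h (lc_offB_le (lc_tau_nonneg k Q) hx) e
  have hYle : ∀ e, |Y e| ≤ 1 / 4 := fun e => lc_abs_le h (lc_offB_le (lc_tau_nonneg k Q) hy) e
  have hmid : ∀ e, Lm M (offB B fun i => (x i + y i) / 2) e = (X e + Y e) / 2 := by
    intro e
    rw [hX, hY]
    unfold Lm offB
    rw [← Finset.sum_add_distrib, Finset.sum_div]
    refine Finset.sum_congr rfl fun R _ => ?_
    by_cases hR : R ∈ B
    · simp only [if_pos hR, mul_zero, add_zero, zero_div]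
    · simp only [if_neg hR]
      ring
  have hd : ∀ e, X e - Y e = Lm M z e := by
    intro e
    rw [hz, Lm_sub]
  -- the exponent
  have hzmn : Mn Ls z := by
    refine Mn_small h.Q1 h.den fun R => ?_
    have h1 := abs_le.1 (lc_offB_le (lc_tau_nonneg k Q) hx R)
    have h2 := abs_le.1 (lc_offB_le (lc_tau_nonneg k Q) hy R)
    have h3 : 2 * tau k Q ≤ 1 / (2 * Q) := by
      unfold tau
      rw [← sub_nonneg]
      have : (1 : ℝ) / (2 * Q) - 2 * (1 / (4 * k * Q)) = (k - 1) / (2 * k * Q) := by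
        field_simp
        ring
      rw [this]
      exact div_nonneg (by linarith) (by positivity)
    rw [hz]
    exact abs_le.2 ⟨by linarith, by linarith⟩
  have hzB : ∀ R ∈ B, z R = 0 := by
    intro R hR
    simp only [hz, offB, if_pos hR, sub_zero]
  have hzsum : ∑ R, z R ^ 2 = ∑ i ∈ cpl B, (x i - y i) ^ 2 := by
    rw [cpl, Finset.sum_filter]
    refine Finset.sum_congr rfl fun R _ => ?_
    by_cases hR : R ∈ B
    · rw [hzB R hR, if_neg (not_not.2 hR)]
      norm_num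
    · rw [if_pos hR]
      simp only [hz, offB, if_neg hR]
  have hco := h.coer z hzmn
  have hall : c * D * ∑ R, z R ^ 2 ≤ ∑ e, (a e : ℝ) * (X e - Y e) ^ 2 := by
    refine hco.trans (Finset.sum_le_sum fun e _ => ?_)
    refine mul_le_mul_of_nonneg_left ?_ (Nat.cast_nonneg _)
    rw [hd e]
    exact (pow_le_pow_left₀ (dZ_nonneg _) (dZ_le_abs _) 2).trans (sq_abs _).le
  have htch : ∑ e ∈ tch M B, (a e : ℝ) * (X e - Y e) ^ 2 ≤ c / 5 * D * ∑ R, z R ^ 2 := by
    calc ∑ e ∈ tch M B, (a e : ℝ) * (X e - Y e) ^ 2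
        ≤ ∑ e ∈ tch M B, 2 * (k * ∑ R, if M R e ≠ 0 then z R ^ 2 else 0) := by
          refine Finset.sum_le_sum fun e _ => ?_
          rw [← Finset.sum_filter, hd e]
          have h1 : (a e : ℝ) ≤ 2 := by exact_mod_cast h.a2 e
          exact mul_le_mul h1 (lc_sq_le h z e) (sq_nonneg _) (by norm_num)
      _ = 2 * k * ∑ R, z R ^ 2 * (((tch M B).filter fun e => M R e ≠ 0).card : ℝ) := by
          rw [← Finset.mul_sum, ← Finset.mul_sum, Finset.sum_comm, mul_assoc]
          congr 2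
          refine Finset.sum_congr rfl fun R _ => ?_
          rw [← Finset.sum_filter, Finset.sum_const, nsmul_eq_mul, mul_comm]
      _ ≤ 2 * k * ∑ R, z R ^ 2 * (c / (10 * k) * D) := by
          refine mul_le_mul_of_nonneg_left (Finset.sum_le_sum fun R _ => ?_) (by positivity)
          by_cases hR : R ∈ B
          · rw [hzB R hR]
            norm_num
          · exact mul_le_mul_of_nonneg_left (hB R hR) (sq_nonneg _)
      _ = c / 5 * D * ∑ R, z R ^ 2 := by
          rw [← Finset.sum_mul]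
          field_simp
          ring
  have hsplit : ∑ e, (a e : ℝ) * (X e - Y e) ^ 2 = ∑ e ∈ cpl (tch M B), (a e : ℝ) * (X e - Y e) ^ 2 +
      ∑ e ∈ tch M B, (a e : ℝ) * (X e - Y e) ^ 2 := by
    rw [add_comm, cpl, ← Finset.sum_filter_add_sum_filter_not univ (fun e => e ∈ tch M B)]
    congr 1
    refine Finset.sum_congr ?_ fun _ _ => rfl
    ext e
    simp
  have hz0 : 0 ≤ ∑ R, z R ^ 2 := Finset.sum_nonneg fun R _ => sq_nonneg _
  have hexp : -(2 * ∑ e ∈ cpl (tch M B), (a e : ℝ) * (X e - Y e) ^ 2) +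
      5 / 2 * ∑ e ∈ tch M B, (a e : ℝ) * (X e - Y e) ^ 2 ≤
        -(c * D * ∑ i ∈ cpl B, (x i - y i) ^ 2) := by
    rw [← hzsum]
    have hcD : 0 ≤ c * D * ∑ R, z R ^ 2 := mul_nonneg (mul_nonneg h.c0.le hD.le) hz0
    have e1 : c / 5 * D * ∑ R, z R ^ 2 = (c * D * ∑ R, z R ^ 2) / 5 := by ring
    rw [e1] at htch
    linarith
  -- the product
  have hprod : (∏ e ∈ cpl (tch M B), Real.cos (Real.pi * X e) ^ a e) *
      (∏ e ∈ cpl (tch M B), Real.cos (Real.pi * Y e) ^ a e) ≤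
      (∏ e ∈ cpl (tch M B), Real.cos (Real.pi * ((X e + Y e) / 2)) ^ a e) ^ 2 *
        Real.exp (-(2 * ∑ e ∈ cpl (tch M B), (a e : ℝ) * (X e - Y e) ^ 2)) := by
    have e1 : (∏ e ∈ cpl (tch M B), Real.cos (Real.pi * ((X e + Y e) / 2)) ^ a e) ^ 2 *
        Real.exp (-(2 * ∑ e ∈ cpl (tch M B), (a e : ℝ) * (X e - Y e) ^ 2)) =
        ∏ e ∈ cpl (tch M B), (Real.cos (Real.pi * ((X e + Y e) / 2)) ^ 2 *
          Real.exp (-(2 * (X e - Y e) ^ 2))) ^ a e := by
      rw [Finset.mul_sum, ← Finset.sum_neg_distrib, Real.exp_sum, ← Finset.prod_pow,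
        ← Finset.prod_mul_distrib]
      refine Finset.prod_congr rfl fun e _ => ?_
      rw [mul_pow, ← Real.exp_nat_mul, ← pow_mul, ← pow_mul, mul_comm (a e) 2]
      congr 2
      ring
    rw [e1, ← Finset.prod_mul_distrib]
    refine Finset.prod_le_prod (fun e _ => ?_) fun e _ => ?_
    · exact mul_nonneg (pow_nonneg (lc_cos_nonneg (hXle e)) _)
        (pow_nonneg (lc_cos_nonneg (hYle e)) _)
    · rw [← mul_pow]
      refine pow_le_pow_left₀ (mul_nonneg (lc_cos_nonneg (hXle e)) (lc_cos_nonneg (hYle e))) ?_ _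
      exact cos_mul_le (lt_of_le_of_lt (hXle e) (by norm_num))
        (lt_of_le_of_lt (hYle e) (by norm_num))
  have hgx : gB M a B x = (∏ e ∈ cpl (tch M B), Real.cos (Real.pi * X e) ^ a e) *
      Real.exp (5 * ∑ e ∈ tch M B, (a e : ℝ) * X e ^ 2) := rfl
  have hgy : gB M a B y = (∏ e ∈ cpl (tch M B), Real.cos (Real.pi * Y e) ^ a e) *
      Real.exp (5 * ∑ e ∈ tch M B, (a e : ℝ) * Y e ^ 2) := rfl
  have hgm : gB M a B (fun i => (x i + y i) / 2) =
      (∏ e ∈ cpl (tch M B), Real.cos (Real.pi * ((X e + Y e) / 2)) ^ a e) *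
      Real.exp (5 * ∑ e ∈ tch M B, (a e : ℝ) * ((X e + Y e) / 2) ^ 2) := by
    unfold gB
    simp only [hmid]
  have hE : Real.exp (5 * ∑ e ∈ tch M B, (a e : ℝ) * X e ^ 2) *
      Real.exp (5 * ∑ e ∈ tch M B, (a e : ℝ) * Y e ^ 2) =
      Real.exp (5 * ∑ e ∈ tch M B, (a e : ℝ) * ((X e + Y e) / 2) ^ 2) ^ 2 *
        Real.exp (5 / 2 * ∑ e ∈ tch M B, (a e : ℝ) * (X e - Y e) ^ 2) := by
    rw [← Real.exp_add, sq, ← Real.exp_add, ← Real.exp_add]
    congr 1
    rw [Finset.mul_sum, Finset.mul_sum, Finset.mul_sum, Finset.mul_sum, ← Finset.sum_add_distrib,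
      ← Finset.sum_add_distrib, ← Finset.sum_add_distrib]
    refine Finset.sum_congr rfl fun e _ => ?_
    ring
  rw [hgx, hgy, hgm]
  set P := ∏ e ∈ cpl (tch M B), Real.cos (Real.pi * ((X e + Y e) / 2)) ^ a e with hP
  set E := Real.exp (5 * ∑ e ∈ tch M B, (a e : ℝ) * ((X e + Y e) / 2) ^ 2) with hEdef
  calc (∏ e ∈ cpl (tch M B), Real.cos (Real.pi * X e) ^ a e) *
      Real.exp (5 * ∑ e ∈ tch M B, (a e : ℝ) * X e ^ 2) *
      ((∏ e ∈ cpl (tch M B), Real.cos (Real.pi * Y e) ^ a e) *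
      Real.exp (5 * ∑ e ∈ tch M B, (a e : ℝ) * Y e ^ 2))
      = ((∏ e ∈ cpl (tch M B), Real.cos (Real.pi * X e) ^ a e) *
        (∏ e ∈ cpl (tch M B), Real.cos (Real.pi * Y e) ^ a e)) *
        (Real.exp (5 * ∑ e ∈ tch M B, (a e : ℝ) * X e ^ 2) *
          Real.exp (5 * ∑ e ∈ tch M B, (a e : ℝ) * Y e ^ 2)) := by ring
    _ ≤ (P ^ 2 * Real.exp (-(2 * ∑ e ∈ cpl (tch M B), (a e : ℝ) * (X e - Y e) ^ 2))) *
        (E ^ 2 * Real.exp (5 / 2 * ∑ e ∈ tch M B, (a e : ℝ) * (X e - Y e) ^ 2)) := by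
        rw [hE]
        exact mul_le_mul_of_nonneg_right hprod (by positivity)
    _ = (P * E) ^ 2 * Real.exp (-(2 * ∑ e ∈ cpl (tch M B), (a e : ℝ) * (X e - Y e) ^ 2) +
        5 / 2 * ∑ e ∈ tch M B, (a e : ℝ) * (X e - Y e) ^ 2) := by
        rw [Real.exp_add]
        ring
    _ ≤ (P * E) ^ 2 * Real.exp (-(c * D * ∑ i ∈ cpl B, (x i - y i) ^ 2)) :=
        mul_le_mul_of_nonneg_left (Real.exp_le_exp.2 hexp) (sq_nonneg _)

end Pool.Agent.MP4a7415S
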