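import Pool.Agent.Lib.MP_4a7415_coS.Defs

/-! # Change of the window on `B` -/

namespace Pool.Agent.MP4a7415S

open Finset MeasureTheory Pool.Agent.MP4a7415

private theorem measurableSet_bx {κ : Type*} [Fintype κ] (B : Finset κ) (w τ : ℝ) :
    MeasurableSet (bx B w τ) := by
  have h : bx B w τ = (⋂ R, {t : κ → ℝ | R ∈ B → |t R| ≤ w}) ∩
      ⋂ R, {t : κ → ℝ | R ∉ B → |t R| ≤ τ} := by
    ext t
    simp only [bx, Set.mem_setOf_eq, Set.mem_inter_iff, Set.mem_iInter]
  have hc : ∀ (R : κ) (v : ℝ), MeasurableSet {t : κ → ℝ | |t R| ≤ v} := by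
    intro R v
    exact measurableSet_le (measurable_pi_apply R).abs measurable_const
  rw [h]
  refine MeasurableSet.inter (MeasurableSet.iInter fun R => ?_) (MeasurableSet.iInter fun R => ?_)
  · by_cases hR : R ∈ B
    · simp only [hR, true_implies]
      exact hc R w
    · simp only [hR, false_implies]
      exact MeasurableSet.univ
  · by_cases hR : R ∈ B
    · simp only [hR, not_true_eq_false, false_implies]
      exact MeasurableSet.univ
    · simp only [hR, not_false_eq_true, true_implies]
      exact hc R τ

theorem scale {ι κ : Type*} [Fintype ι] [Fintype κ] (M : κ → ι → ℤ) (a : ι → ℕ)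
    (B : Finset κ) {w : ℝ} (hw : 0 < w) (τ : ℝ) :
    ∫ t in bx B w τ, gB M a B t = (2 * w) ^ B.card * ∫ t in bx B (1 / 2) τ, gB M a B t := by
  classical
  have h2w : 0 < 2 * w := by positivity
  obtain ⟨D, hD⟩ : ∃ D : κ → ℝ, ∀ R, D R = if R ∈ B then 2 * w else 1 := ⟨_, fun _ => rfl⟩
  have hdet : (Matrix.diagonal D).det = (2 * w) ^ B.card := by
    rw [Matrix.det_diagonal]
    simp only [hD]
    rw [Finset.prod_ite_mem]
    simp
  have hdet0 : (Matrix.diagonal D).det ≠ 0 := by
    rw [hdet]
    positivity
  have hDpos : ∀ R, D R ≠ 0 := by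
    intro R
    rw [hD]
    split_ifs
    · exact h2w.ne'
    · exact one_ne_zero
  obtain ⟨T, hT⟩ : ∃ T : (κ → ℝ) → (κ → ℝ), ∀ t R, T t R = D R * t R := ⟨_, fun _ _ => rfl⟩
  have hTlin : ⇑(Matrix.toLin' (Matrix.diagonal D)) = T := by
    funext t R
    rw [hT, Matrix.toLin'_apply, Matrix.mulVec_diagonal]
  have hvol : (volume : Measure (κ → ℝ)) =
      ENNReal.ofReal ((2 * w) ^ B.card) • Measure.map T volume := by
    have h := Real.smul_map_diagonal_volume_pi (D := D) hdet0
    rw [hdet, abs_of_pos (by positivity), hTlin] at h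
    exact h.symm
  have hTemb : MeasurableEmbedding T := by
    have hcont : Continuous T := by
      refine continuous_pi fun R => ?_
      simp only [hT]
      exact continuous_const.mul (continuous_apply R)
    have hinj : Function.Injective T := by
      intro x y hxy
      funext R
      have h := congrFun hxy R
      rw [hT, hT] at h
      exact mul_left_cancel₀ (hDpos R) h
    exact hcont.measurableEmbedding hinj
  have hoff : ∀ t, offB B (T t) = offB B t := by
    intro t
    funext R
    unfold offB
    split_ifs with hR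
    · rfl
    · rw [hT, hD, if_neg hR, one_mul]
  have hg : ∀ t, gB M a B (T t) = gB M a B t := by
    intro t
    unfold gB
    rw [hoff]
  have hmem : ∀ t, T t ∈ bx B w τ ↔ t ∈ bx B (1 / 2) τ := by
    intro t
    simp only [bx, Set.mem_setOf_eq]
    refine and_congr (forall_congr' fun R => ?_) (forall_congr' fun R => ?_)
    · refine imp_congr_right fun hR => ?_
      rw [hT, hD, if_pos hR, abs_mul, abs_of_pos h2w]
      constructor
      · intro h
        by_contra hc
        have : 1 / 2 < |t R| := not_le.1 hc
        nlinarith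
      · intro h
        nlinarith
    · refine imp_congr_right fun hR => ?_
      rw [hT, hD, if_neg hR, one_mul]
  rw [← integral_indicator (measurableSet_bx B w τ), ← integral_indicator (measurableSet_bx B (1 / 2) τ)]
  conv_lhs => rw [hvol]
  rw [integral_smul_measure, hTemb.integral_map, ENNReal.toReal_ofReal (by positivity), smul_eq_mul]
  refine congrArg (fun z => (2 * w) ^ B.card * z) ?_
  refine integral_congr_ae (Filter.Eventually.of_forall fun t => ?_)
  by_cases ht : t ∈ bx B (1 / 2) τ
  · simp only [Set.indicator_of_mem ht, Set.indicator_of_mem ((hmem t).2 ht), hg]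
  · have ht' : T t ∉ bx B w τ := fun h => ht ((hmem t).1 h)
    simp only [Set.indicator_of_notMem ht, Set.indicator_of_notMem ht']

end Pool.Agent.MP4a7415S
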