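import Pool.Agent.Lib.MP_4a7415_coS.PL

/-! # Second moments of strongly log-concave even functions -/

namespace Pool.Agent.MP4a7415S

open MeasureTheory Finset

private theorem intble_box {κ : Type*} [Fintype κ] {F : (κ → ℝ) → ℝ} (hF : Measurable F)
    {M b : ℝ} (hM : ∀ x, |F x| ≤ M) (hb : ∀ x, F x ≠ 0 → ∀ i, |x i| ≤ b) : Integrable F := by
  have hK : IsCompact (Set.univ.pi fun _ : κ => Set.Icc (-b) b) :=
    isCompact_univ_pi fun _ => isCompact_Icc
  have h1 : IntegrableOn F (Set.univ.pi fun _ : κ => Set.Icc (-b) b) :=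
    Measure.integrableOn_of_bounded (M := M) hK.measure_lt_top.ne hF.aestronglyMeasurable
      (Filter.Eventually.of_forall fun x => by
        rw [Real.norm_eq_abs]
        exact hM x)
  refine (integrableOn_iff_integrable_of_support_subset ?_).mp h1
  intro x hx
  rw [Set.mem_univ_pi]
  intro i
  exact abs_le.mp (hb x hx i)

private theorem lin_bd {κ : Type*} [Fintype κ] (l x : κ → ℝ) {b : ℝ} (hx : ∀ i, |x i| ≤ b) :
    |∑ i, l i * x i| ≤ ∑ i, |l i| * b := by
  refine (Finset.abs_sum_le_sum_abs _ _).trans (Finset.sum_le_sum fun i _ => ?_)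
  rw [abs_mul]
  exact mul_le_mul_of_nonneg_left (hx i) (abs_nonneg _)

private theorem lin_meas {κ : Type*} [Fintype κ] (l : κ → ℝ) :
    Measurable fun x : κ → ℝ => ∑ i, l i * x i := by
  fun_prop

private theorem lin_neg {κ : Type*} [Fintype κ] (l x : κ → ℝ) :
    ∑ i, l i * (- x i) = -∑ i, l i * x i := by
  rw [← Finset.sum_neg_distrib]
  exact Finset.sum_congr rfl fun i _ => by ring

private theorem fexp_bd {κ : Type*} [Fintype κ] {g : (κ → ℝ) → ℝ}
    (hg0 : ∀ x, 0 ≤ g x) {C b : ℝ} (hgC : ∀ x, g x ≤ C) (hgb : ∀ x, g x ≠ 0 → ∀ i, |x i| ≤ b)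
    (l : κ → ℝ) (x : κ → ℝ) :
    g x * Real.exp (∑ i, l i * x i) ≤ C * Real.exp (∑ i, |l i| * b) := by
  have hC : 0 ≤ C := (hg0 x).trans (hgC x)
  by_cases h : g x = 0
  · rw [h, zero_mul]
    positivity
  · refine mul_le_mul (hgC x) ?_ (Real.exp_pos _).le hC
    exact Real.exp_le_exp.mpr ((le_abs_self _).trans (lin_bd l x (hgb x h)))

private theorem mgf_le {κ : Type*} [Fintype κ] (U : Finset κ) {g : (κ → ℝ) → ℝ}
    (hg : Measurable g)
    (hg0 : ∀ x, 0 ≤ g x) {C b : ℝ} (hgC : ∀ x, g x ≤ C) (hgb : ∀ x, g x ≠ 0 → ∀ i, |x i| ≤ b)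
    (heven : ∀ x, g (fun i => - x i) = g x) {A : ℝ} (hA : 0 < A)
    (hlc : ∀ x y, g x * g y ≤
      g (fun i => (x i + y i) / 2) ^ 2 * Real.exp (-(A * ∑ i ∈ U, (x i - y i) ^ 2)))
    (l : κ → ℝ) (hl : ∀ i, i ∉ U → l i = 0) :
    ∫ x, g x * Real.exp (∑ i, l i * x i) ≤
      Real.exp ((∑ i, l i ^ 2) / (8 * A)) * ∫ x, g x := by
  have hC : 0 ≤ C := (hg0 0).trans (hgC 0)
  have hE : Measurable fun x : κ → ℝ => Real.exp (∑ i, l i * x i) :=
    Real.measurable_exp.comp (lin_meas l)
  have hE' : Measurable fun x : κ → ℝ => Real.exp (-∑ i, l i * x i) :=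
    Real.measurable_exp.comp (lin_meas l).neg
  have hf : Measurable fun x => g x * Real.exp (∑ i, l i * x i) := hg.mul hE
  have hf' : Measurable fun x => g x * Real.exp (-∑ i, l i * x i) := hg.mul hE'
  have hh : Measurable fun x => Real.exp ((∑ i, l i ^ 2) / (8 * A)) * g x := hg.const_mul _
  have hneg : ∀ x : κ → ℝ, g x * Real.exp (-∑ i, l i * x i)
      = g (fun i => - x i) * Real.exp (∑ i, l i * (- x i)) := by
    intro x
    rw [heven, lin_neg]
  set C' : ℝ := C * Real.exp (∑ i, |l i| * b) + Real.exp ((∑ i, l i ^ 2) / (8 * A)) * C with hC'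
  have hC1 : C * Real.exp (∑ i, |l i| * b) ≤ C' := by
    rw [hC']
    have : 0 ≤ Real.exp ((∑ i, l i ^ 2) / (8 * A)) * C := by positivity
    linarith
  have hC2 : Real.exp ((∑ i, l i ^ 2) / (8 * A)) * C ≤ C' := by
    rw [hC']
    have : 0 ≤ C * Real.exp (∑ i, |l i| * b) := by positivity
    linarith
  have key := pl_pi hf hf' hh (C := C') (b := b)
    (fun x => mul_nonneg (hg0 x) (Real.exp_pos _).le)
    (fun x => mul_nonneg (hg0 x) (Real.exp_pos _).le)
    (fun x => mul_nonneg (Real.exp_pos _).le (hg0 x))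
    (fun x => (fexp_bd hg0 hgC hgb l x).trans hC1)
    (fun x => by
      rw [hneg]
      exact (fexp_bd hg0 hgC hgb l _).trans hC1)
    (fun x => (mul_le_mul_of_nonneg_left (hgC x) (Real.exp_pos _).le).trans hC2)
    (fun x hx => hgb x (left_ne_zero_of_mul hx))
    (fun x hx => hgb x (left_ne_zero_of_mul hx))
    (fun x hx => hgb x (right_ne_zero_of_mul hx))
    (fun (x y : κ → ℝ) => by
      have h1 : ∑ i, l i * x i + -∑ i, l i * y i - A * ∑ i ∈ U, (x i - y i) ^ 2
          ≤ (∑ i, l i ^ 2) / (8 * A) + (∑ i, l i ^ 2) / (8 * A) := by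
        have e1 : ∑ i, l i * x i + -∑ i, l i * y i = ∑ i ∈ U, l i * (x i - y i) := by
          rw [← sub_eq_add_neg, ← Finset.sum_sub_distrib]
          rw [← Finset.sum_subset (Finset.subset_univ U)]
          · exact Finset.sum_congr rfl fun i _ => by ring
          · intro i _ hi
            rw [hl i hi]
            ring
        have e2 : ∑ i, l i ^ 2 = ∑ i ∈ U, l i ^ 2 := by
          rw [← Finset.sum_subset (Finset.subset_univ U)]
          intro i _ hi
          rw [hl i hi]
          ring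
        have e3 : (∑ i ∈ U, l i ^ 2) / (8 * A) + (∑ i ∈ U, l i ^ 2) / (8 * A)
            = ∑ i ∈ U, l i ^ 2 / (4 * A) := by
          rw [← Finset.sum_div]
          field_simp
          ring
        rw [e1, e2, e3, Finset.mul_sum, ← Finset.sum_sub_distrib]
        refine Finset.sum_le_sum fun i _ => ?_
        rw [le_div_iff₀ (by positivity)]
        nlinarith [sq_nonneg (l i - 2 * A * (x i - y i))]
      have h2 : g x * Real.exp (∑ i, l i * x i) * (g y * Real.exp (-∑ i, l i * y i))
          = g x * g y * Real.exp (∑ i, l i * x i + -∑ i, l i * y i) := by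
        rw [Real.exp_add]
        ring
      rw [h2]
      refine (mul_le_mul_of_nonneg_right (hlc x y) (Real.exp_pos _).le).trans ?_
      have h3 : (Real.exp ((∑ i, l i ^ 2) / (8 * A)) * g (fun i => (x i + y i) / 2)) ^ 2
          = g (fun i => (x i + y i) / 2) ^ 2 *
            Real.exp ((∑ i, l i ^ 2) / (8 * A) + (∑ i, l i ^ 2) / (8 * A)) := by
        rw [Real.exp_add]
        ring
      rw [h3, mul_assoc, ← Real.exp_add]
      refine mul_le_mul_of_nonneg_left (Real.exp_le_exp.mpr ?_) (sq_nonneg _)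
      linarith)
  have heq : ∫ x, g x * Real.exp (-∑ i, l i * x i) = ∫ x, g x * Real.exp (∑ i, l i * x i) := by
    have h1 : ∫ x : κ → ℝ, g (-x) * Real.exp (∑ i, l i * (-x) i)
        = ∫ x, g x * Real.exp (∑ i, l i * x i) :=
      integral_neg_eq_self (fun x : κ → ℝ => g x * Real.exp (∑ i, l i * x i)) volume
    rw [← h1]
    refine integral_congr_ae (Filter.Eventually.of_forall fun x => ?_)
    exact hneg x
  rw [heq, integral_const_mul, ← pow_two] at key
  have hI : 0 ≤ ∫ x, g x := integral_nonneg hg0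
  exact le_of_abs_le (abs_le_of_sq_le_sq key (mul_nonneg (Real.exp_pos _).le hI))

private theorem cosh_ge (u : ℝ) : 2 + u ^ 2 ≤ Real.exp u + Real.exp (-u) := by
  have h1 : Real.exp u + Real.exp (-u) = 2 * Real.cosh u := by
    rw [Real.cosh_eq]
    ring
  have h2 : Real.cosh u = 1 + 2 * Real.sinh (u / 2) ^ 2 := by
    have h3 : u = 2 * (u / 2) := by ring
    rw [h3, Real.cosh_two_mul, Real.cosh_sq, ← h3]
    ring
  have h4 : (u / 2) ^ 2 ≤ Real.sinh (u / 2) ^ 2 := by
    rcases le_total 0 (u / 2) with h | h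
    · exact pow_le_pow_left₀ h (Real.self_le_sinh_iff.mpr h) 2
    · have h5 : 0 ≤ -(u / 2) := by linarith
      have h6 := pow_le_pow_left₀ h5 (Real.self_le_sinh_iff.mpr h5) 2
      rw [Real.sinh_neg] at h6
      nlinarith [h6]
  rw [h1, h2]
  nlinarith [h4]

/-- Strong log-concavity in the directions of `U` bounds the second moments of the linear forms
supported on `U`. -/
theorem subgauss {κ : Type*} [Fintype κ] (U : Finset κ) {g : (κ → ℝ) → ℝ} (hg : Measurable g)
    (hg0 : ∀ x, 0 ≤ g x) {C b : ℝ} (hgC : ∀ x, g x ≤ C) (hgb : ∀ x, g x ≠ 0 → ∀ i, |x i| ≤ b)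
    (heven : ∀ x, g (fun i => - x i) = g x) {A : ℝ} (hA : 0 < A)
    (hlc : ∀ x y, g x * g y ≤
      g (fun i => (x i + y i) / 2) ^ 2 * Real.exp (-(A * ∑ i ∈ U, (x i - y i) ^ 2)))
    (l : κ → ℝ) (hl : ∀ i, i ∉ U → l i = 0) :
    ∫ x, g x * (∑ i, l i * x i) ^ 2 ≤ (∑ i, l i ^ 2) / (2 * A) * ∫ x, g x := by
  have hC : 0 ≤ C := (hg0 0).trans (hgC 0)
  have hI : 0 ≤ ∫ x, g x := integral_nonneg hg0
  have hK0 : 0 ≤ ∑ i, l i ^ 2 := Finset.sum_nonneg fun i _ => sq_nonneg _
  rcases hK0.eq_or_lt with hK | hK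
  · have hl0 : ∀ i, l i = 0 := by
      intro i
      have := (Finset.sum_eq_zero_iff_of_nonneg (fun i _ => sq_nonneg (l i))).mp hK.symm i
        (Finset.mem_univ i)
      exact pow_eq_zero_iff (two_ne_zero) |>.mp this
    have h0 : ∀ x : κ → ℝ, g x * (∑ i, l i * x i) ^ 2 = 0 := by
      intro x
      simp [hl0]
    simp only [h0]
    rw [integral_zero, ← hK]
    simp
  · set K : ℝ := ∑ i, l i ^ 2 with hKdef
    set s : ℝ := Real.sqrt (8 * A / K) with hs
    have hs2 : s ^ 2 = 8 * A / K := by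
      rw [hs]
      exact Real.sq_sqrt (by positivity)
    have hsl : ∀ x : κ → ℝ, ∑ i, (s * l i) * x i = s * ∑ i, l i * x i := by
      intro x
      rw [Finset.mul_sum]
      exact Finset.sum_congr rfl fun i _ => by ring
    have hm1 : Measurable fun x : κ → ℝ => ∑ i, (s * l i) * x i := lin_meas _
    have hK1 : (∑ i, (s * l i) ^ 2) / (8 * A) = 1 := by
      have : ∑ i, (s * l i) ^ 2 = s ^ 2 * K := by
        rw [hKdef, Finset.mul_sum]
        exact Finset.sum_congr rfl fun i _ => by ring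
      rw [this, hs2]
      field_simp
    have hK2 : (∑ i, (-(s * l i)) ^ 2) / (8 * A) = 1 := by
      rw [← hK1]
      congr 1
      exact Finset.sum_congr rfl fun i _ => by ring
    have m1 := mgf_le U hg hg0 hgC hgb heven hA hlc (fun i => s * l i)
      (fun i hi => by simp [hl i hi])
    have m2 := mgf_le U hg hg0 hgC hgb heven hA hlc (fun i => -(s * l i))
      (fun i hi => by simp [hl i hi])
    rw [hK1] at m1
    rw [hK2] at m2
    have ig : Integrable g := intble_box hg (M := C)
      (fun x => by rw [abs_of_nonneg (hg0 x)]; exact hgC x) hgb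
    have i1 : Integrable fun x => g x * Real.exp (∑ i, (s * l i) * x i) :=
      intble_box (hg.mul (Real.measurable_exp.comp hm1))
        (M := C * Real.exp (∑ i, |s * l i| * b))
        (fun x => by
          rw [abs_of_nonneg (mul_nonneg (hg0 x) (Real.exp_pos _).le)]
          exact fexp_bd hg0 hgC hgb _ x)
        (fun x hx => hgb x (left_ne_zero_of_mul hx))
    have i2 : Integrable fun x => g x * Real.exp (∑ i, (-(s * l i)) * x i) :=
      intble_box (hg.mul (Real.measurable_exp.comp (lin_meas _)))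
        (M := C * Real.exp (∑ i, |-(s * l i)| * b))
        (fun x => by
          rw [abs_of_nonneg (mul_nonneg (hg0 x) (Real.exp_pos _).le)]
          exact fexp_bd hg0 hgC hgb _ x)
        (fun x hx => hgb x (left_ne_zero_of_mul hx))
    have i3 : Integrable fun x => g x * (∑ i, l i * x i) ^ 2 :=
      intble_box (hg.mul ((lin_meas l).pow_const 2))
        (M := C * (∑ i, |l i| * b) ^ 2)
        (fun x => by
          rw [abs_of_nonneg (mul_nonneg (hg0 x) (sq_nonneg _))]
          by_cases h : g x = 0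
          · rw [h, zero_mul]
            positivity
          · refine mul_le_mul (hgC x) ?_ (sq_nonneg _) hC
            have h1 := lin_bd l x (hgb x h)
            rw [← sq_abs]
            exact pow_le_pow_left₀ (abs_nonneg _) h1 2)
        (fun x hx => hgb x (left_ne_zero_of_mul hx))
    have hle : 2 * (∫ x, g x) + s ^ 2 * (∫ x, g x * (∑ i, l i * x i) ^ 2) ≤
        (∫ x, g x * Real.exp (∑ i, (s * l i) * x i)) +
          ∫ x, g x * Real.exp (∑ i, (-(s * l i)) * x i) := by
      rw [← integral_const_mul, ← integral_const_mul, ← integral_add (ig.const_mul 2)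
        (i3.const_mul _), ← integral_add i1 i2]
      refine integral_mono ((ig.const_mul 2).add (i3.const_mul _)) (i1.add i2) fun x => ?_
      have h1 : ∑ i, (-(s * l i)) * x i = -(s * ∑ i, l i * x i) := by
        rw [← hsl, ← Finset.sum_neg_distrib]
        exact Finset.sum_congr rfl fun i _ => by ring
      have h2 := cosh_ge (s * ∑ i, l i * x i)
      have h3 := mul_le_mul_of_nonneg_left h2 (hg0 x)
      simp only [hsl, h1]
      nlinarith [h3]
    have he : Real.exp 1 < 3 := by
      have := Real.exp_one_lt_d9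
      linarith
    have h4 : s ^ 2 * ∫ x, g x * (∑ i, l i * x i) ^ 2 ≤ 4 * ∫ x, g x := by
      have : Real.exp 1 * ∫ x, g x ≤ 3 * ∫ x, g x := mul_le_mul_of_nonneg_right he.le hI
      linarith
    rw [hs2] at h4
    have h5 : K / (2 * A) * ∫ x, g x = K / (8 * A) * (4 * ∫ x, g x) := by
      field_simp
      ring
    rw [h5]
    have h6 := mul_le_mul_of_nonneg_left h4 (show 0 ≤ K / (8 * A) by positivity)
    have h7 : K / (8 * A) * (8 * A / K * ∫ x, g x * (∑ i, l i * x i) ^ 2)
        = ∫ x, g x * (∑ i, l i * x i) ^ 2 := by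
      field_simp
    rw [h7] at h6
    exact h6

end Pool.Agent.MP4a7415S
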