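import Pool.Agent.Lib.MP_4a7415_coS.Gain
import Pool.Agent.Lib.MP_4a7415_coS.LC
import Pool.Agent.Lib.MP_4a7415_coS.Scale
import Pool.Agent.Lib.MP_4a7415_coS.SubG

/-! # Comparison of a minor region with the main peak -/

namespace Pool.Agent.MP4a7415S

open Finset MeasureTheory Pool.Agent.MP4a7415

variable {ι κ : Type*} [Fintype ι] [Fintype κ] {M : κ → ι → ℤ} {Ls : AddSubgroup (κ → ℝ)}
  {a : ι → ℕ} {k Q K : ℕ} {c D : ℝ}

theorem comp_tau_pos (hk : 1 ≤ k) (hQ : 1 ≤ Q) : 0 < tau k Q := by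
  unfold tau
  have h1 : (1 : ℝ) ≤ k := by exact_mod_cast hk
  have h2 : (1 : ℝ) ≤ Q := by exact_mod_cast hQ
  positivity

omit [Fintype ι] in
theorem comp_continuous_Lm (M : κ → ι → ℤ) (e : ι) : Continuous fun t : κ → ℝ => Lm M t e := by
  unfold Lm
  exact continuous_finset_sum _ fun R _ => continuous_const.mul (continuous_apply R)

theorem comp_continuous_Phi (M : κ → ι → ℤ) (a : ι → ℕ) : Continuous (Phi M a) := by
  unfold Phi
  exact continuous_finset_prod _ fun e _ =>
    (continuous_const.mul (Real.continuous_cos.comp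
      (continuous_const.mul (comp_continuous_Lm M e)))).pow _

theorem comp_compact (B : Finset κ) (w τ : ℝ) : IsCompact (bx B w τ) := by
  refine (isCompact_univ_pi (fun _ : κ => isCompact_Icc (a := -(|w| + |τ|))
    (b := |w| + |τ|))).of_isClosed_subset (closed_bx B w τ) ?_
  intro t ht R _
  rw [Set.mem_Icc, ← abs_le]
  by_cases hR : R ∈ B
  · exact (ht.1 R hR).trans ((le_abs_self w).trans (le_add_of_nonneg_right (abs_nonneg τ)))
  · exact (ht.2 R hR).trans ((le_abs_self τ).trans (le_add_of_nonneg_left (abs_nonneg w)))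

theorem comp_meas_AS (Ls : AddSubgroup (κ → ℝ)) (τ : ℝ) (S : Finset κ) :
    MeasurableSet (AS Ls τ S) := by
  have h1 : AS Ls τ S = {t | Mn Ls t} ∩ ⋂ R, {t : κ → ℝ | R ∈ S ↔ τ < |t R|} := by
    ext t
    simp [AS]
  rw [h1]
  refine closed_Mn.measurableSet.inter (MeasurableSet.iInter fun R => ?_)
  by_cases hR : R ∈ S
  · have h2 : {t : κ → ℝ | R ∈ S ↔ τ < |t R|} = {t | τ < |t R|} := by
      ext t
      simp [hR]
    rw [h2]
    exact (isOpen_lt continuous_const (continuous_apply R).abs).measurableSet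
  · have h2 : {t : κ → ℝ | R ∈ S ↔ τ < |t R|} = {t | |t R| ≤ τ} := by
      ext t
      simp [hR]
    rw [h2]
    exact (isClosed_le (continuous_apply R).abs continuous_const).measurableSet

theorem comp_upper (h : Spl M Ls a k Q K c D) {S B : Finset κ} (hSB : S ⊆ B) :
    ∫ t in AS Ls (tau k Q) S, |Phi M a t| ≤
      2 ^ (∑ e, a e) * Real.exp (-(c * D * tau k Q ^ 2 * S.card)) *
        ∫ t in bx B (1 / 2) (tau k Q), gB M a B t := by
  have hsub : AS Ls (tau k Q) S ⊆ bx B (1 / 2) (tau k Q) := by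
    rintro t ⟨ht, hS⟩
    refine ⟨fun R _ => Mn_half h.int ht R, fun R hR => ?_⟩
    exact not_lt.1 fun h1 => hR (hSB ((hS R).2 h1))
  have hc := comp_compact B (1 / 2) (tau k Q)
  have hiP : IntegrableOn (fun t => |Phi M a t|) (AS Ls (tau k Q) S) :=
    ((comp_continuous_Phi M a).abs.continuousOn.integrableOn_compact hc).mono_set hsub
  have hig : IntegrableOn (gB M a B) (bx B (1 / 2) (tau k Q)) :=
    (continuous_gB M a B).continuousOn.integrableOn_compact hc
  rw [← integral_const_mul]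
  have h1 : ∫ t in AS Ls (tau k Q) S, |Phi M a t| ≤ ∫ t in AS Ls (tau k Q) S,
      2 ^ (∑ e, a e) * Real.exp (-(c * D * tau k Q ^ 2 * S.card)) * gB M a B t :=
    setIntegral_mono_on hiP ((hig.mono_set hsub).const_mul _) (comp_meas_AS _ _ _)
      fun t ht => gain h hSB ht
  refine h1.trans (setIntegral_mono_set (hig.const_mul _) ?_ hsub.eventuallyLE)
  refine (ae_restrict_iff' (closed_bx B _ _).measurableSet).2 (ae_of_all _ fun t ht => ?_)
  have := gB_nonneg h ht
  simp only [Pi.zero_apply]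
  positivity

/-! ### The main peak -/

omit [Fintype ι] in
theorem comp_abs_Lm (hm01 : ∀ R e, M R e = 0 ∨ M R e = 1)
    (hcol : ∀ e, (univ.filter fun R => M R e ≠ 0).card ≤ k) {τ : ℝ} (hτ : 0 ≤ τ)
    {t : κ → ℝ} (ht : t ∈ A0 τ) (e : ι) : |Lm M t e| ≤ k * τ := by
  classical
  unfold Lm
  refine (abs_sum_le_sum_abs _ _).trans ?_
  have h1 : ∑ R, |(M R e : ℝ) * t R| ≤ ∑ R, if M R e ≠ 0 then τ else 0 := by
    refine sum_le_sum fun R _ => ?_
    rcases hm01 R e with h | h
    · rw [h]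
      simp
    · rw [h]
      simpa using ht R
  refine h1.trans ?_
  rw [← sum_filter, sum_const, nsmul_eq_mul]
  exact mul_le_mul_of_nonneg_right (by exact_mod_cast hcol e) hτ

theorem comp_one_le_Phi (h : Spl M Ls a k Q K c D) {t : κ → ℝ} (ht : t ∈ A0 (tau k Q)) :
    1 ≤ Phi M a t := by
  have hτ := comp_tau_pos h.k1 h.Q1
  have hk : (1 : ℝ) ≤ k := by exact_mod_cast h.k1
  have hQ : (1 : ℝ) ≤ Q := by exact_mod_cast h.Q1
  have h2 : (k : ℝ) * tau k Q ≤ 1 / 4 := by
    unfold tau
    rw [mul_one_div, div_le_div_iff₀ (by positivity) (by norm_num)]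
    nlinarith
  unfold Phi
  refine Finset.prod_induction _ (fun x : ℝ => 1 ≤ x) (fun x y hx hy => one_le_mul_of_one_le_of_one_le hx hy)
    le_rfl ?_
  intro e _
  have h1 := comp_abs_Lm h.m01 h.col hτ.le ht e
  refine one_le_pow₀ ?_
  have h3 : |Real.pi * Lm M t e| ≤ Real.pi / 3 := by
    rw [abs_mul, abs_of_pos Real.pi_pos]
    have := Real.pi_pos
    nlinarith
  have h4 : Real.cos (Real.pi / 3) ≤ Real.cos (Real.pi * Lm M t e) := by
    rw [← Real.cos_abs (Real.pi * Lm M t e)]
    have := Real.pi_pos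
    exact Real.cos_le_cos_of_nonneg_of_le_pi (abs_nonneg _) (by linarith) h3
  rw [Real.cos_pi_div_three] at h4
  linarith

theorem comp_A0_eq (τ : ℝ) : (A0 τ : Set (κ → ℝ)) = bx ∅ 0 τ := by
  ext t
  simp [A0, bx]

/-- The main peak is positive. -/
theorem peak_pos (h : Spl M Ls a k Q K c D) :
    (∀ t ∈ A0 (κ := κ) (tau k Q), 0 ≤ Phi M a t) ∧ 0 < ∫ t in A0 (tau k Q), Phi M a t := by
  have hτ := comp_tau_pos h.k1 h.Q1
  refine ⟨fun t ht => zero_le_one.trans (comp_one_le_Phi h ht), ?_⟩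
  have hc : IsCompact (A0 (κ := κ) (tau k Q)) := by
    rw [comp_A0_eq]
    exact comp_compact _ _ _
  have hm : MeasurableSet (A0 (κ := κ) (tau k Q)) := hc.isClosed.measurableSet
  have h1 : ∫ t in A0 (κ := κ) (tau k Q), (1 : ℝ) ≤ ∫ t in A0 (tau k Q), Phi M a t :=
    setIntegral_mono_on (continuousOn_const.integrableOn_compact hc)
      ((comp_continuous_Phi M a).continuousOn.integrableOn_compact hc) hm
      fun t ht => comp_one_le_Phi h ht
  refine lt_of_lt_of_le ?_ h1
  rw [setIntegral_const, smul_eq_mul, mul_one]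
  refine ENNReal.toReal_pos ?_ hc.measure_ne_top
  have h2 : 0 < volume (Metric.ball (0 : κ → ℝ) (tau k Q)) := Metric.measure_ball_pos _ _ hτ
  refine (lt_of_lt_of_le h2 (measure_mono ?_)).ne'
  intro t ht R
  rw [mem_ball_zero_iff] at ht
  have := norm_le_pi_norm t R
  rw [Real.norm_eq_abs] at this
  linarith

/-! ### Second moments -/

theorem comp_form (M : κ → ι → ℤ) (B : Finset κ) (e : ι) : ∃ l : κ → ℝ, (∀ R, R ∉ cpl B → l R = 0) ∧
    (∀ t, Lm M (offB B t) e = ∑ R, l R * t R) ∧ ∀ R, l R ^ 2 ≤ (M R e : ℝ) ^ 2 := by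
  classical
  refine ⟨fun R => if R ∈ B then 0 else (M R e : ℝ), ?_, ?_, ?_⟩
  · intro R hR
    rw [mem_cpl, not_not] at hR
    exact if_pos hR
  · intro t
    unfold Lm offB
    refine sum_congr rfl fun R _ => ?_
    by_cases hR : R ∈ B <;> simp [hR]
  · intro R
    by_cases hR : R ∈ B
    · simp only [if_pos hR]
      rw [zero_pow two_ne_zero]
      positivity
    · simp only [if_neg hR]
      exact le_rfl

theorem comp_tch_card (h : Spl M Ls a k Q K c D) (B : Finset κ) :
    ((tch M B).card : ℝ) ≤ 2 * D * B.card := by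
  classical
  have h1 : tch M B ⊆ B.biUnion fun R => univ.filter fun e => M R e ≠ 0 := by
    intro e he
    unfold tch at he
    rw [mem_filter] at he
    obtain ⟨-, R, hR, hRe⟩ := he
    exact mem_biUnion.2 ⟨R, hR, mem_filter.2 ⟨mem_univ _, hRe⟩⟩
  have h2 : (tch M B).card ≤ ∑ R ∈ B, (univ.filter fun e => M R e ≠ 0).card :=
    (card_le_card h1).trans card_biUnion_le
  have h3 : ((tch M B).card : ℝ) ≤ ∑ R ∈ B, ((univ.filter fun e => M R e ≠ 0).card : ℝ) := by
    exact_mod_cast h2
  refine h3.trans ((sum_le_sum fun R _ => h.row R).trans (le_of_eq ?_))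
  rw [sum_const, nsmul_eq_mul]
  ring

theorem comp_second (h : Spl M Ls a k Q K c D) (hD : 0 < D) {B : Finset κ}
    (hB : Cl M (c / (10 * k) * D) B) (w : ℝ) (e : ι) :
    ∫ t in bx B w (tau k Q), gB M a B t * Lm M (offB B t) e ^ 2 ≤
      k / (2 * (c * D)) * ∫ t in bx B w (tau k Q), gB M a B t := by
  classical
  obtain ⟨l, hl0, hl1, hl2⟩ := comp_form M B e
  have hm : MeasurableSet (bx B w (tau k Q)) := (closed_bx B _ _).measurableSet
  have hcomp := comp_compact B w (tau k Q)
  have hc0 := h.c0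
  obtain ⟨C, hC⟩ := hcomp.exists_bound_of_continuousOn (continuous_gB M a B).continuousOn
  have hC' : ∀ x, (bx B w (tau k Q)).indicator (gB M a B) x ≤ |C| := by
    intro x
    by_cases hx : x ∈ bx B w (tau k Q)
    · rw [Set.indicator_of_mem hx]
      exact (le_abs_self _).trans ((hC x hx).trans (le_abs_self C))
    · rw [Set.indicator_of_notMem hx]
      exact abs_nonneg C
  have key := subgauss (cpl B) (g := (bx B w (tau k Q)).indicator (gB M a B))
    ((continuous_gB M a B).measurable.indicator hm)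
    (fun x => Set.indicator_nonneg (fun t ht => gB_nonneg h ht) x)
    (C := |C|) (b := |w| + |tau k Q|) hC'
    (by
      intro x hx i
      have hx' : x ∈ bx B w (tau k Q) := Set.mem_of_indicator_ne_zero hx
      by_cases hi : i ∈ B
      · exact (hx'.1 i hi).trans ((le_abs_self w).trans (le_add_of_nonneg_right (abs_nonneg _)))
      · exact (hx'.2 i hi).trans ((le_abs_self _).trans (le_add_of_nonneg_left (abs_nonneg w))))
    (by
      intro x
      have h1 : (fun i => - x i) ∈ bx B w (tau k Q) ↔ x ∈ bx B w (tau k Q) := by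
        unfold bx
        simp only [Set.mem_setOf_eq, abs_neg]
      by_cases hx : x ∈ bx B w (tau k Q)
      · rw [Set.indicator_of_mem hx, Set.indicator_of_mem (h1.2 hx), gB_neg]
      · rw [Set.indicator_of_notMem hx, Set.indicator_of_notMem fun h2 => hx (h1.1 h2)])
    (A := c * D) (mul_pos hc0 hD)
    (gB_lc h hD hB w) l hl0
  have e1 : ∫ x, (bx B w (tau k Q)).indicator (gB M a B) x = ∫ t in bx B w (tau k Q), gB M a B t :=
    integral_indicator hm
  have e2 : ∫ x, (bx B w (tau k Q)).indicator (gB M a B) x * (∑ i, l i * x i) ^ 2 =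
      ∫ t in bx B w (tau k Q), gB M a B t * Lm M (offB B t) e ^ 2 := by
    rw [← integral_indicator hm]
    refine integral_congr_ae (ae_of_all _ fun x => ?_)
    simp only []
    by_cases hx : x ∈ bx B w (tau k Q)
    · rw [Set.indicator_of_mem hx, Set.indicator_of_mem hx, hl1]
    · rw [Set.indicator_of_notMem hx, Set.indicator_of_notMem hx, zero_mul]
  rw [e1, e2] at key
  refine key.trans (mul_le_mul_of_nonneg_right ?_ ?_)
  · refine div_le_div_of_nonneg_right ?_ (by positivity)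
    refine (sum_le_sum fun R _ => hl2 R).trans ?_
    have h2 : ∑ R, (M R e : ℝ) ^ 2 = ∑ R, if M R e ≠ 0 then (1 : ℝ) else 0 := by
      refine sum_congr rfl fun R _ => ?_
      rcases h.m01 R e with h3 | h3 <;> rw [h3] <;> simp
    rw [h2, ← sum_filter, sum_const, nsmul_eq_mul, mul_one]
    exact_mod_cast h.col e
  · exact setIntegral_nonneg hm fun t ht => gB_nonneg h ht

theorem comp_F (h : Spl M Ls a k Q K c D) (hD : 0 < D) {B : Finset κ}
    (hB : Cl M (c / (10 * k) * D) B) (w : ℝ) :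
    ∫ t in bx B w (tau k Q), gB M a B t * ∑ e ∈ tch M B, (a e : ℝ) * Lm M (offB B t) e ^ 2 ≤
      2 * k * B.card / c * ∫ t in bx B w (tau k Q), gB M a B t := by
  have hm : MeasurableSet (bx B w (tau k Q)) := (closed_bx B _ _).measurableSet
  have hcomp := comp_compact B w (tau k Q)
  have hJ : 0 ≤ ∫ t in bx B w (tau k Q), gB M a B t :=
    setIntegral_nonneg hm fun t ht => gB_nonneg h ht
  have hc0 := h.c0
  have e1 : ∫ t in bx B w (tau k Q), gB M a B t *
      ∑ e ∈ tch M B, (a e : ℝ) * Lm M (offB B t) e ^ 2 =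
      ∑ e ∈ tch M B, (a e : ℝ) * ∫ t in bx B w (tau k Q), gB M a B t * Lm M (offB B t) e ^ 2 := by
    have h1 : ∀ t, gB M a B t * ∑ e ∈ tch M B, (a e : ℝ) * Lm M (offB B t) e ^ 2 =
        ∑ e ∈ tch M B, (a e : ℝ) * (gB M a B t * Lm M (offB B t) e ^ 2) := by
      intro t
      rw [mul_sum]
      exact sum_congr rfl fun e _ => by ring
    simp only [h1]
    rw [integral_finset_sum]
    · exact sum_congr rfl fun e _ => integral_const_mul _ _
    · intro e _
      have h2 : Continuous fun t : κ → ℝ => gB M a B t * Lm M (offB B t) e ^ 2 := by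
        obtain ⟨l, -, hl1, -⟩ := comp_form M B e
        simp only [hl1]
        exact (continuous_gB M a B).mul ((continuous_finset_sum _ fun R _ =>
          continuous_const.mul (continuous_apply R)).pow 2)
      exact (h2.continuousOn.integrableOn_compact hcomp).const_mul _
  rw [e1]
  obtain ⟨J, hJd⟩ : ∃ J, J = ∫ t in bx B w (tau k Q), gB M a B t := ⟨_, rfl⟩
  rw [← hJd] at hJ ⊢
  have h2 : ∀ e ∈ tch M B, (a e : ℝ) * ∫ t in bx B w (tau k Q), gB M a B t * Lm M (offB B t) e ^ 2 ≤
      2 * (k / (2 * (c * D)) * J) := by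
    intro e _
    have h3 := comp_second h hD hB w e
    rw [← hJd] at h3
    have h4 : (a e : ℝ) ≤ 2 := by exact_mod_cast h.a2 e
    have h5 : 0 ≤ k / (2 * (c * D)) * J := by positivity
    exact (mul_le_mul_of_nonneg_left h3 (Nat.cast_nonneg _)).trans
      (mul_le_mul_of_nonneg_right h4 h5)
  refine (sum_le_sum h2).trans ?_
  rw [sum_const, nsmul_eq_mul]
  have h6 := comp_tch_card h B
  have h7 : 0 ≤ 2 * (k / (2 * (c * D)) * J) := by positivity
  refine (mul_le_mul_of_nonneg_right h6 h7).trans (le_of_eq ?_)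
  field_simp

theorem comp_lower (h : Spl M Ls a k Q K c D) (hD : 4 * k * Q ≤ D) {B : Finset κ}
    (hB : Cl M (c / (10 * k) * D) B) :
    2 ^ (∑ e, a e) * (Real.exp (-(80 * k ^ 2 * B.card)) * (Real.exp (-(50 * k / c * B.card)) *
      ((2 * (1 / D)) ^ B.card * ∫ t in bx B (1 / 2) (tau k Q), gB M a B t))) ≤
      ∫ t in A0 (tau k Q), Phi M a t := by
  have hτ := comp_tau_pos h.k1 h.Q1
  have hc0 := h.c0
  have hk : (1 : ℝ) ≤ k := by exact_mod_cast h.k1
  have hQ : (1 : ℝ) ≤ Q := by exact_mod_cast h.Q1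
  have hD0 : 0 < D := by
    have : (0 : ℝ) < 4 * k * Q := by positivity
    linarith
  have hDτ : 1 / D ≤ tau k Q := by
    unfold tau
    exact one_div_le_one_div_of_le (by positivity) hD
  have hm : MeasurableSet (bx B (1 / D) (tau k Q)) := (closed_bx B _ _).measurableSet
  have hcomp := comp_compact B (1 / D) (tau k Q)
  have hcA : IsCompact (A0 (κ := κ) (tau k Q)) := by
    rw [comp_A0_eq]
    exact comp_compact _ _ _
  have hsub : bx B (1 / D) (tau k Q) ⊆ A0 (tau k Q) := by
    intro t ht R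
    by_cases hR : R ∈ B
    · exact (ht.1 R hR).trans hDτ
    · exact ht.2 R hR
  have h1 : ∫ t in bx B (1 / D) (tau k Q), Phi M a t ≤ ∫ t in A0 (tau k Q), Phi M a t := by
    refine setIntegral_mono_set ((comp_continuous_Phi M a).continuousOn.integrableOn_compact hcA)
      ?_ hsub.eventuallyLE
    exact (ae_restrict_iff' hcA.isClosed.measurableSet).2
      (ae_of_all _ fun t ht => (peak_pos h).1 t ht)
  refine le_trans ?_ h1
  have hF : Continuous fun t : κ → ℝ => ∑ e ∈ tch M B, (a e : ℝ) * Lm M (offB B t) e ^ 2 := by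
    refine continuous_finset_sum _ fun e _ => continuous_const.mul ?_
    obtain ⟨l, -, hl1, -⟩ := comp_form M B e
    simp only [hl1]
    exact (continuous_finset_sum _ fun R _ => continuous_const.mul (continuous_apply R)).pow 2
  have hg := continuous_gB M a B
  have h2 : ∫ t in bx B (1 / D) (tau k Q), 2 ^ (∑ e, a e) * (Real.exp (-(80 * k ^ 2 * B.card)) *
      (gB M a B t * Real.exp (-(25 * ∑ e ∈ tch M B, (a e : ℝ) * Lm M (offB B t) e ^ 2)))) ≤
      ∫ t in bx B (1 / D) (tau k Q), Phi M a t := by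
    refine setIntegral_mono_on ?_ ((comp_continuous_Phi M a).continuousOn.integrableOn_compact hcomp)
      hm fun t ht => lower h hD ht
    exact ContinuousOn.integrableOn_compact hcomp (continuous_const.mul (continuous_const.mul (hg.mul
      (Real.continuous_exp.comp (continuous_const.mul hF).neg)))).continuousOn
  refine le_trans ?_ h2
  rw [integral_const_mul, integral_const_mul]
  refine mul_le_mul_of_nonneg_left (mul_le_mul_of_nonneg_left ?_ (Real.exp_pos _).le) (by positivity)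
  have hsc := scale M a B (w := 1 / D) (by positivity) (tau k Q)
  rw [← hsc]
  obtain ⟨m, hm0⟩ : ∃ m : ℝ, m = 50 * k / c * B.card := ⟨_, rfl⟩
  rw [← hm0, ← integral_const_mul]
  have hpt : ∀ t ∈ bx B (1 / D) (tau k Q), Real.exp (-m) * gB M a B t +
      (Real.exp (-m) * m * gB M a B t - Real.exp (-m) * 25 *
        (gB M a B t * ∑ e ∈ tch M B, (a e : ℝ) * Lm M (offB B t) e ^ 2)) ≤
      gB M a B t * Real.exp (-(25 * ∑ e ∈ tch M B, (a e : ℝ) * Lm M (offB B t) e ^ 2)) := by
    intro t ht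
    have hg0 := gB_nonneg h ht
    obtain ⟨F, hFd⟩ : ∃ F, F = ∑ e ∈ tch M B, (a e : ℝ) * Lm M (offB B t) e ^ 2 := ⟨_, rfl⟩
    rw [← hFd]
    have h3 : Real.exp (-m) * (1 + (m - 25 * F)) ≤ Real.exp (-(25 * F)) := by
      have h4 : Real.exp (-(25 * F)) = Real.exp (-m) * Real.exp (m - 25 * F) := by
        rw [← Real.exp_add]
        congr 1
        ring
      rw [h4]
      refine mul_le_mul_of_nonneg_left ?_ (Real.exp_pos _).le
      have := Real.add_one_le_exp (m - 25 * F)
      linarith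
    have h5 := mul_le_mul_of_nonneg_left h3 hg0
    linarith [h5]
  have hi1 : IntegrableOn (fun t => Real.exp (-m) * gB M a B t) (bx B (1 / D) (tau k Q)) :=
    ((continuous_const.mul hg).continuousOn).integrableOn_compact hcomp
  have hi2 : IntegrableOn (fun t => Real.exp (-m) * m * gB M a B t) (bx B (1 / D) (tau k Q)) :=
    ((continuous_const.mul hg).continuousOn).integrableOn_compact hcomp
  have hi3 : IntegrableOn (fun t => Real.exp (-m) * 25 *
      (gB M a B t * ∑ e ∈ tch M B, (a e : ℝ) * Lm M (offB B t) e ^ 2)) (bx B (1 / D) (tau k Q)) :=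
    ((continuous_const.mul (hg.mul hF)).continuousOn).integrableOn_compact hcomp
  have hi4 : IntegrableOn (fun t => gB M a B t *
      Real.exp (-(25 * ∑ e ∈ tch M B, (a e : ℝ) * Lm M (offB B t) e ^ 2)))
      (bx B (1 / D) (tau k Q)) :=
    ((hg.mul (Real.continuous_exp.comp (continuous_const.mul hF).neg)).continuousOn).integrableOn_compact
      hcomp
  have hi23 : IntegrableOn (fun t => Real.exp (-m) * m * gB M a B t - Real.exp (-m) * 25 *
      (gB M a B t * ∑ e ∈ tch M B, (a e : ℝ) * Lm M (offB B t) e ^ 2)) (bx B (1 / D) (tau k Q)) :=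
    hi2.sub hi3
  have h6 := setIntegral_mono_on (hi1.add hi23) hi4 hm hpt
  refine le_trans ?_ h6
  have h7 : ∫ t in bx B (1 / D) (tau k Q), (Real.exp (-m) * gB M a B t +
      (Real.exp (-m) * m * gB M a B t - Real.exp (-m) * 25 *
        (gB M a B t * ∑ e ∈ tch M B, (a e : ℝ) * Lm M (offB B t) e ^ 2))) =
      (∫ t in bx B (1 / D) (tau k Q), Real.exp (-m) * gB M a B t) +
      (Real.exp (-m) * m * (∫ t in bx B (1 / D) (tau k Q), gB M a B t) - Real.exp (-m) * 25 *
        ∫ t in bx B (1 / D) (tau k Q),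
          (gB M a B t * ∑ e ∈ tch M B, (a e : ℝ) * Lm M (offB B t) e ^ 2)) := by
    rw [integral_add hi1 hi23, integral_sub hi2 hi3, integral_const_mul (Real.exp (-m) * m),
      integral_const_mul (Real.exp (-m) * 25)]
  have h8 := comp_F h hD0 hB (1 / D)
  have h9 : 0 ≤ Real.exp (-m) * m * (∫ t in bx B (1 / D) (tau k Q), gB M a B t) -
      Real.exp (-m) * 25 * ∫ t in bx B (1 / D) (tau k Q),
          (gB M a B t * ∑ e ∈ tch M B, (a e : ℝ) * Lm M (offB B t) e ^ 2) := by
    have h10 := mul_le_mul_of_nonneg_left h8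
      (by positivity : (0 : ℝ) ≤ Real.exp (-m) * 25)
    have h11 : Real.exp (-m) * 25 * (2 * k * B.card / c * ∫ t in bx B (1 / D) (tau k Q), gB M a B t) =
        Real.exp (-m) * m * ∫ t in bx B (1 / D) (tau k Q), gB M a B t := by
      rw [hm0]
      ring
    rw [h11] at h10
    linarith
  refine le_trans ?_ (le_of_eq h7.symm)
  linarith

theorem comp (h : Spl M Ls a k Q K c D) (hD : 4 * k * Q ≤ D) {S B : Finset κ} (hSB : S ⊆ B)
    (hB : Cl M (c / (10 * k) * D) B) :
    ∫ t in AS Ls (tau k Q) S, |Phi M a t| ≤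
      Real.exp (-(c * D * tau k Q ^ 2 * S.card)) * (D ^ B.card *
        Real.exp ((80 * k ^ 2 + 50 * k / c) * B.card)) *
        ∫ t in A0 (tau k Q), Phi M a t := by
  have hc0 := h.c0
  have hk : (1 : ℝ) ≤ k := by exact_mod_cast h.k1
  have hQ : (1 : ℝ) ≤ Q := by exact_mod_cast h.Q1
  have hD0 : 0 < D := by
    have : (0 : ℝ) < 4 * k * Q := by positivity
    linarith
  have h1 := comp_upper h hSB
  have h2 := comp_lower h hD hB
  obtain ⟨J, hJ⟩ : ∃ J, J = ∫ t in bx B (1 / 2) (tau k Q), gB M a B t := ⟨_, rfl⟩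
  obtain ⟨I, hI⟩ : ∃ I, I = ∫ t in A0 (tau k Q), Phi M a t := ⟨_, rfl⟩
  have hJ0 : 0 ≤ J := by
    rw [hJ]
    exact setIntegral_nonneg (closed_bx B _ _).measurableSet fun t ht => gB_nonneg h ht
  rw [← hJ] at h1 h2
  rw [← hI] at h2 ⊢
  refine h1.trans ?_
  have h3 : (2 : ℝ) ^ (∑ e, a e) * J ≤ D ^ B.card *
      Real.exp ((80 * k ^ 2 + 50 * k / c) * B.card) * I := by
    have h4 := mul_le_mul_of_nonneg_left h2 (by positivity :
      (0 : ℝ) ≤ D ^ B.card * Real.exp ((80 * k ^ 2 + 50 * k / c) * B.card))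
    refine le_trans ?_ h4
    have h5 : Real.exp ((80 * k ^ 2 + 50 * k / c) * B.card) * (Real.exp (-(80 * k ^ 2 * B.card)) *
        Real.exp (-(50 * k / c * B.card))) = 1 := by
      rw [← Real.exp_add, ← Real.exp_add, Real.exp_eq_one_iff]
      ring
    have h6 : D ^ B.card * (2 * (1 / D)) ^ B.card = 2 ^ B.card := by
      rw [← mul_pow]
      congr 1
      field_simp
    have h7 : D ^ B.card * Real.exp ((80 * k ^ 2 + 50 * k / c) * B.card) *
        (2 ^ (∑ e, a e) * (Real.exp (-(80 * k ^ 2 * B.card)) *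
        (Real.exp (-(50 * k / c * B.card)) * ((2 * (1 / D)) ^ B.card * J)))) =
        2 ^ B.card * (2 ^ (∑ e, a e) * J) := by
      calc _ = (D ^ B.card * (2 * (1 / D)) ^ B.card) *
            (Real.exp ((80 * k ^ 2 + 50 * k / c) * B.card) * (Real.exp (-(80 * k ^ 2 * B.card)) *
              Real.exp (-(50 * k / c * B.card)))) * (2 ^ (∑ e, a e) * J) := by ring
        _ = _ := by rw [h5, h6, mul_one]
    rw [h7]
    have h8 : (1 : ℝ) ≤ 2 ^ B.card := one_le_pow₀ (by norm_num)
    have h9 : (0 : ℝ) ≤ 2 ^ (∑ e, a e) * J := by positivity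
    nlinarith
  have h10 := mul_le_mul_of_nonneg_left h3 (Real.exp_pos (-(c * D * tau k Q ^ 2 * S.card))).le
  calc _ = Real.exp (-(c * D * tau k Q ^ 2 * S.card)) * (2 ^ (∑ e, a e) * J) := by ring
    _ ≤ _ := h10
    _ = _ := by ring

end Pool.Agent.MP4a7415S
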