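import Pool.Agent.Lib.MP_4a7415_coS.Defs

/-! # The integral counts the splittings -/

namespace Pool.Agent.MP4a7415S

open Finset MeasureTheory Pool.Agent.MP4a7415

/-- Exchange of the two sums. -/
private theorem cnt_sum_Lm {ι κ : Type*} [Fintype ι] [Fintype κ] (M : κ → ι → ℤ) (y : κ → ℝ)
    (c : ι → ℝ) : ∑ e, c e * Lm M y e = ∑ R, (∑ e, (M R e : ℝ) * c e) * y R := by
  unfold Lm
  simp_rw [mul_sum, sum_mul]
  rw [sum_comm]
  exact sum_congr rfl fun _ _ => sum_congr rfl fun _ _ => by ring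

/-- One factor. -/
private theorem cnt_fac (x : ℝ) (a : ℕ) :
    (((2 * Real.cos (Real.pi * x)) ^ a : ℝ) : ℂ) = ∑ s ∈ range (a + 1), (a.choose s : ℂ) *
      Complex.exp (2 * Real.pi * Complex.I * (((s : ℝ) - a / 2) * x : ℝ)) := by
  have h1 : ((2 * Real.cos (Real.pi * x) : ℝ) : ℂ) =
      Complex.exp (Real.pi * x * Complex.I) + Complex.exp (-(Real.pi * x * Complex.I)) := by
    push_cast
    rw [Complex.two_cos]
    congr 2
    ring
  rw [Complex.ofReal_pow, h1, add_pow]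
  refine sum_congr rfl fun s hs => ?_
  rw [← Complex.exp_nat_mul, ← Complex.exp_nat_mul, ← Complex.exp_add, mul_comm]
  congr 2
  have hsa : s ≤ a := by
    have := mem_range.1 hs
    omega
  rw [Nat.cast_sub hsa]
  push_cast
  ring

theorem count_zero {ι κ : Type*} [Fintype ι] [Fintype κ] (M : κ → ι → ℤ) (a : ι → ℕ)
    (u : κ → ℤ) (hu : ∀ R, ∑ e, M R e * a e = 2 * u R)
    (hno : ∀ s : ι → ℕ, (∀ e, s e ≤ a e) → ¬ ∀ R, ∑ e, M R e * s e = u R) :
    ∫ t, Phi M a t ∂cubeM κ = 0 := by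
  classical
  set w : (ι → ℕ) → κ → ℤ := fun s R => ∑ e, M R e * s e - u R with hw
  have key : ∀ t : κ → ℝ, ((Phi M a t : ℝ) : ℂ) =
      ∑ s ∈ Fintype.piFinset (fun e => range (a e + 1)), (∏ e, ((a e).choose (s e) : ℂ)) *
        Complex.exp (2 * Real.pi * Complex.I * ((∑ R, (w s R : ℝ) * t R : ℝ) : ℂ)) := by
    intro t
    unfold Phi
    rw [Complex.ofReal_prod, prod_congr rfl fun e _ => cnt_fac (Lm M t e) (a e), prod_univ_sum]
    refine sum_congr rfl fun s _ => ?_
    rw [prod_mul_distrib, ← Complex.exp_sum, ← mul_sum, ← Complex.ofReal_sum, cnt_sum_Lm]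
    have h5 : ∑ R, (∑ e, (M R e : ℝ) * ((s e : ℝ) - a e / 2)) * t R = ∑ R, (w s R : ℝ) * t R := by
      refine sum_congr rfl fun R _ => ?_
      have h2 : ∑ e, (M R e : ℝ) * ((s e : ℝ) - a e / 2) =
          ∑ e, (M R e : ℝ) * (s e : ℝ) - (∑ e, (M R e : ℝ) * (a e : ℝ)) / 2 := by
        rw [sum_div, ← sum_sub_distrib]
        exact sum_congr rfl fun e _ => by ring
      have h3 : ∑ e, (M R e : ℝ) * (a e : ℝ) = 2 * u R := by exact_mod_cast hu R
      rw [h2, h3, hw]
      push_cast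
      ring
    rw [h5]
  have h0 : ∀ s ∈ Fintype.piFinset (fun e => range (a e + 1)), w s ≠ 0 := by
    intro s hs h
    have h1 : ∀ e, s e ≤ a e := by
      intro e
      have := mem_range.1 (Fintype.mem_piFinset.1 hs e)
      omega
    refine hno s h1 fun R => ?_
    have h2 : w s R = 0 := by rw [h]; rfl
    simp only [hw] at h2
    linarith
  have hmain : ((∫ t, Phi M a t ∂cubeM κ : ℝ) : ℂ) = 0 := by
    rw [← integral_complex_ofReal]
    simp_rw [key]
    rw [integral_finsetSum]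
    · refine sum_eq_zero fun s hs => ?_
      rw [integral_const_mul, cube_orth, if_neg (h0 s hs), mul_zero]
    · intro s _
      have : IsProbabilityMeasure (cubeM κ) := ⟨cubeM_univ κ⟩
      refine Integrable.const_mul ?_ _
      refine Integrable.of_bound (C := 1) ?_ ?_
      · refine Continuous.aestronglyMeasurable ?_
        fun_prop
      · refine Filter.Eventually.of_forall fun t => ?_
        have h4 : Complex.exp (2 * Real.pi * Complex.I * ((∑ R, (w s R : ℝ) * t R : ℝ) : ℂ)) =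
            Complex.exp (((2 * Real.pi * ∑ R, (w s R : ℝ) * t R : ℝ) : ℂ) * Complex.I) := by
          congr 1
          push_cast
          ring
        rw [h4, Complex.norm_exp_ofReal_mul_I]
  exact_mod_cast hmain

private theorem cnt_prod_zpow {ι : Type*} (s : Finset ι) (f : ι → ℤ) :
    ∏ e ∈ s, (-1 : ℝ) ^ (f e) = (-1 : ℝ) ^ (∑ e ∈ s, f e) := by
  classical
  induction s using Finset.induction_on with
  | empty => simp
  | insert e s he ih =>
    rw [prod_insert he, sum_insert he, ih, zpow_add₀ (by norm_num)]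

theorem Phi_per {ι κ : Type*} [Fintype ι] [Fintype κ] {M : κ → ι → ℤ} {a : ι → ℕ}
    {Ls : AddSubgroup (κ → ℝ)} (hval : ∀ y ∈ Ls, ∀ e, ∃ m : ℤ, Lm M y e = m) {u : κ → ℤ}
    (hu : ∀ R, ∑ e, M R e * a e = 2 * u R)
    (hph : ∀ y ∈ Ls, ∃ m : ℤ, ∑ R, (u R : ℝ) * y R = m) :
    ∀ y0 ∈ Ls, ∀ t, Phi M a (fun R => t R + y0 R) = Phi M a t := by
  intro y0 hy0 t
  choose m hm using hval y0 hy0
  obtain ⟨n, hn⟩ := hph y0 hy0
  have h1 : ∑ e, m e * (a e : ℤ) = 2 * n := by
    have h2 : ∑ e, (a e : ℝ) * Lm M y0 e = 2 * n := by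
      rw [cnt_sum_Lm, ← hn, mul_sum]
      refine sum_congr rfl fun R _ => ?_
      have h3 : ∑ e, (M R e : ℝ) * (a e : ℝ) = 2 * u R := by exact_mod_cast hu R
      rw [h3]
      ring
    have h4 : ((∑ e, m e * (a e : ℤ) : ℤ) : ℝ) = ((2 * n : ℤ) : ℝ) := by
      push_cast
      rw [← h2]
      refine sum_congr rfl fun e _ => ?_
      rw [hm e]
      ring
    exact_mod_cast h4
  unfold Phi
  have h5 : ∀ e ∈ (univ : Finset ι),
      (2 * Real.cos (Real.pi * Lm M (fun R => t R + y0 R) e)) ^ a e =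
        (-1 : ℝ) ^ (m e * (a e : ℤ)) * (2 * Real.cos (Real.pi * Lm M t e)) ^ a e := by
    intro e _
    rw [Lm_add, hm e, mul_add, mul_comm Real.pi (m e : ℝ), Real.cos_add_int_mul_pi, zpow_mul,
      zpow_natCast, ← mul_pow]
    congr 1
    ring
  rw [prod_congr rfl h5, prod_mul_distrib, cnt_prod_zpow, h1, zpow_mul]
  norm_num

end Pool.Agent.MP4a7415S
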