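import Pool.Agent.Lib.MP_4a7415_coS.Near

/-! # The integral of a periodic function from its values on shortest vectors -/

namespace Pool.Agent.MP4a7415S

open Finset MeasureTheory Pool.Agent.MP4a7415

/-- Reduction of a real number to `[-1/2, 1/2)`. -/
noncomputable def cvf (x : ℝ) : ℝ := x - (⌊x + 1 / 2⌋ : ℝ)

theorem cvf_add_int (x : ℝ) (n : ℤ) : cvf (x + n) = cvf x := by
  unfold cvf
  have h : x + n + 1 / 2 = x + 1 / 2 + n := by ring
  rw [h, Int.floor_add_intCast]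
  push_cast
  ring

theorem cvf_ge (x : ℝ) : -(1 / 2) ≤ cvf x := by
  unfold cvf
  have := Int.floor_le (x + 1 / 2)
  linarith

theorem cvf_lt (x : ℝ) : cvf x < 1 / 2 := by
  unfold cvf
  have := Int.lt_floor_add_one (x + 1 / 2)
  linarith

theorem cvf_of_mem {x : ℝ} (h1 : -(1 / 2) ≤ x) (h2 : x < 1 / 2) : cvf x = x := by
  unfold cvf
  have h : ⌊x + 1 / 2⌋ = 0 := by
    rw [Int.floor_eq_iff]
    constructor
    · push_cast
      linarith
    · push_cast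
      linarith
  rw [h, Int.cast_zero, sub_zero]

/-- On `[-1/2, 1/2]` the reduction does not change the absolute value. -/
theorem cvf_abs {x : ℝ} (h : |x| ≤ 1 / 2) : |cvf x| = |x| := by
  rw [abs_le] at h
  rcases lt_or_eq_of_le h.2 with h2 | h2
  · rw [cvf_of_mem h.1 h2]
  · have h3 : cvf x = cvf (-(1 / 2)) := by
      rw [← cvf_add_int (-(1 / 2)) 1, h2]
      norm_num
    rw [h3, cvf_of_mem le_rfl (by norm_num), h2, abs_neg]

theorem cvf_meas : Measurable cvf := by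
  unfold cvf
  fun_prop

theorem cvf_meas_pi {κ : Type*} : Measurable fun (y : κ → ℝ) (R : κ) => cvf (y R) := by
  rw [measurable_pi_iff]
  exact fun R => cvf_meas.comp (measurable_pi_apply R)

/-- The integral over the unit cube of a function of the reduced vector. -/
theorem cv_lint {κ : Type*} [Fintype κ] (G : (κ → ℝ) → ENNReal) (hG : Measurable G) :
    ∫⁻ y, G (fun R => cvf (y R)) ∂cubeM κ =
      ∫⁻ y in Set.pi Set.univ (fun _ : κ => Set.Ico (-(1 / 2) : ℝ) (1 / 2)), G y := by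
  have h1 := cube_shift (fun y : κ → ℝ => G (fun R => cvf (y R))) (hG.comp cvf_meas_pi)
    (fun a y => by
      show G (fun R => cvf (y R + a R)) = G (fun R => cvf (y R))
      simp only [cvf_add_int]) (fun _ => 1 / 2)
  rw [← h1]
  have hT : MeasurePreserving (fun y : κ → ℝ => (fun _ => -(1 / 2 : ℝ)) + y) volume volume :=
    measurePreserving_add_left volume _
  have hms : MeasurableSet (Set.pi Set.univ (fun _ : κ => Set.Ico (-(1 / 2) : ℝ) (1 / 2))) :=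
    MeasurableSet.univ_pi fun _ => measurableSet_Ico
  have hms' : MeasurableSet (Set.pi Set.univ (fun _ : κ => Set.Ico (0 : ℝ) 1)) :=
    MeasurableSet.univ_pi fun _ => measurableSet_Ico
  rw [← hT.setLIntegral_comp_preimage hms hG]
  have hpre : (fun y : κ → ℝ => (fun _ => -(1 / 2 : ℝ)) + y) ⁻¹'
      (Set.pi Set.univ (fun _ : κ => Set.Ico (-(1 / 2) : ℝ) (1 / 2))) =
      Set.pi Set.univ (fun _ : κ => Set.Ico (0 : ℝ) 1) := by
    ext y
    simp only [Set.mem_preimage, Set.mem_pi, Set.mem_univ, true_implies, Set.mem_Ico,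
      Pi.add_apply]
    constructor
    · intro h R
      obtain ⟨a, b⟩ := h R
      constructor <;> linarith
    · intro h R
      obtain ⟨a, b⟩ := h R
      constructor <;> linarith
  rw [hpre]
  show ∫⁻ y in Set.pi Set.univ (fun _ : κ => Set.Ico (0 : ℝ) 1), G (fun R => cvf (y R - 1 / 2)) = _
  refine setLIntegral_congr_fun hms' ?_
  intro y hy
  show G (fun R => cvf (y R - 1 / 2)) = G ((fun _ => -(1 / 2 : ℝ)) + y)
  congr 1
  funext R
  have hR := hy R (Set.mem_univ R)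
  rw [cvf_of_mem (by linarith [hR.1]) (by linarith [hR.2]), Pi.add_apply]
  ring

theorem cv_fin {κ : Type*} [Fintype κ] {Ls : AddSubgroup (κ → ℝ)} {Q : ℕ} (hQ : 1 ≤ Q)
    (hden : ∀ y ∈ Ls, ∀ R, ∃ m : ℤ, (Q : ℝ) * y R = m) :
    {c : κ → ℝ | c ∈ Ls ∧ ∀ R, 0 ≤ c R ∧ c R < 1}.Finite := by
  have hQ0 : (0 : ℝ) < Q := by exact_mod_cast hQ
  have h1 : {c : κ → ℝ | ∀ R, c R ∈ (fun m : ℕ => (m : ℝ) / Q) '' (Set.Iio Q)}.Finite :=
    Set.Finite.pi' fun _ => (Set.finite_Iio Q).image _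
  refine h1.subset ?_
  rintro c ⟨hc, hcR⟩ R
  obtain ⟨m, hm⟩ := hden c hc R
  have h0 : (0 : ℝ) ≤ m := by
    rw [← hm]
    exact mul_nonneg hQ0.le (hcR R).1
  have h2 : (m : ℝ) < Q := by
    rw [← hm]
    have := mul_lt_mul_of_pos_left (hcR R).2 hQ0
    linarith
  have h0' : 0 ≤ m := by exact_mod_cast h0
  have h2' : m < (Q : ℤ) := by exact_mod_cast h2
  refine ⟨m.toNat, ?_, ?_⟩
  · show m.toNat < Q
    omega
  · show ((m.toNat : ℕ) : ℝ) / Q = c R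
    have h3 : ((m.toNat : ℕ) : ℝ) = (m : ℝ) := by
      have : ((m.toNat : ℕ) : ℤ) = m := Int.toNat_of_nonneg h0'
      exact_mod_cast this
    rw [h3, ← hm]
    field_simp

theorem cv_closed_A0 {κ : Type*} (τ : ℝ) : IsClosed (A0 τ : Set (κ → ℝ)) := by
  have h : (A0 τ : Set (κ → ℝ)) = ⋂ R, {t | |t R| ≤ τ} := by
    ext t
    simp only [A0, Set.mem_iInter]
    rfl
  rw [h]
  exact isClosed_iInter fun R => isClosed_le (continuous_abs.comp (continuous_apply R)) continuous_const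

section
variable {κ : Type*} [Fintype κ] {Ls : AddSubgroup (κ → ℝ)} {Q : ℕ} {Φ : (κ → ℝ) → ℝ} {τ : ℝ}

theorem cv_perS (hper : ∀ y0 ∈ Ls, ∀ t, Φ (fun R => t R + y0 R) = Φ t) (y0 : κ → ℝ)
    (hy : y0 ∈ Ls) (t : κ → ℝ) : Φ (fun R => t R - y0 R) = Φ t := by
  have h := hper _ (Ls.neg_mem hy) t
  have e : (fun R => t R - y0 R) = fun R => t R + (-y0) R := by
    funext R
    rw [Pi.neg_apply, sub_eq_add_neg]
  rw [e]
  exact h

/-- Two translates of the small cube are disjoint. -/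
theorem cv_uniq (hint : ∀ b : κ → ℤ, (fun R => (b R : ℝ)) ∈ Ls) (hQ : 1 ≤ Q)
    (hden : ∀ y ∈ Ls, ∀ R, ∃ m : ℤ, (Q : ℝ) * y R = m)
    (hτ : 4 * τ * Q ≤ 1) {c c' : κ → ℝ} (hc : c ∈ Ls) (hc' : c' ∈ Ls)
    (hcR : ∀ R, 0 ≤ c R ∧ c R < 1) (hcR' : ∀ R, 0 ≤ c' R ∧ c' R < 1) {t : κ → ℝ}
    (hA : (fun R => cvf (t R - c R)) ∈ A0 τ) (hA' : (fun R => cvf (t R - c' R)) ∈ A0 τ) :
    c' = c := by
  have hQ0 : (1 : ℝ) ≤ Q := by exact_mod_cast hQ
  set b : κ → ℤ := fun R => ⌊t R - c R + 1 / 2⌋ with hb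
  set b' : κ → ℤ := fun R => ⌊t R - c' R + 1 / 2⌋ with hb'
  have e1 : ∀ R, cvf (t R - c R) = t R - c R - (b R : ℝ) := fun R => rfl
  have e2 : ∀ R, cvf (t R - c' R) = t R - c' R - (b' R : ℝ) := fun R => rfl
  have hd : (fun R => cvf (t R - c R) - cvf (t R - c' R)) ∈ Ls := by
    have h1 : (fun R => cvf (t R - c R) - cvf (t R - c' R)) =
        (c' - c) + fun R => (((b' R - b R : ℤ)) : ℝ) := by
      funext R
      rw [e1, e2, Pi.add_apply, Pi.sub_apply]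
      push_cast
      ring
    rw [h1]
    exact Ls.add_mem (Ls.sub_mem hc' hc) (hint fun R => b' R - b R)
  have hz : ∀ R, cvf (t R - c R) - cvf (t R - c' R) = 0 := by
    intro R
    obtain ⟨m, hm⟩ := hden _ hd R
    have a1 : |cvf (t R - c R)| ≤ τ := hA R
    have a2 : |cvf (t R - c' R)| ≤ τ := hA' R
    have hm' : (Q : ℝ) * (cvf (t R - c R) - cvf (t R - c' R)) = m := hm
    rw [abs_le] at a1 a2
    have a4 : (m : ℝ) < 1 := by
      rw [← hm']
      nlinarith [a1.1, a1.2, a2.1, a2.2]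
    have a5 : (-1 : ℝ) < m := by
      rw [← hm']
      nlinarith [a1.1, a1.2, a2.1, a2.2]
    have a6 : m < 1 := by exact_mod_cast a4
    have a7 : -1 < m := by exact_mod_cast a5
    have a8 : m = 0 := by omega
    rw [a8, Int.cast_zero] at hm'
    rcases mul_eq_zero.1 hm' with h | h
    · linarith
    · exact h
  funext R
  have e3 := hz R
  rw [e1, e2] at e3
  have e4 : c' R - c R = ((b R - b' R : ℤ) : ℝ) := by
    push_cast
    linarith
  have r1 := hcR R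
  have r2 := hcR' R
  have e5 : ((b R - b' R : ℤ) : ℝ) < 1 := by
    rw [← e4]
    linarith [r1.1, r2.2]
  have e6 : (-1 : ℝ) < ((b R - b' R : ℤ) : ℝ) := by
    rw [← e4]
    linarith [r1.2, r2.1]
  have e7 : b R - b' R < 1 := by exact_mod_cast e5
  have e8 : -1 < b R - b' R := by exact_mod_cast e6
  have e9 : b R - b' R = 0 := by omega
  rw [e9, Int.cast_zero] at e4
  linarith

theorem cv_pt0 (hint : ∀ b : κ → ℤ, (fun R => (b R : ℝ)) ∈ Ls) (hQ : 1 ≤ Q)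
    (hden : ∀ y ∈ Ls, ∀ R, ∃ m : ℤ, (Q : ℝ) * y R = m)
    (hper : ∀ y0 ∈ Ls, ∀ t, Φ (fun R => t R + y0 R) = Φ t)
    (hτ : 4 * τ * Q ≤ 1) (C : Finset (κ → ℝ)) (hC : ∀ c ∈ C, c ∈ Ls ∧ ∀ R, 0 ≤ c R ∧ c R < 1)
    (t : κ → ℝ) :
    ∑ c ∈ C, (A0 τ).indicator (fun t => ENNReal.ofReal (Φ t)) (fun R => cvf (t R - c R)) ≤
      ENNReal.ofReal (Φ t) := by
  classical
  by_cases hex : ∃ c ∈ C, (fun R => cvf (t R - c R)) ∈ A0 τ
  · obtain ⟨c, hcC, hcA⟩ := hex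
    have hcC' := hC c hcC
    have huniq : ∀ c' ∈ C, c' ≠ c →
        (A0 τ).indicator (fun t => ENNReal.ofReal (Φ t)) (fun R => cvf (t R - c' R)) = 0 := by
      intro c' hc' hne
      refine Set.indicator_of_notMem (fun h => hne ?_) _
      exact cv_uniq hint hQ hden hτ hcC'.1 (hC c' hc').1 hcC'.2 (hC c' hc').2 hcA h
    rw [Finset.sum_eq_single_of_mem c hcC huniq]
    have hval : Φ (fun R => cvf (t R - c R)) = Φ t := by
      have e1 := cv_perS hper _ (hint fun R => ⌊t R - c R + 1 / 2⌋) (fun R => t R - c R)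
      have e2 := cv_perS hper c hcC'.1 t
      rw [← e2, ← e1]
      rfl
    rw [Set.indicator_of_mem hcA, hval]
  · have h0 : ∑ c ∈ C, (A0 τ).indicator (fun t => ENNReal.ofReal (Φ t))
        (fun R => cvf (t R - c R)) = 0 := by
      refine Finset.sum_eq_zero fun c hc' => ?_
      exact Set.indicator_of_notMem (fun h => hex ⟨c, hc', h⟩) _
    rw [h0]
    exact zero_le

theorem cv_pt1 (hint : ∀ b : κ → ℤ, (fun R => (b R : ℝ)) ∈ Ls) (hQ : 1 ≤ Q)
    (hden : ∀ y ∈ Ls, ∀ R, ∃ m : ℤ, (Q : ℝ) * y R = m)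
    (hper : ∀ y0 ∈ Ls, ∀ t, Φ (fun R => t R + y0 R) = Φ t)
    (hpos : ∀ t ∈ A0 τ, 0 ≤ Φ t) (C : Finset (κ → ℝ))
    (hC : ∀ c, c ∈ Ls → (∀ R, 0 ≤ c R ∧ c R < 1) → c ∈ C) (t : κ → ℝ) :
    ENNReal.ofReal (-Φ t) ≤
      ∑ c ∈ C, ({t | Mn Ls t ∧ t ∉ A0 τ} : Set (κ → ℝ)).indicator
        (fun t => ENNReal.ofReal |Φ t|) (fun R => cvf (t R - c R)) := by
  classical
  by_cases hs : 0 ≤ Φ t
  · rw [ENNReal.ofReal_of_nonpos (by linarith)]
    exact zero_le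
  push Not at hs
  obtain ⟨y0, hy0, hMn⟩ := exists_Mn hint hQ hden t
  set t' : κ → ℝ := fun R => t R - y0 R with ht'
  have hΦt' : Φ t' = Φ t := cv_perS hper y0 hy0 t
  have ht'A : t' ∉ A0 τ := fun h => by
    have h1 := hpos t' h
    rw [hΦt'] at h1
    linarith
  set c : κ → ℝ := fun R => y0 R - (⌊y0 R⌋ : ℝ) with hcdef
  have hcL : c ∈ Ls := Ls.sub_mem hy0 (hint fun R => ⌊y0 R⌋)
  have hcC : c ∈ C := hC c hcL fun R => by
    have h1 := Int.floor_le (y0 R)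
    have h2 := Int.lt_floor_add_one (y0 R)
    constructor
    · show 0 ≤ y0 R - (⌊y0 R⌋ : ℝ)
      linarith
    · show y0 R - (⌊y0 R⌋ : ℝ) < 1
      linarith
  have hfl : (fun R => cvf (t R - c R)) = fun R => cvf (t' R) := by
    funext R
    have e : t R - c R = t' R + ((⌊y0 R⌋ : ℤ) : ℝ) := by
      rw [hcdef, ht']
      ring
    rw [e, cvf_add_int]
  have habs : ∀ R, |cvf (t' R)| = |t' R| := fun R => cvf_abs (Mn_half hint hMn R)
  have hmem : (fun R => cvf (t' R)) ∈ ({t | Mn Ls t ∧ t ∉ A0 τ} : Set (κ → ℝ)) := by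
    constructor
    · intro y1 hy1
      have h1 := hMn ((fun R => ((⌊t' R + 1 / 2⌋ : ℤ) : ℝ)) + y1)
        (Ls.add_mem (hint fun R => ⌊t' R + 1 / 2⌋) hy1)
      have h2 : ∑ R, cvf (t' R) ^ 2 = ∑ R, t' R ^ 2 := by
        refine Finset.sum_congr rfl fun R _ => ?_
        rw [← sq_abs (cvf (t' R)), habs, sq_abs]
      have h3 : ∑ R, (cvf (t' R) - y1 R) ^ 2 =
          ∑ R, (t' R - ((fun R => ((⌊t' R + 1 / 2⌋ : ℤ) : ℝ)) + y1) R) ^ 2 := by
        refine Finset.sum_congr rfl fun R _ => ?_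
        rw [Pi.add_apply]
        unfold cvf
        ring
      show ∑ R, cvf (t' R) ^ 2 ≤ ∑ R, (cvf (t' R) - y1 R) ^ 2
      rw [h2, h3]
      exact h1
    · intro hA
      apply ht'A
      intro R
      have h4 : |cvf (t' R)| ≤ τ := hA R
      rwa [habs] at h4
  have hval : Φ (fun R => cvf (t' R)) = Φ t := by
    rw [← hΦt']
    exact cv_perS hper _ (hint fun R => ⌊t' R + 1 / 2⌋) t'
  have hle : ENNReal.ofReal (-Φ t) ≤ ({t | Mn Ls t ∧ t ∉ A0 τ} : Set (κ → ℝ)).indicator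
        (fun t => ENNReal.ofReal |Φ t|) (fun R => cvf (t R - c R)) := by
    rw [hfl, Set.indicator_of_mem hmem, hval]
    exact ENNReal.ofReal_le_ofReal (neg_le_abs _)
  refine hle.trans ?_
  exact Finset.single_le_sum (f := fun c : κ → ℝ => ({t | Mn Ls t ∧ t ∉ A0 τ} : Set (κ → ℝ)).indicator
        (fun t => ENNReal.ofReal |Φ t|) (fun R => cvf (t R - c R)))
          (fun _ _ => zero_le) hcC

/-- The integral of the sum of the translates. -/
theorem cv_sum (C : Finset (κ → ℝ)) (G : (κ → ℝ) → ENNReal) (hG : Measurable G) :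
    ∫⁻ t, ∑ c ∈ C, G (fun R => cvf (t R - c R)) ∂cubeM κ =
      (C.card : ENNReal) *
        ∫⁻ y in Set.pi Set.univ (fun _ : κ => Set.Ico (-(1 / 2) : ℝ) (1 / 2)), G y := by
  have hGm : ∀ c : κ → ℝ, Measurable fun t : κ → ℝ => G (fun R => cvf (t R - c R)) := by
    intro c
    refine hG.comp (cvf_meas_pi.comp ?_)
    exact measurable_id.sub_const c
  rw [lintegral_finsetSum _ fun c _ => hGm c]
  have h1 : ∀ c ∈ C, ∫⁻ t, G (fun R => cvf (t R - c R)) ∂cubeM κ =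
      ∫⁻ y in Set.pi Set.univ (fun _ : κ => Set.Ico (-(1 / 2) : ℝ) (1 / 2)), G y := by
    intro c _
    have h2 := cube_shift (fun y : κ → ℝ => G (fun R => cvf (y R))) (hG.comp cvf_meas_pi)
      (fun a y => by
        show G (fun R => cvf (y R + a R)) = G (fun R => cvf (y R))
        simp only [cvf_add_int]) c
    rw [← cv_lint G hG, ← h2]
  rw [Finset.sum_congr rfl h1, Finset.sum_const, nsmul_eq_mul]

end

theorem cover {κ : Type*} [Fintype κ] {Ls : AddSubgroup (κ → ℝ)}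
    (hint : ∀ b : κ → ℤ, (fun R => (b R : ℝ)) ∈ Ls) {Q : ℕ} (hQ : 1 ≤ Q)
    (hden : ∀ y ∈ Ls, ∀ R, ∃ m : ℤ, (Q : ℝ) * y R = m) {Φ : (κ → ℝ) → ℝ} (hc : Continuous Φ)
    (hper : ∀ y0 ∈ Ls, ∀ t, Φ (fun R => t R + y0 R) = Φ t) {τ : ℝ} (hτ0 : 0 < τ)
    (hτ : 4 * τ * Q ≤ 1) (hpos : ∀ t ∈ A0 τ, 0 ≤ Φ t) (hpos' : 0 < ∫ t in A0 τ, Φ t)
    (hsmall : ∫ t in {t | Mn Ls t ∧ t ∉ A0 τ}, |Φ t| ≤ 1 / 2 * ∫ t in A0 τ, Φ t) :
    0 < ∫ t, Φ t ∂cubeM κ := by
  classical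
  have hQ0 : (1 : ℝ) ≤ Q := by exact_mod_cast hQ
  have hτ4 : τ ≤ 1 / 4 := by nlinarith
  have hfin := cv_fin hQ hden
  obtain ⟨C, hC⟩ : ∃ C : Finset (κ → ℝ), ∀ c, c ∈ C ↔ c ∈ Ls ∧ ∀ R, 0 ≤ c R ∧ c R < 1 :=
    ⟨hfin.toFinset, fun c => by rw [Set.Finite.mem_toFinset]; rfl⟩
  have hA0m : MeasurableSet (A0 τ : Set (κ → ℝ)) := (cv_closed_A0 τ).measurableSet
  have hS1m : MeasurableSet ({t | Mn Ls t ∧ t ∉ A0 τ} : Set (κ → ℝ)) :=
    (closed_Mn (Ls := Ls)).measurableSet.inter hA0m.compl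
  have hpt0 := cv_pt0 hint hQ hden hper hτ C fun c h => (hC c).1 h
  have hpt1 := cv_pt1 hint hQ hden hper hpos C fun c h h' => (hC c).2 ⟨h, h'⟩
  have hA0sub : (A0 τ : Set (κ → ℝ)) ⊆
      Set.pi Set.univ (fun _ : κ => Set.Ico (-(1 / 2) : ℝ) (1 / 2)) := by
    intro t ht R _
    have h := abs_le.1 (ht R)
    constructor <;> linarith [h.1, h.2]
  have hA0sub' : (A0 τ : Set (κ → ℝ)) ⊆
      Set.pi Set.univ (fun _ : κ => Set.Icc (-(1 / 2) : ℝ) (1 / 2)) :=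
    fun t ht R hR => Set.Ico_subset_Icc_self (hA0sub ht R hR)
  have hS1sub : ({t | Mn Ls t ∧ t ∉ A0 τ} : Set (κ → ℝ)) ⊆
      Set.pi Set.univ (fun _ : κ => Set.Icc (-(1 / 2) : ℝ) (1 / 2)) := by
    intro t ht R _
    have h := abs_le.1 (Mn_half hint ht.1 R)
    exact ⟨h.1, h.2⟩
  have hbox : IsCompact (Set.pi Set.univ (fun _ : κ => Set.Icc (-(1 / 2) : ℝ) (1 / 2))) :=
    isCompact_univ_pi fun _ => isCompact_Icc
  have hintA : IntegrableOn Φ (A0 τ) :=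
    (hc.continuousOn.integrableOn_compact hbox).mono_set hA0sub'
  have hintS : IntegrableOn (fun t => |Φ t|) {t | Mn Ls t ∧ t ∉ A0 τ} :=
    (hc.abs.continuousOn.integrableOn_compact hbox).mono_set hS1sub
  have hL0 : ∫⁻ t in A0 τ, ENNReal.ofReal (Φ t) = ENNReal.ofReal (∫ t in A0 τ, Φ t) := by
    rw [ofReal_integral_eq_lintegral_ofReal hintA]
    exact (ae_restrict_iff' hA0m).2 (Filter.Eventually.of_forall fun t ht => hpos t ht)
  have hL1 : ∫⁻ t in {t | Mn Ls t ∧ t ∉ A0 τ}, ENNReal.ofReal |Φ t| =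
      ENNReal.ofReal (∫ t in {t | Mn Ls t ∧ t ∉ A0 τ}, |Φ t|) := by
    rw [ofReal_integral_eq_lintegral_ofReal hintS]
    exact Filter.Eventually.of_forall fun t => abs_nonneg _
  have hP : (C.card : ENNReal) * ENNReal.ofReal (∫ t in A0 τ, Φ t) ≤
      ∫⁻ t, ENNReal.ofReal (Φ t) ∂cubeM κ := by
    have h1 := cv_sum C _ (hc.measurable.ennreal_ofReal.indicator hA0m)
    rw [setLIntegral_indicator hA0m, Set.inter_eq_left.2 hA0sub, hL0] at h1
    rw [← h1]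
    exact lintegral_mono hpt0
  have hN : ∫⁻ t, ENNReal.ofReal (-Φ t) ∂cubeM κ ≤
      (C.card : ENNReal) * ENNReal.ofReal (∫ t in {t | Mn Ls t ∧ t ∉ A0 τ}, |Φ t|) := by
    refine (lintegral_mono hpt1).trans ?_
    have h1 := cv_sum C _ (hc.abs.measurable.ennreal_ofReal.indicator hS1m)
    rw [h1, setLIntegral_indicator hS1m, ← hL1]
    exact mul_le_mul_right (lintegral_mono_set Set.inter_subset_left) _
  have hcube : Set.pi Set.univ (fun _ : κ => Set.Ico (0 : ℝ) 1) ⊆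
      Set.pi Set.univ (fun _ : κ => Set.Icc (0 : ℝ) 1) :=
    Set.pi_mono fun _ _ => Set.Ico_subset_Icc_self
  have hintC : Integrable Φ (cubeM κ) := by
    have h1 : IsCompact (Set.pi Set.univ (fun _ : κ => Set.Icc (0 : ℝ) 1)) :=
      isCompact_univ_pi fun _ => isCompact_Icc
    exact (hc.continuousOn.integrableOn_compact h1).mono_set hcube
  have hPfin : ∫⁻ t, ENNReal.ofReal (Φ t) ∂cubeM κ ≠ ⊤ := hintC.lintegral_lt_top.ne
  rw [integral_eq_lintegral_pos_part_sub_lintegral_neg_part hintC]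
  have hcard : (1 : ℝ) ≤ (C.card : ℝ) := by
    have h0 : (0 : κ → ℝ) ∈ C := (hC 0).2 ⟨Ls.zero_mem, fun R => by simp⟩
    exact_mod_cast Finset.card_pos.2 ⟨0, h0⟩
  set I0 : ℝ := ∫ t in A0 τ, Φ t with hI0
  set I1 : ℝ := ∫ t in {t | Mn Ls t ∧ t ∉ A0 τ}, |Φ t| with hI1
  have hI1n : 0 ≤ I1 := by
    rw [hI1]
    exact integral_nonneg fun t => abs_nonneg _
  have e0 : (C.card : ℝ) * I0 ≤ (∫⁻ t, ENNReal.ofReal (Φ t) ∂cubeM κ).toReal := by
    have h := ENNReal.toReal_mono hPfin hP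
    rwa [ENNReal.toReal_mul, ENNReal.toReal_natCast, ENNReal.toReal_ofReal hpos'.le] at h
  have e1 : (∫⁻ t, ENNReal.ofReal (-Φ t) ∂cubeM κ).toReal ≤ (C.card : ℝ) * I1 := by
    have h := ENNReal.toReal_mono
      (ENNReal.mul_ne_top (ENNReal.natCast_ne_top _) ENNReal.ofReal_ne_top) hN
    rwa [ENNReal.toReal_mul, ENNReal.toReal_natCast, ENNReal.toReal_ofReal hI1n] at h
  have e2 : (C.card : ℝ) * I1 ≤ (C.card : ℝ) * (1 / 2 * I0) :=
    mul_le_mul_of_nonneg_left hsmall (by linarith)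
  have e3 : 0 < (C.card : ℝ) * I0 := mul_pos (by linarith) hpos'
  linarith

end Pool.Agent.MP4a7415S
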