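import Pool.Agent.Lib.MP_4a7415_coI.Lattice

/-! # Simple designs: the abstract setting -/

namespace Pool.Agent.MP4a7415S

open Finset MeasureTheory Pool.Agent.MP4a7415

/-- Vectors that are shortest modulo `Ls`. -/
def Mn {κ : Type*} [Fintype κ] (Ls : AddSubgroup (κ → ℝ)) (t : κ → ℝ) : Prop :=
  ∀ y0 ∈ Ls, ∑ R, t R ^ 2 ≤ ∑ R, (t R - y0 R) ^ 2

/-- The complement. -/
noncomputable def cpl {κ : Type*} [Fintype κ] (B : Finset κ) : Finset κ := by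
  classical
  exact univ.filter fun R => R ∉ B

@[simp] theorem mem_cpl {κ : Type*} [Fintype κ] {B : Finset κ} {R : κ} : R ∈ cpl B ↔ R ∉ B := by
  simp [cpl]

/-- The edges that meet `B`. -/
noncomputable def tch {ι κ : Type*} [Fintype ι] (M : κ → ι → ℤ) (B : Finset κ) : Finset ι := by
  classical
  exact univ.filter fun e => ∃ R ∈ B, M R e ≠ 0

/-- The part of `t` on `B`. -/
noncomputable def onB {κ : Type*} (B : Finset κ) (t : κ → ℝ) : κ → ℝ := by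
  classical
  exact fun R => if R ∈ B then t R else 0

/-- The part of `t` outside `B`. -/
noncomputable def offB {κ : Type*} (B : Finset κ) (t : κ → ℝ) : κ → ℝ := by
  classical
  exact fun R => if R ∈ B then 0 else t R

/-- The integrand. -/
noncomputable def Phi {ι κ : Type*} [Fintype ι] [Fintype κ] (M : κ → ι → ℤ) (a : ι → ℕ)
    (t : κ → ℝ) : ℝ := ∏ e, (2 * Real.cos (Real.pi * Lm M t e)) ^ a e

/-- The comparison function for `B`. It depends only on the coordinates outside `B`. -/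
noncomputable def gB {ι κ : Type*} [Fintype ι] [Fintype κ] (M : κ → ι → ℤ) (a : ι → ℕ)
    (B : Finset κ) (t : κ → ℝ) : ℝ :=
  (∏ e ∈ cpl (tch M B), Real.cos (Real.pi * Lm M (offB B t) e) ^ a e) *
    Real.exp (5 * ∑ e ∈ tch M B, (a e : ℝ) * Lm M (offB B t) e ^ 2)

/-- The box. -/
def bx {κ : Type*} (B : Finset κ) (w τ : ℝ) : Set (κ → ℝ) :=
  {t | (∀ R ∈ B, |t R| ≤ w) ∧ ∀ R, R ∉ B → |t R| ≤ τ}

/-- The small cube. -/
def A0 {κ : Type*} (τ : ℝ) : Set (κ → ℝ) := {t | ∀ R, |t R| ≤ τ}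

/-- The shortest vectors with a given set of large coordinates. -/
def AS {κ : Type*} [Fintype κ] (Ls : AddSubgroup (κ → ℝ)) (τ : ℝ) (S : Finset κ) :
    Set (κ → ℝ) := {t | Mn Ls t ∧ ∀ R, R ∈ S ↔ τ < |t R|}

/-- The size of the small cube. -/
noncomputable def tau (k Q : ℕ) : ℝ := 1 / (4 * k * Q)

/-- The hypotheses on `B`: every coordinate outside `B` has few edges that meet `B`. -/
def Cl {ι κ : Type*} [Fintype ι] (M : κ → ι → ℤ) (b : ℝ) (B : Finset κ) : Prop :=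
  ∀ R, R ∉ B → (((tch M B).filter fun e => M R e ≠ 0).card : ℝ) ≤ b

/-- The hypotheses of the splitting lemma. -/
structure Spl {ι κ : Type*} [Fintype ι] [Fintype κ] (M : κ → ι → ℤ)
    (Ls : AddSubgroup (κ → ℝ)) (a : ι → ℕ) (k Q K : ℕ) (c D : ℝ) : Prop where
  k1 : 1 ≤ k
  Q1 : 1 ≤ Q
  c0 : 0 < c
  m01 : ∀ R e, M R e = 0 ∨ M R e = 1
  col : ∀ e, (univ.filter fun R => M R e ≠ 0).card ≤ k
  row : ∀ R, ((univ.filter fun e => M R e ≠ 0).card : ℝ) ≤ 2 * D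
  a2 : ∀ e, a e ≤ 2
  int : ∀ b : κ → ℤ, (fun R => (b R : ℝ)) ∈ Ls
  val : ∀ y ∈ Ls, ∀ e, ∃ m : ℤ, Lm M y e = m
  den : ∀ y ∈ Ls, ∀ R, ∃ m : ℤ, (Q : ℝ) * y R = m
  coer : ∀ y : κ → ℝ, Mn Ls y → c * D * ∑ R, y R ^ 2 ≤ ∑ e, (a e : ℝ) * dZ (Lm M y e) ^ 2
  clos : ∀ S : Finset κ, S.Nonempty → ∃ B, S ⊆ B ∧ B.card ≤ K * S.card ∧
    Cl M (c / (10 * k) * D) B

end Pool.Agent.MP4a7415S
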