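import Pool.Agent.Lib.MP_4a7415_coS.Near
import Pool.Agent.Lib.MP_4a7415_coS.Cos

/-! # Pointwise bounds -/

namespace Pool.Agent.MP4a7415S

open Finset MeasureTheory Pool.Agent.MP4a7415

variable {ι κ : Type*} [Fintype ι] [Fintype κ] {M : κ → ι → ℤ} {Ls : AddSubgroup (κ → ℝ)}
  {a : ι → ℕ} {k Q K : ℕ} {c D : ℝ}

omit [Fintype ι] in
private theorem ga_Lm_split (M : κ → ι → ℤ) (B : Finset κ) (t : κ → ℝ) (e : ι) :
    Lm M t e = Lm M (onB B t) e + Lm M (offB B t) e := by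
  rw [← Lm_add]
  congr 1
  funext R
  unfold onB offB
  by_cases hR : R ∈ B
  · rw [if_pos hR, if_pos hR, add_zero]
  · rw [if_neg hR, if_neg hR, zero_add]

omit [Fintype κ] in
private theorem ga_not_tch {B : Finset κ} {e : ι} (he : e ∉ tch M B) {R : κ} (hR : R ∈ B) :
    M R e = 0 := by
  by_contra h
  exact he (by
    unfold tch
    rw [mem_filter]
    exact ⟨mem_univ _, R, hR, h⟩)

private theorem ga_Lm_on_zero {B : Finset κ} {e : ι} (he : e ∉ tch M B) (t : κ → ℝ) :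
    Lm M (onB B t) e = 0 := by
  unfold Lm
  refine sum_eq_zero fun R _ => ?_
  by_cases hR : R ∈ B
  · rw [ga_not_tch he hR]; simp
  · unfold onB; rw [if_neg hR, mul_zero]

private theorem ga_Lm_off {B : Finset κ} {e : ι} (he : e ∉ tch M B) (t : κ → ℝ) :
    Lm M t e = Lm M (offB B t) e := by
  rw [ga_Lm_split M B t e, ga_Lm_on_zero he, zero_add]

omit [Fintype ι] in
private theorem ga_Lm_abs (h01 : ∀ R e, M R e = 0 ∨ M R e = 1) {e : ι}
    (hcol : (univ.filter fun R => M R e ≠ 0).card ≤ k) {y : κ → ℝ} {δ : ℝ} (hδ : 0 ≤ δ)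
    (hy : ∀ R, |y R| ≤ δ) : |Lm M y e| ≤ k * δ := by
  classical
  unfold Lm
  calc |∑ R, (M R e : ℝ) * y R| ≤ ∑ R, |(M R e : ℝ) * y R| := abs_sum_le_sum_abs _ _
    _ = ∑ R ∈ univ.filter fun R => M R e ≠ 0, |(M R e : ℝ) * y R| := by
        rw [sum_filter]
        refine sum_congr rfl fun R _ => ?_
        by_cases h : M R e = 0
        · simp [h]
        · rw [if_pos h]
    _ ≤ ∑ _R ∈ univ.filter fun R => M R e ≠ 0, δ := by
        refine sum_le_sum fun R hR => ?_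
        rcases h01 R e with h | h
        · rw [h]; simpa using hδ
        · rw [h]; simpa using hy R
    _ = ((univ.filter fun R => M R e ≠ 0).card : ℝ) * δ := by rw [sum_const, nsmul_eq_mul]
    _ ≤ k * δ := by
        refine mul_le_mul_of_nonneg_right ?_ hδ
        exact_mod_cast hcol

private theorem ga_tau_pos (h : Spl M Ls a k Q K c D) : 0 < tau k Q := by
  have hk : (0 : ℝ) < k := by exact_mod_cast h.k1
  have hQ : (0 : ℝ) < Q := by exact_mod_cast h.Q1
  unfold tau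
  positivity

private theorem ga_k_tau (h : Spl M Ls a k Q K c D) : (k : ℝ) * tau k Q ≤ 1 / 4 := by
  have hk : (0 : ℝ) < k := by exact_mod_cast h.k1
  have hQ : (1 : ℝ) ≤ Q := by exact_mod_cast h.Q1
  unfold tau
  rw [mul_one_div, div_le_iff₀ (by positivity)]
  nlinarith

private theorem ga_tau_le (h : Spl M Ls a k Q K c D) : tau k Q ≤ 1 / (2 * Q) := by
  have hk : (1 : ℝ) ≤ k := by exact_mod_cast h.k1
  have hQ : (1 : ℝ) ≤ Q := by exact_mod_cast h.Q1
  unfold tau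
  refine one_div_le_one_div_of_le (by positivity) ?_
  nlinarith

omit [Fintype κ] in
/-- the product of all edges is the product over the edges that meet `B` and the others -/
private theorem ga_prod_split (B : Finset κ) (f : ι → ℝ) :
    ∏ e, f e = (∏ e ∈ tch M B, f e) * ∏ e ∈ cpl (tch M B), f e := by
  classical
  rw [← prod_union]
  · refine prod_congr ?_ fun _ _ => rfl
    ext e
    simp only [mem_univ, mem_union, mem_cpl, true_iff]
    exact em _
  · rw [Finset.disjoint_left]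
    intro e he he2
    exact (mem_cpl.1 he2) he

private theorem ga_Phi_eq (M : κ → ι → ℤ) (a : ι → ℕ) (t : κ → ℝ) :
    Phi M a t = 2 ^ (∑ e, a e) * ∏ e, Real.cos (Real.pi * Lm M t e) ^ a e := by
  unfold Phi
  rw [← prod_pow_eq_pow_sum, ← prod_mul_distrib]
  exact prod_congr rfl fun e _ => mul_pow _ _ _

private theorem ga_cos_nonneg {x : ℝ} (hx : |x| ≤ 1 / 4) : 0 ≤ Real.cos (Real.pi * x) :=
  (Real.exp_pos _).le.trans (le_cos hx)

/-- the coercivity for the part on `B` -/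
private theorem ga_coer (h : Spl M Ls a k Q K c D) {S B : Finset κ} (hSB : S ⊆ B) {t : κ → ℝ}
    (ht : t ∈ AS Ls (tau k Q) S) :
    c * D * tau k Q ^ 2 * S.card ≤
      ∑ e ∈ tch M B, (a e : ℝ) * (2 * dZ (Lm M (onB B t) e) ^ 2) := by
  obtain ⟨htM, htS⟩ := ht
  rcases S.eq_empty_or_nonempty with hS | ⟨R0, hR0⟩
  · rw [hS, card_empty, Nat.cast_zero, mul_zero]
    exact sum_nonneg fun e _ => by positivity
  have hD : 0 ≤ D := by
    have := h.row R0
    have h2 : (0 : ℝ) ≤ ((univ.filter fun e => M R0 e ≠ 0).card : ℝ) := Nat.cast_nonneg _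
    linarith
  have hoff : ∀ R, R ∉ B → |t R| ≤ tau k Q := fun R hR => by
    by_contra hcon
    exact hR (hSB ((htS R).2 (not_le.1 hcon)))
  obtain ⟨y0, hy0, hMn⟩ := exists_Mn (Ls := Ls) h.int h.Q1 h.den (onB B t)
  have h1 := h.coer _ hMn
  have h2 := dist_onB (Ls := Ls) h.Q1 h.den htM (B := B)
    (fun R hR => (hoff R hR).trans (ga_tau_le h)) hy0
  have h3 : (S.card : ℝ) * tau k Q ^ 2 ≤ ∑ R ∈ B, t R ^ 2 := by
    calc (S.card : ℝ) * tau k Q ^ 2 = ∑ _R ∈ S, tau k Q ^ 2 := by rw [sum_const, nsmul_eq_mul]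
      _ ≤ ∑ R ∈ S, t R ^ 2 := by
          refine sum_le_sum fun R hR => ?_
          rw [← sq_abs (t R)]
          exact pow_le_pow_left₀ (ga_tau_pos h).le ((htS R).1 hR).le 2
      _ ≤ ∑ R ∈ B, t R ^ 2 := sum_le_sum_of_subset_of_nonneg hSB fun R _ _ => sq_nonneg _
  have h4 : ∑ e, (a e : ℝ) * dZ (Lm M (fun R => onB B t R - y0 R) e) ^ 2 =
      ∑ e ∈ tch M B, (a e : ℝ) * dZ (Lm M (onB B t) e) ^ 2 := by
    have h5 : ∀ e, dZ (Lm M (fun R => onB B t R - y0 R) e) = dZ (Lm M (onB B t) e) := by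
      intro e
      rw [Lm_sub]
      obtain ⟨m, hm⟩ := h.val y0 hy0 e
      rw [hm]
      unfold dZ
      rw [round_sub_intCast]
      push_cast
      congr 1
      ring
    simp_rw [h5]
    symm
    refine sum_subset (subset_univ _) fun e _ he => ?_
    rw [ga_Lm_on_zero he]
    simp [dZ]
  rw [h4] at h1
  have h6 : ∑ e ∈ tch M B, (a e : ℝ) * (2 * dZ (Lm M (onB B t) e) ^ 2) =
      2 * ∑ e ∈ tch M B, (a e : ℝ) * dZ (Lm M (onB B t) e) ^ 2 := by
    rw [mul_sum]
    exact sum_congr rfl fun e _ => by ring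
  rw [h6]
  have hcD : 0 ≤ c * D := mul_nonneg h.c0.le hD
  have h7 : c * D * ((S.card : ℝ) * tau k Q ^ 2) ≤
      c * D * (2 * ∑ R, (onB B t R - y0 R) ^ 2) :=
    mul_le_mul_of_nonneg_left (h3.trans h2) hcD
  linarith

/-- The upper bound on a minor region. -/
theorem gain (h : Spl M Ls a k Q K c D) {S B : Finset κ} (hSB : S ⊆ B) {t : κ → ℝ}
    (ht : t ∈ AS Ls (tau k Q) S) :
    |Phi M a t| ≤ 2 ^ (∑ e, a e) * Real.exp (-(c * D * tau k Q ^ 2 * S.card)) * gB M a B t := by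
  have hco := ga_coer h hSB ht
  obtain ⟨htM, htS⟩ := ht
  have hoff : ∀ R, |offB B t R| ≤ tau k Q := fun R => by
    unfold offB
    by_cases hR : R ∈ B
    · rw [if_pos hR, abs_zero]; exact (ga_tau_pos h).le
    · rw [if_neg hR]
      by_contra hcon
      exact hR (hSB ((htS R).2 (not_le.1 hcon)))
  rw [ga_Phi_eq, abs_mul, abs_of_nonneg (by positivity : (0 : ℝ) ≤ 2 ^ (∑ e, a e)), mul_assoc]
  refine mul_le_mul_of_nonneg_left ?_ (by positivity)
  rw [abs_prod, ga_prod_split (M := M) B]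
  have hA : ∏ e ∈ tch M B, |Real.cos (Real.pi * Lm M t e) ^ a e| ≤
      Real.exp (-(c * D * tau k Q ^ 2 * S.card)) *
        Real.exp (5 * ∑ e ∈ tch M B, (a e : ℝ) * Lm M (offB B t) e ^ 2) := by
    calc ∏ e ∈ tch M B, |Real.cos (Real.pi * Lm M t e) ^ a e|
        ≤ ∏ e ∈ tch M B, Real.exp ((a e : ℝ) *
            (-(2 * dZ (Lm M (onB B t) e) ^ 2) + 5 * Lm M (offB B t) e ^ 2)) := by
          refine prod_le_prod (fun e _ => abs_nonneg _) fun e _ => ?_
          rw [abs_pow, Real.exp_nat_mul]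
          refine pow_le_pow_left₀ (abs_nonneg _) ?_ _
          rw [ga_Lm_split M B t e]
          exact abs_cos_add_le _ _
      _ = Real.exp (-(∑ e ∈ tch M B, (a e : ℝ) * (2 * dZ (Lm M (onB B t) e) ^ 2))) *
            Real.exp (5 * ∑ e ∈ tch M B, (a e : ℝ) * Lm M (offB B t) e ^ 2) := by
          rw [← Real.exp_sum, ← Real.exp_add]
          congr 1
          rw [mul_sum, ← sum_neg_distrib, ← sum_add_distrib]
          exact sum_congr rfl fun e _ => by ring
      _ ≤ _ := by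
          refine mul_le_mul_of_nonneg_right ?_ (Real.exp_pos _).le
          exact Real.exp_le_exp.2 (neg_le_neg hco)
  have hB : ∏ e ∈ cpl (tch M B), |Real.cos (Real.pi * Lm M t e) ^ a e| =
      ∏ e ∈ cpl (tch M B), Real.cos (Real.pi * Lm M (offB B t) e) ^ a e := by
    refine prod_congr rfl fun e he => ?_
    rw [ga_Lm_off (mem_cpl.1 he) t, abs_of_nonneg]
    exact pow_nonneg (ga_cos_nonneg
      ((ga_Lm_abs h.m01 (h.col e) (ga_tau_pos h).le hoff).trans (ga_k_tau h))) _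
  rw [hB]
  have hB0 : 0 ≤ ∏ e ∈ cpl (tch M B), Real.cos (Real.pi * Lm M (offB B t) e) ^ a e :=
    prod_nonneg fun e _ => pow_nonneg (ga_cos_nonneg
      ((ga_Lm_abs h.m01 (h.col e) (ga_tau_pos h).le hoff).trans (ga_k_tau h))) _
  unfold gB
  calc _ ≤ (Real.exp (-(c * D * tau k Q ^ 2 * S.card)) *
        Real.exp (5 * ∑ e ∈ tch M B, (a e : ℝ) * Lm M (offB B t) e ^ 2)) *
        ∏ e ∈ cpl (tch M B), Real.cos (Real.pi * Lm M (offB B t) e) ^ a e :=
        mul_le_mul_of_nonneg_right hA hB0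
    _ = _ := by ring

/-- the number of edges that meet `B` -/
private theorem ga_card_tch (h : Spl M Ls a k Q K c D) (B : Finset κ) :
    ((tch M B).card : ℝ) ≤ 2 * D * B.card := by
  classical
  have h1 : tch M B ⊆ B.biUnion fun R => univ.filter fun e => M R e ≠ 0 := by
    intro e he
    unfold tch at he
    rw [mem_filter] at he
    obtain ⟨_, R, hR, hRe⟩ := he
    rw [mem_biUnion]
    exact ⟨R, hR, by rw [mem_filter]; exact ⟨mem_univ _, hRe⟩⟩
  have h2 : (tch M B).card ≤ ∑ R ∈ B, (univ.filter fun e => M R e ≠ 0).card :=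
    (card_le_card h1).trans card_biUnion_le
  calc ((tch M B).card : ℝ) ≤ ((∑ R ∈ B, (univ.filter fun e => M R e ≠ 0).card : ℕ) : ℝ) := by
        exact_mod_cast h2
    _ = ∑ R ∈ B, ((univ.filter fun e => M R e ≠ 0).card : ℝ) := by push_cast; rfl
    _ ≤ ∑ _R ∈ B, 2 * D := sum_le_sum fun R _ => h.row R
    _ = 2 * D * B.card := by rw [sum_const, nsmul_eq_mul]; ring

/-- The lower bound near the main peak. -/
theorem lower (h : Spl M Ls a k Q K c D) (hD : 4 * k * Q ≤ D) {B : Finset κ} {t : κ → ℝ}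
    (ht : t ∈ bx B (1 / D) (tau k Q)) :
    2 ^ (∑ e, a e) * (Real.exp (-(80 * k ^ 2 * B.card)) * (gB M a B t *
      Real.exp (-(25 * ∑ e ∈ tch M B, (a e : ℝ) * Lm M (offB B t) e ^ 2)))) ≤ Phi M a t := by
  obtain ⟨ht1, ht2⟩ := ht
  have hk : (1 : ℝ) ≤ k := by exact_mod_cast h.k1
  have hQ : (1 : ℝ) ≤ Q := by exact_mod_cast h.Q1
  have hkQ : (1 : ℝ) ≤ (k : ℝ) * Q := by nlinarith
  have hD4 : 4 ≤ D := by linarith
  have hD0 : 0 < D := by linarith
  have hτ := ga_tau_pos h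
  have hDτ : 1 / D ≤ tau k Q := by
    unfold tau
    exact one_div_le_one_div_of_le (by positivity) hD
  have htτ : ∀ R, |t R| ≤ tau k Q := fun R => by
    by_cases hR : R ∈ B
    · exact (ht1 R hR).trans hDτ
    · exact ht2 R hR
  have hon : ∀ R, |onB B t R| ≤ 1 / D := fun R => by
    unfold onB
    by_cases hR : R ∈ B
    · rw [if_pos hR]; exact ht1 R hR
    · rw [if_neg hR, abs_zero]; positivity
  have hL : ∀ e, |Lm M t e| ≤ 1 / 4 := fun e =>
    (ga_Lm_abs h.m01 (h.col e) hτ.le htτ).trans (ga_k_tau h)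
  have hcos0 : ∀ e, 0 ≤ Real.cos (Real.pi * Lm M t e) := fun e => ga_cos_nonneg (hL e)
  have hLon : ∀ e, |Lm M (onB B t) e| ≤ k * (1 / D) := fun e =>
    ga_Lm_abs h.m01 (h.col e) (by positivity) hon
  rw [ga_Phi_eq]
  refine mul_le_mul_of_nonneg_left ?_ (by positivity)
  rw [ga_prod_split (M := M) B]
  have hB : ∏ e ∈ cpl (tch M B), Real.cos (Real.pi * Lm M t e) ^ a e =
      ∏ e ∈ cpl (tch M B), Real.cos (Real.pi * Lm M (offB B t) e) ^ a e :=
    prod_congr rfl fun e he => by rw [ga_Lm_off (mem_cpl.1 he) t]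
  have hB0 : 0 ≤ ∏ e ∈ cpl (tch M B), Real.cos (Real.pi * Lm M t e) ^ a e :=
    prod_nonneg fun e _ => pow_nonneg (hcos0 e) _
  have hb : 20 * ∑ e ∈ tch M B, (a e : ℝ) * Lm M (onB B t) e ^ 2 ≤ 80 * k ^ 2 * B.card := by
    have h1 : ∀ e ∈ tch M B, (a e : ℝ) * Lm M (onB B t) e ^ 2 ≤ 2 * (k * (1 / D)) ^ 2 := by
      intro e _
      have ha : (a e : ℝ) ≤ 2 := by exact_mod_cast h.a2 e
      have h3 : Lm M (onB B t) e ^ 2 ≤ (k * (1 / D)) ^ 2 := by
        rw [← sq_abs (Lm M (onB B t) e)]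
        exact pow_le_pow_left₀ (abs_nonneg _) (hLon e) 2
      exact mul_le_mul ha h3 (sq_nonneg _) (by norm_num)
    have h2 : ∑ e ∈ tch M B, (a e : ℝ) * Lm M (onB B t) e ^ 2 ≤
        (tch M B).card * (2 * (k * (1 / D)) ^ 2) := by
      calc _ ≤ ∑ _e ∈ tch M B, 2 * ((k : ℝ) * (1 / D)) ^ 2 := sum_le_sum h1
        _ = _ := by rw [sum_const, nsmul_eq_mul]
    have h3 := ga_card_tch h B
    have h4 : ((tch M B).card : ℝ) * (2 * (k * (1 / D)) ^ 2) ≤
        2 * D * B.card * (2 * (k * (1 / D)) ^ 2) := mul_le_mul_of_nonneg_right h3 (by positivity)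
    have h5 : 2 * D * (B.card : ℝ) * (2 * (k * (1 / D)) ^ 2) = 4 * k ^ 2 * B.card * (1 / D) := by
      field_simp
      ring
    have h6 : 4 * (k : ℝ) ^ 2 * B.card * (1 / D) ≤ 4 * k ^ 2 * B.card * 1 := by
      refine mul_le_mul_of_nonneg_left ?_ (by positivity)
      rw [div_le_one hD0]
      linarith
    linarith
  have hA : Real.exp (-(80 * k ^ 2 * B.card)) *
      Real.exp (-(20 * ∑ e ∈ tch M B, (a e : ℝ) * Lm M (offB B t) e ^ 2)) ≤
      ∏ e ∈ tch M B, Real.cos (Real.pi * Lm M t e) ^ a e := by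
    calc Real.exp (-(80 * k ^ 2 * B.card)) *
        Real.exp (-(20 * ∑ e ∈ tch M B, (a e : ℝ) * Lm M (offB B t) e ^ 2))
        ≤ Real.exp (-(20 * ∑ e ∈ tch M B, (a e : ℝ) * Lm M (onB B t) e ^ 2)) *
          Real.exp (-(20 * ∑ e ∈ tch M B, (a e : ℝ) * Lm M (offB B t) e ^ 2)) :=
          mul_le_mul_of_nonneg_right (Real.exp_le_exp.2 (neg_le_neg hb)) (Real.exp_pos _).le
      _ = ∏ e ∈ tch M B, Real.exp ((a e : ℝ) *
            (-(20 * Lm M (onB B t) e ^ 2 + 20 * Lm M (offB B t) e ^ 2))) := by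
          rw [← Real.exp_sum, ← Real.exp_add]
          congr 1
          rw [mul_sum, mul_sum, ← sum_neg_distrib, ← sum_neg_distrib, ← sum_add_distrib]
          exact sum_congr rfl fun e _ => by ring
      _ ≤ ∏ e ∈ tch M B, Real.cos (Real.pi * Lm M t e) ^ a e := by
          refine prod_le_prod (fun e _ => (Real.exp_pos _).le) fun e _ => ?_
          rw [Real.exp_nat_mul]
          refine pow_le_pow_left₀ (Real.exp_pos _).le ?_ _
          refine le_trans (Real.exp_le_exp.2 ?_) (le_cos (hL e))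
          rw [ga_Lm_split M B t e]
          nlinarith [sq_nonneg (Lm M (onB B t) e - Lm M (offB B t) e)]
  have hE : Real.exp (5 * ∑ e ∈ tch M B, (a e : ℝ) * Lm M (offB B t) e ^ 2) *
      Real.exp (-(25 * ∑ e ∈ tch M B, (a e : ℝ) * Lm M (offB B t) e ^ 2)) =
      Real.exp (-(20 * ∑ e ∈ tch M B, (a e : ℝ) * Lm M (offB B t) e ^ 2)) := by
    rw [← Real.exp_add]
    congr 1
    ring
  unfold gB
  rw [← hB]
  calc _ = Real.exp (-(80 * k ^ 2 * B.card)) *
        (Real.exp (5 * ∑ e ∈ tch M B, (a e : ℝ) * Lm M (offB B t) e ^ 2) *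
          Real.exp (-(25 * ∑ e ∈ tch M B, (a e : ℝ) * Lm M (offB B t) e ^ 2))) *
        ∏ e ∈ cpl (tch M B), Real.cos (Real.pi * Lm M t e) ^ a e := by ring
    _ ≤ _ := by
      rw [hE]
      exact mul_le_mul_of_nonneg_right hA hB0

end Pool.Agent.MP4a7415S
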