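import Pool.Agent.Lib.MP_4a7415_coS.Half

/-! # All indices up to half of the mean degree -/

namespace Pool.Agent.MP4a7415S

open Finset Filter Pool.Agent.MP4a7415

theorem grid_mono {n q r : ℕ} {lam δ : ℝ} (G G' : Finset (Finset (Fin n))) (hG : G ⊆ G')
    (h : G ∈ Good n q r lam δ) : G' ∈ Good n q r lam δ := by
  intro v hv hvl
  obtain ⟨S, hS, hSc⟩ := h v hv hvl
  exact ⟨S, hS.trans hG, hSc⟩

/-- Passing from a grid point to a nearby value. -/
theorem grid_near {n q r : ℕ} {lam lam0 δ δ0 η : ℝ} (h0 : 0 ≤ lam0)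
    (h1 : lam0 ≤ lam) (h2 : lam ≤ (1 + η) * lam0) (hδ : 0 ≤ δ) (hη : η ≤ 1)
    (hd : 2 * δ + η ≤ δ0) {G : Finset (Finset (Fin n))} (h : G ∈ Good n q r lam0 δ0) :
    G ∈ Good n q r lam δ := by
  intro v hv hvl
  refine h v hv fun R hR => ?_
  have e1 := abs_le.1 (hvl R hR)
  have e2 : δ * lam ≤ δ * (2 * lam0) :=
    mul_le_mul_of_nonneg_left (h2.trans (mul_le_mul_of_nonneg_right (by linarith) h0)) hδ
  have e3 : (2 * δ + η) * lam0 ≤ δ0 * lam0 := mul_le_mul_of_nonneg_right hd h0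
  rw [abs_le]
  constructor <;> nlinarith [e1.1, e1.2]

theorem grid_lim (k c : ℝ) : Tendsto (fun n : ℕ => 1 - k * (c * Real.log n + 1) / n) atTop
    (nhds 1) := by
  have h1 : Tendsto (fun n : ℕ => Real.log n / (n : ℝ)) atTop (nhds 0) :=
    (Real.isLittleO_log_id_atTop.tendsto_div_nhds_zero).comp tendsto_natCast_atTop_atTop
  have h2 : Tendsto (fun n : ℕ => (k : ℝ) / n) atTop (nhds 0) :=
    tendsto_const_div_atTop_nhds_zero_nat k
  have h3 := ((h1.const_mul (k * c)).add h2).const_sub 1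
  rw [mul_zero, add_zero, sub_zero] at h3
  refine h3.congr fun n => ?_
  ring

theorem all_low (q r : ℕ) (hr : 1 ≤ r) (hqr : r < q) : ∃ C δ : ℝ, 0 < C ∧ 0 < δ ∧
    ∃ f : ℕ → ℝ, Tendsto f atTop (nhds 1) ∧
    ∀ᶠ n : ℕ in atTop, ∀ p : ℝ, p ≤ 1 → C * (Real.log n / (n : ℝ) ^ (q - r)) ≤ p →
      f n ≤ PrE (Blk n q) p {G | ∀ lam : ℝ, C * Real.log n ≤ lam →
        lam ≤ p * (n - r).choose (q - r) / 2 → G ∈ Good n q r lam δ} := by
  obtain ⟨C, δ0, k0, hC, hδ0, hh⟩ := half q r hr hqr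
  obtain ⟨k, hk⟩ : ∃ k : ℝ, k = max k0 0 := ⟨_, rfl⟩
  have hk0 : 0 ≤ k := by rw [hk]; exact le_max_right _ _
  have hkk : k0 ≤ k := by rw [hk]; exact le_max_left _ _
  obtain ⟨η, hη⟩ : ∃ η : ℝ, η = min (δ0 / 4) 1 := ⟨_, rfl⟩
  have hη0 : 0 < η := by rw [hη]; exact lt_min (by positivity) one_pos
  have hη1 : η ≤ 1 := by rw [hη]; exact min_le_right _ _
  have hη4 : η ≤ δ0 / 4 := by rw [hη]; exact min_le_left _ _
  have hla : 0 < Real.log (1 + η) := Real.log_pos (by linarith)
  refine ⟨C, δ0 / 4, hC, by positivity,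
    fun n => 1 - k * ((q / Real.log (1 + η)) * Real.log n + 1) / n, grid_lim _ _, ?_⟩
  have hbig : ∀ᶠ n : ℕ in atTop, 1 ≤ C * Real.log n := by
    have h1 : Tendsto (fun n : ℕ => C * Real.log n) atTop atTop :=
      (Real.tendsto_log_atTop.comp tendsto_natCast_atTop_atTop).const_mul_atTop hC
    exact h1.eventually_ge_atTop 1
  filter_upwards [hh, hbig, eventually_ge_atTop (q + 2)] with n hh hbig hn p hp1 hp
  have hn1 : 1 ≤ n := by omega
  have hn0 : (0 : ℝ) < n := by exact_mod_cast (by omega : 0 < n)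
  have hn1' : (1 : ℝ) ≤ n := by exact_mod_cast hn1
  have hl0 : 0 < Real.log n := Real.log_pos (by exact_mod_cast (by omega : 1 < n))
  have hX0 : 0 < Real.log n / (n : ℝ) ^ (q - r) := by positivity
  have hp0 : 0 < p := lt_of_lt_of_le (mul_pos hC hX0) hp
  obtain ⟨N, hN⟩ : ∃ N : ℝ, N = ((n - r).choose (q - r) : ℝ) := ⟨_, rfl⟩
  have hN0 : 0 < N := by
    rw [hN]
    exact_mod_cast Nat.choose_pos (by omega)
  have hNn : N ≤ (n : ℝ) ^ (q - r) := by
    rw [hN]
    have h1 : (n - r).choose (q - r) ≤ n ^ (q - r) :=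
      (Nat.choose_le_pow (n - r) (q - r)).trans (Nat.pow_le_pow_left (by omega) _)
    exact_mod_cast h1
  have hNq : N ≤ (n : ℝ) ^ q := hNn.trans (pow_le_pow_right₀ hn1' (by omega))
  rw [← hN]
  simp only [← hN] at hh
  obtain ⟨L, hL⟩ : ∃ L : ℝ, L = C * Real.log n := ⟨_, rfl⟩
  rw [← hL] at hbig ⊢
  have hL0 : 0 < L := by linarith
  obtain ⟨J, hJ⟩ : ∃ J : ℕ, J = ⌊(q / Real.log (1 + η)) * Real.log n⌋₊ + 1 := ⟨_, rfl⟩
  have hbad : PrE (Blk n q) p {G | ∀ lam : ℝ, L ≤ lam → lam ≤ p * N / 2 →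
      G ∈ Good n q r lam (δ0 / 4)}ᶜ ≤ J * (k / n) := by
    refine (PrE_mono (B := {G | ∃ j ∈ (range J).filter (fun j => L * (1 + η) ^ j ≤ p * N / 2),
      G ∈ (Good n q r (L * (1 + η) ^ j) δ0)ᶜ}) hp0.le hp1 ?_).trans
      ((PrE_exists hp0.le hp1 _ _).trans ?_)
    · intro G hGq hG
      by_contra hcon
      refine hG fun lam hl1 hl2 => ?_
      have h1 : 1 ≤ lam / L := by
        rw [le_div_iff₀ hL0]
        linarith
      obtain ⟨j, hj1, hj2⟩ := exists_nat_pow_near h1 (show 1 < 1 + η by linarith)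
      rw [le_div_iff₀ hL0] at hj1
      rw [div_lt_iff₀ hL0] at hj2
      have hj3 : L * (1 + η) ^ j ≤ lam := by linarith
      have hj4 : lam ≤ (1 + η) * (L * (1 + η) ^ j) := by
        rw [pow_succ] at hj2
        linarith
      by_contra hno
      refine hcon ⟨j, mem_filter.2 ⟨mem_range.2 ?_, hj3.trans hl2⟩, fun hgo => hno ?_⟩
      · rw [hJ]
        refine Nat.lt_succ_of_le (Nat.le_floor ?_)
        have h2 : (1 + η) ^ j ≤ (n : ℝ) ^ q := by
          have h3 : 1 * (1 + η) ^ j ≤ L * (1 + η) ^ j :=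
            mul_le_mul_of_nonneg_right hbig (by positivity)
          have h4 : p * N ≤ 1 * (n : ℝ) ^ q := mul_le_mul hp1 hNq hN0.le zero_le_one
          have h5 : 0 < (n : ℝ) ^ q := by positivity
          linarith
        have h6 := Real.log_le_log (by positivity) h2
        rw [Real.log_pow, Real.log_pow] at h6
        rw [div_mul_eq_mul_div, le_div_iff₀ hla]
        exact h6
      · exact grid_near (by positivity) hj3 hj4 (by positivity) hη1 (by linarith) hgo
    · have h1 : ∀ j ∈ (range J).filter (fun j => L * (1 + η) ^ j ≤ p * N / 2),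
          PrE (Blk n q) p (Good n q r (L * (1 + η) ^ j) δ0)ᶜ ≤ k / n := by
        intro j hj
        have hj1 := (mem_filter.1 hj).2
        obtain ⟨y, hy⟩ : ∃ y : ℝ, y = L * (1 + η) ^ j := ⟨_, rfl⟩
        rw [← hy] at hj1 ⊢
        have hyL : L ≤ y := by
          rw [hy]
          have : L * 1 ≤ L * (1 + η) ^ j :=
            mul_le_mul_of_nonneg_left (one_le_pow₀ (by linarith)) hL0.le
          linarith
        obtain ⟨p', hp'⟩ : ∃ p' : ℝ, p' = 2 * y / N := ⟨_, rfl⟩
        have hp'0 : 0 ≤ p' := by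
          rw [hp']
          exact div_nonneg (by linarith) hN0.le
        have hp'p : p' ≤ p := by
          rw [hp', div_le_iff₀ hN0]
          linarith
        have hyp : p' * N / 2 = y := by
          rw [hp']
          field_simp
        have hp'C : C * (Real.log n / (n : ℝ) ^ (q - r)) ≤ p' := by
          rw [← mul_div_assoc, ← hL, hp']
          exact div_le_div₀ (by linarith) (by linarith) hN0 hNn
        have h2 := hh p' (hp'p.trans hp1) hp'C
        rw [hyp] at h2
        have h3 := PrE_mono_p (E := Blk n q) hp'0 hp'p hp1 (A := Good n q r y δ0)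
          (fun G G' hG _ h => grid_mono G G' hG h)
        have h4 := PrE_compl (Blk n q) p (Good n q r y δ0)
        have h5 : k0 / n ≤ k / n := div_le_div_of_nonneg_right hkk hn0.le
        linarith
      refine (sum_le_sum h1).trans ?_
      rw [sum_const, nsmul_eq_mul]
      refine mul_le_mul_of_nonneg_right ?_ (by positivity)
      have : ((range J).filter (fun j => L * (1 + η) ^ j ≤ p * N / 2)).card ≤ J := by
        refine (card_filter_le _ _).trans ?_
        rw [card_range]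
      exact_mod_cast this
  have hcompl := PrE_compl (Blk n q) p {G | ∀ lam : ℝ, L ≤ lam → lam ≤ p * N / 2 →
      G ∈ Good n q r lam (δ0 / 4)}
  have hJ1 : (J : ℝ) ≤ (q / Real.log (1 + η)) * Real.log n + 1 := by
    rw [hJ]
    push_cast
    have := Nat.floor_le (show 0 ≤ (q / Real.log (1 + η)) * Real.log n by positivity)
    linarith
  have hJ2 : (J : ℝ) * (k / n) ≤ k * ((q / Real.log (1 + η)) * Real.log n + 1) / n := by
    have : k * ((q / Real.log (1 + η)) * Real.log n + 1) / n =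
      ((q / Real.log (1 + η)) * Real.log n + 1) * (k / n) := by ring
    rw [this]
    exact mul_le_mul_of_nonneg_right hJ1 (by positivity)
  linarith

end Pool.Agent.MP4a7415S
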