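import Pool.Agent.Lib.MP_4a7415_coI.MonoP

/-! # Splitting a random set into two random sets -/

namespace Pool.Agent.MP4a7415S

open Finset Pool.Agent.MP4a7415

theorem thin {β : Type*} [DecidableEq β] (E : Finset β) {p α : ℝ} (h0 : 0 ≤ p) (h1 : p ≤ 1)
    (hα0 : 0 ≤ α) (hα1 : α ≤ 1) (A B : Set (Finset β)) :
    PrE E p {G | ¬ ∃ F ⊆ G, F ∈ A ∧ G \ F ∈ B} ≤
      PrE E (p * α) Aᶜ + PrE E (p * (1 - α)) Bᶜ := by
  induction E using Finset.induction_on generalizing A B with
  | empty =>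
    rw [PrE, PrE, PrE, powerset_empty, sum_singleton, sum_singleton, sum_singleton]
    have hw : ∀ q : ℝ, wt (∅ : Finset β).card q (∅ : Finset β) = 1 := fun q => by rw [wt]; simp
    by_cases hA : (∅ : Finset β) ∈ A
    · by_cases hB : (∅ : Finset β) ∈ B
      · rw [Set.indicator_of_notMem, Set.indicator_of_notMem, Set.indicator_of_notMem]
        · simp
        · simpa using hB
        · simpa using hA
        · simp [hA, hB]
      · rw [Set.indicator_of_mem (show (∅ : Finset β) ∈ Bᶜ from hB), hw]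
        have h2 : 0 ≤ Set.indicator Aᶜ (wt (∅ : Finset β).card (p * α)) ∅ :=
          Set.indicator_apply_nonneg fun _ => by rw [hw]; exact zero_le_one
        have h3 : Set.indicator {G : Finset β | ¬ ∃ F ⊆ G, F ∈ A ∧ G \ F ∈ B}
            (wt (∅ : Finset β).card p) ∅ ≤ 1 := Set.indicator_apply_le' (fun _ => (hw p).le) fun _ => zero_le_one
        linarith
    · rw [Set.indicator_of_mem (show (∅ : Finset β) ∈ Aᶜ from hA), hw]
      have h2 : 0 ≤ Set.indicator Bᶜ (wt (∅ : Finset β).card (p * (1 - α))) ∅ :=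
        Set.indicator_apply_nonneg fun _ => by rw [hw]; exact zero_le_one
      have h3 : Set.indicator {G : Finset β | ¬ ∃ F ⊆ G, F ∈ A ∧ G \ F ∈ B}
          (wt (∅ : Finset β).card p) ∅ ≤ 1 := Set.indicator_apply_le' (fun _ => (hw p).le) fun _ => zero_le_one
      linarith
  | insert a E ha ih =>
    rw [PrE_insert ha, PrE_insert ha, PrE_insert ha]
    have e1 : {G : Finset β | insert a G ∈ Aᶜ} = {G | insert a G ∈ A}ᶜ := rfl
    have e2 : {G : Finset β | insert a G ∈ Bᶜ} = {G | insert a G ∈ B}ᶜ := rfl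
    rw [e1, e2]
    set Aa : Set (Finset β) := {G | insert a G ∈ A} with hAa
    set Ba : Set (Finset β) := {G | insert a G ∈ B} with hBa
    have i0 := ih A B
    have i1 := ih Aa B
    have i2 := ih A Ba
    have j1 : PrE E p {G | insert a G ∈ {G : Finset β | ¬ ∃ F ⊆ G, F ∈ A ∧ G \ F ∈ B}} ≤
        PrE E p {G | ¬ ∃ F ⊆ G, F ∈ Aa ∧ G \ F ∈ B} := by
      refine PrE_mono h0 h1 fun G hG hGA => ?_
      rintro ⟨F, hF, hFA, hFB⟩
      refine hGA ⟨insert a F, insert_subset_insert a hF, hFA, ?_⟩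
      have haG : a ∉ G := fun h => ha (hG h)
      have : insert a G \ insert a F = G \ F := by
        ext x
        simp only [mem_sdiff, mem_insert, not_or]
        constructor
        · rintro ⟨hx | hx, hx1, hx2⟩
          · exact absurd hx hx1
          · exact ⟨hx, hx2⟩
        · rintro ⟨hx, hx2⟩
          exact ⟨Or.inr hx, fun h => haG (h ▸ hx), hx2⟩
      rw [this]
      exact hFB
    have j2 : PrE E p {G | insert a G ∈ {G : Finset β | ¬ ∃ F ⊆ G, F ∈ A ∧ G \ F ∈ B}} ≤
        PrE E p {G | ¬ ∃ F ⊆ G, F ∈ A ∧ G \ F ∈ Ba} := by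
      refine PrE_mono h0 h1 fun G hG hGA => ?_
      rintro ⟨F, hF, hFA, hFB⟩
      refine hGA ⟨F, hF.trans (subset_insert a G), hFA, ?_⟩
      have haG : a ∉ G := fun h => ha (hG h)
      have haF : a ∉ F := fun h => haG (hF h)
      rw [insert_sdiff_of_notMem _ haF]
      exact hFB
    set X := PrE E p {G | insert a G ∈ {G : Finset β | ¬ ∃ F ⊆ G, F ∈ A ∧ G \ F ∈ B}}
    have k1 : α * X ≤ α * (PrE E (p * α) Aaᶜ + PrE E (p * (1 - α)) Bᶜ) :=
      mul_le_mul_of_nonneg_left (j1.trans i1) hα0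
    have k2 : (1 - α) * X ≤ (1 - α) * (PrE E (p * α) Aᶜ + PrE E (p * (1 - α)) Baᶜ) :=
      mul_le_mul_of_nonneg_left (j2.trans i2) (by linarith)
    have k3 : X ≤ α * (PrE E (p * α) Aaᶜ + PrE E (p * (1 - α)) Bᶜ) +
        (1 - α) * (PrE E (p * α) Aᶜ + PrE E (p * (1 - α)) Baᶜ) := by
      have : X = α * X + (1 - α) * X := by ring
      rw [this]
      exact add_le_add k1 k2
    have k4 := mul_le_mul_of_nonneg_left k3 h0
    have k5 := mul_le_mul_of_nonneg_left i0 (by linarith : 0 ≤ 1 - p)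
    refine (add_le_add k5 k4).trans (le_of_eq ?_)
    ring

end Pool.Agent.MP4a7415S
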