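import Pool.Agent.Lib.MP_4a7415_coS.Halves
import Pool.Agent.Lib.MP_4a7415_coI.Good12

/-! # The good events in a convenient form -/

namespace Pool.Agent.MP4a7415S

open Finset Filter Pool.Agent.MP4a7415

/-- The mean degree is at least a constant times `log n`. -/
theorem D_large (q r : ℕ) (hqr : r < q) {C : ℝ} (hC : 0 < C) : ∃ C' : ℝ, 0 < C' ∧
    ∀ᶠ n : ℕ in atTop, ∀ p : ℝ, C' * (Real.log n / (n : ℝ) ^ (q - r)) ≤ p →
      0 < p ∧ C * Real.log n ≤ p * (n - r).choose (q - r) := by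
  refine ⟨C * (2 ^ (q - r) * (q - r).factorial), by positivity, ?_⟩
  filter_upwards [eventually_ge_atTop (2 * q + 2)] with n hn p hp
  have hn2 : 2 ≤ n := by omega
  have hn0 : (0 : ℝ) < n := by exact_mod_cast (by omega : 0 < n)
  have hl0 : 0 < Real.log n := Real.log_pos (by exact_mod_cast hn2)
  have hp0 : 0 < p := lt_of_lt_of_le (by positivity) hp
  refine ⟨hp0, ?_⟩
  have h2 := Nat.pow_le_choose (α := ℝ) (q - r) (n - r)
  have h3 : ((n : ℝ) / 2) ^ (q - r) ≤ (((n - r + 1 - (q - r) : ℕ) : ℝ)) ^ (q - r) := by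
    refine pow_le_pow_left₀ (by positivity) ?_ _
    have : n ≤ 2 * (n - r + 1 - (q - r)) := by omega
    have : (n : ℝ) ≤ 2 * ((n - r + 1 - (q - r) : ℕ) : ℝ) := by exact_mod_cast this
    linarith
  have hf : (0 : ℝ) < (q - r).factorial := by exact_mod_cast Nat.factorial_pos _
  have h4 : ((n : ℝ) / 2) ^ (q - r) / (q - r).factorial ≤ (n - r).choose (q - r) :=
    (div_le_div_of_nonneg_right h3 hf.le).trans h2
  have h5 := mul_le_mul hp h4 (by positivity) hp0.le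
  refine le_trans (le_of_eq ?_) h5
  rw [div_pow]
  field_simp

/-- Coercivity on the torus holds with high probability. -/
theorem coe_prob (q r : ℕ) (hr : 1 ≤ r) (hqr : r < q) : ∃ c C : ℝ, 0 < c ∧ 0 < C ∧
    ∀ᶠ n : ℕ in atTop, ∀ p : ℝ, p ≤ 1 → C * (Real.log n / (n : ℝ) ^ (q - r)) ≤ p →
      PrE (Blk n q) p {G | ¬ Coe n q r (c * (p * (n - r).choose (q - r))) G} ≤ 1 / n := by
  obtain ⟨K, c, κ, hc, hκ, hTC⟩ := torus_coer q r hr hqr
  obtain ⟨C3, hC3, h3⟩ := good3_prob q r K hr hqr c hc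
  refine ⟨κ, C3, hκ, hC3, ?_⟩
  filter_upwards [hTC, h3, eventually_ge_atTop 2] with n hTC h3 hn p hp1 hp
  have hn0 : (0 : ℝ) < n := by exact_mod_cast (by omega : 0 < n)
  have hl0 : 0 < Real.log n := Real.log_pos (by exact_mod_cast (by omega : 1 < n))
  have hp0 : 0 < p := lt_of_lt_of_le (by positivity) hp
  refine (PrE_mono hp0.le hp1 fun G _ hG => ?_).trans (h3 p hp1 hp)
  intro hG3
  exact hG fun y hy => hTC p hp0.le G hG3 y hy

/-- The degrees are close to their mean with high probability. -/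
theorem deg_prob (q r : ℕ) (hr : 1 ≤ r) (hqr : r < q) {δ : ℝ} (hδ0 : 0 < δ) (hδ1 : δ ≤ 2) :
    ∃ C : ℝ, 0 < C ∧ ∀ᶠ n : ℕ in atTop, ∀ p : ℝ, p ≤ 1 →
      C * (Real.log n / (n : ℝ) ^ (q - r)) ≤ p →
      PrE (Blk n q) p {G | ¬ ∀ R ∈ Blk n r, |((G.filter fun e => R ⊆ e).card : ℝ) -
        p * (n - r).choose (q - r)| ≤ δ * (p * (n - r).choose (q - r))} ≤ 3 / n := by
  obtain ⟨C, hC, h⟩ := good12_prob hr hqr hδ0 hδ1
  refine ⟨C, hC, ?_⟩
  filter_upwards [h, eventually_ge_atTop 2] with n h hn p hp1 hp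
  have hn0 : (0 : ℝ) < n := by exact_mod_cast (by omega : 0 < n)
  have hl0 : 0 < Real.log n := Real.log_pos (by exact_mod_cast (by omega : 1 < n))
  have hp0 : 0 < p := lt_of_lt_of_le (by positivity) hp
  refine (PrE_mono hp0.le hp1 fun G hGq hG => ?_).trans (h p hp1 hp)
  rintro ⟨-, hG2⟩
  refine hG fun R hR => ?_
  have h1 := hG2 R hR
  have h2 : G ∩ (Blk n q).filter (fun e => R ⊆ e) = G.filter (fun e => R ⊆ e) := by
    ext e
    simp only [mem_inter, mem_filter]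
    constructor
    · rintro ⟨h3, -, h4⟩
      exact ⟨h3, h4⟩
    · rintro ⟨h3, h4⟩
      exact ⟨h3, hGq h3, h4⟩
  rwa [h2] at h1

end Pool.Agent.MP4a7415S
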