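import Pool.Agent.Lib.MP_4a7415_coS.Chain
import Pool.Agent.Lib.MP_4a7415_coS.Thin
import Pool.Agent.Lib.MP_4a7415_coS.Tools

/-! # Simple decompositions at half of the mean degree -/

namespace Pool.Agent.MP4a7415S

open Finset Filter Pool.Agent.MP4a7415

/-- The set of hypergraphs that contain a simple decomposition of every divisible target close to
`lam`. -/
def Good (n q r : ℕ) (lam δ : ℝ) : Set (Finset (Finset (Fin n))) :=
  {G | ∀ v : Finset (Fin n) → ℕ, Divi n q r v →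
    (∀ R ∈ Blk n r, |(v R : ℝ) - lam| ≤ δ * lam) →
    ∃ S ⊆ G, ∀ R ∈ Blk n r, (S.filter fun e => R ⊆ e).card = v R}

/-- The degrees of a hypergraph satisfy the divisibility conditions. -/
theorem half_divi {n q r : ℕ} {G : Finset (Finset (Fin n))} (hG : G ⊆ Blk n q) :
    Divi n q r (fun R => (G.filter fun e => R ⊆ e).card) := by
  intro T hT
  have h1 : ∑ R ∈ (Blk n r).filter (fun R => T ⊆ R), (G.filter fun e => R ⊆ e).card =
      ∑ e ∈ G, (((Blk n r).filter (fun R => T ⊆ R)).filter fun R => R ⊆ e).card := by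
    simp only [card_filter]
    rw [Finset.sum_comm]
  rw [h1]
  refine dvd_sum fun e he => ?_
  have hec : e.card = q := (mem_powersetCard.1 (hG he)).2
  by_cases hTe : T ⊆ e
  · have h2 : ((Blk n r).filter (fun R => T ⊆ R)).filter (fun R => R ⊆ e) =
        (powersetCard r e).filter (fun R => T ⊆ R) := by
      ext R
      simp only [mem_filter, mem_powersetCard, subset_univ, true_and]
      tauto
    rw [h2, card_sup hTe hT.le, hec]
    exact dvd_rfl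
  · have h2 : ((Blk n r).filter (fun R => T ⊆ R)).filter (fun R => R ⊆ e) = ∅ := by
      rw [Finset.filter_eq_empty_iff]
      intro R hR hRe
      exact hTe ((mem_filter.1 hR).2.trans hRe)
    rw [h2, card_empty]
    exact dvd_zero _

/-- The target of the last step. -/
def half_target {n : ℕ} (I : ℕ) (v : Finset (Fin n) → ℕ) (A₁ A₂ A₃ : Finset (Finset (Fin n)))
    (R : Finset (Fin n)) : ℕ :=
  2 ^ I * (8 * v R - (4 * (A₁.filter fun e => R ⊆ e).card + 2 * (A₂.filter fun e => R ⊆ e).card +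
    3 * (A₃.filter fun e => R ⊆ e).card))

theorem half_target_divi {n q r I : ℕ} {v : Finset (Fin n) → ℕ}
    {A₁ A₂ A₃ : Finset (Finset (Fin n))} (h1 : A₁ ⊆ Blk n q) (h2 : A₂ ⊆ Blk n q)
    (h3 : A₃ ⊆ Blk n q) (hv : Divi n q r v)
    (hle : ∀ R ∈ Blk n r, 4 * (A₁.filter fun e => R ⊆ e).card +
      2 * (A₂.filter fun e => R ⊆ e).card + 3 * (A₃.filter fun e => R ⊆ e).card ≤ 8 * v R) :
    Divi n q r (half_target I v A₁ A₂ A₃) := by
  intro T hT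
  have e1 := half_divi (r := r) h1 T hT
  have e2 := half_divi (r := r) h2 T hT
  have e3 := half_divi (r := r) h3 T hT
  have e4 := hv T hT
  simp only [half_target]
  rw [← mul_sum]
  refine Dvd.dvd.mul_left ?_ _
  have h5 : ∑ R ∈ (Blk n r).filter (fun R => T ⊆ R),
      (8 * v R - (4 * (A₁.filter fun e => R ⊆ e).card + 2 * (A₂.filter fun e => R ⊆ e).card +
        3 * (A₃.filter fun e => R ⊆ e).card)) +
      (4 * ∑ R ∈ (Blk n r).filter (fun R => T ⊆ R), (A₁.filter fun e => R ⊆ e).card +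
        2 * ∑ R ∈ (Blk n r).filter (fun R => T ⊆ R), (A₂.filter fun e => R ⊆ e).card +
        3 * ∑ R ∈ (Blk n r).filter (fun R => T ⊆ R), (A₃.filter fun e => R ⊆ e).card) =
      8 * ∑ R ∈ (Blk n r).filter (fun R => T ⊆ R), v R := by
    rw [mul_sum, mul_sum, mul_sum, mul_sum, ← sum_add_distrib, ← sum_add_distrib,
      ← sum_add_distrib]
    refine sum_congr rfl fun R hR => ?_
    exact Nat.sub_add_cancel (hle R (mem_filter.1 hR).1)
  have h6 : bb q r T.card ∣ 4 * ∑ R ∈ (Blk n r).filter (fun R => T ⊆ R),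
        (A₁.filter fun e => R ⊆ e).card +
        2 * ∑ R ∈ (Blk n r).filter (fun R => T ⊆ R), (A₂.filter fun e => R ⊆ e).card +
        3 * ∑ R ∈ (Blk n r).filter (fun R => T ⊆ R), (A₃.filter fun e => R ⊆ e).card :=
    dvd_add (dvd_add (e1.mul_left _) (e2.mul_left _)) (e3.mul_left _)
  have h7 := e4.mul_left 8
  rw [← h5] at h7
  exact (Nat.dvd_add_left h6).1 h7

/-- Monotonicity of the coercivity. -/
theorem Coe.mono {n q r : ℕ} {b b' : ℝ} {A : Finset (Finset (Fin n))} (h : Coe n q r b A)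
    (hb : b' ≤ b) : Coe n q r b' A := fun y hy =>
  (mul_le_mul_of_nonneg_right hb (sum_nonneg fun _ _ => sq_nonneg _)).trans (h y hy)

/-- The good event for the small parts. -/
def half_A (n q r : ℕ) (b D δ : ℝ) : Set (Finset (Finset (Fin n))) :=
  {F | Coe n q r b F ∧ ∀ R ∈ Blk n r,
    |((F.filter fun e => R ⊆ e).card : ℝ) - D / 8| ≤ δ * (D / 8)}

/-- The good event for the large part. -/
def half_B (n q r : ℕ) (b D C δ : ℝ) : Set (Finset (Finset (Fin n))) :=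
  {F | Coe n q r b F ∧ ∀ lam : ℝ, C * (5 / 8 * D * Real.log n) ≤ lam →
    ∀ v : Finset (Fin n) → ℕ, Divi n q r v → (∀ R ∈ Blk n r, |(v R : ℝ) - lam| ≤ δ * lam) →
    ∃ W : Finset (Fin n) → ℕ,
      (∀ R : Finset (Fin n), R.card = r → ∑ e ∈ F with R ⊆ e, W e = v R) ∧
      ∀ e ∈ F, |(W e : ℝ) * (5 / 8 * D) - lam| ≤ 1 / 4 * lam}

theorem half_det {n q r K : ℕ} {c D C C0 δ δ' : ℝ} (hn : 2 ≤ n) (hD0 : 0 < D)
    (hδ0 : 0 < δ)
    (hδ' : 4 * δ ≤ δ') (hδ4 : δ ≤ 1 / 4)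
    (hPh : ∀ v : Finset (Fin n) → ℕ, Divi n q r v → Ph n q r (fun R => (v R : ℤ)))
    (hch : ∀ D : ℝ, C * Real.log n ≤ D →
      ∀ G ⊆ Blk n q, ∀ A₁ ⊆ G, ∀ A₂ ⊆ G \ A₁, ∀ A₃ ⊆ (G \ A₁) \ A₂,
      (∀ R ∈ Blk n r, ((G.filter (fun e => R ⊆ e)).card : ℝ) ≤ 2 * D) →
      Coe n q r (c * D) A₁ → Coe n q r (c * D) A₂ → Coe n q r (c * D) A₃ →
      Coe n q r (c * D) (((G \ A₁) \ A₂) \ A₃) →
      Clo n q r K (c / (10 * q.choose r) * D) G →
      ∀ v : Finset (Fin n) → ℤ, Ph n q r v → ∀ (I : ℕ) (W : Finset (Fin n) → ℤ),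
      (∀ R ∈ Blk n r, ∑ e ∈ ((G \ A₁) \ A₂) \ A₃ with R ⊆ e, W e = 2 ^ I * (8 * v R -
        4 * (A₁.filter fun e => R ⊆ e).card - 2 * (A₂.filter fun e => R ⊆ e).card -
        3 * (A₃.filter fun e => R ⊆ e).card)) →
      (∀ e ∈ ((G \ A₁) \ A₂) \ A₃, 2 * 2 ^ I ≤ W e ∧ W e ≤ 6 * 2 ^ I) →
      ∃ S ⊆ G, ∀ R ∈ Blk n r, ((S.filter fun e => R ⊆ e).card : ℤ) = v R)
    (hD : C * Real.log n ≤ D) {G : Finset (Finset (Fin n))} (hG : G ⊆ Blk n q)
    (hdeg : ∀ R ∈ Blk n r, |((G.filter fun e => R ⊆ e).card : ℝ) - D| ≤ 1 * D)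
    (hcl : Clo n q r K (c / (10 * q.choose r) * D) G)
    {A₁ A₂ A₃ : Finset (Finset (Fin n))} (h1 : A₁ ⊆ G) (h2 : A₂ ⊆ G \ A₁)
    (h3 : A₃ ⊆ (G \ A₁) \ A₂) (g1 : A₁ ∈ half_A n q r (c * D) D δ)
    (g2 : A₂ ∈ half_A n q r (c * D) D δ) (g3 : A₃ ∈ half_A n q r (c * D) D δ)
    (g4 : ((G \ A₁) \ A₂) \ A₃ ∈ half_B n q r (c * D) D C0 δ') :
    G ∈ Good n q r (D / 2) δ := by
  intro v hv hvl
  have hl0 : 0 < Real.log n := Real.log_pos (by exact_mod_cast hn)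
  obtain ⟨I, hI⟩ : ∃ I : ℕ, C0 * Real.log n ≤ 2 ^ I := by
    obtain ⟨I, hI⟩ := pow_unbounded_of_one_lt (C0 * Real.log n) (one_lt_two : (1 : ℝ) < 2)
    exact ⟨I, hI.le⟩
  obtain ⟨P, hP⟩ : ∃ P : ℝ, P = 2 ^ I := ⟨_, rfl⟩
  have hP0 : 0 < P := by rw [hP]; positivity
  have hreal : ∀ R ∈ Blk n r, |(8 * (v R : ℝ) - (4 * ((A₁.filter fun e => R ⊆ e).card : ℝ) +
      2 * ((A₂.filter fun e => R ⊆ e).card : ℝ) + 3 * ((A₃.filter fun e => R ⊆ e).card : ℝ))) -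
      23 / 8 * D| ≤ 4 * δ * (23 / 8 * D) := by
    intro R hR
    have a0 := abs_le.1 (hvl R hR)
    have a1 := abs_le.1 (g1.2 R hR)
    have a2 := abs_le.1 (g2.2 R hR)
    have a3 := abs_le.1 (g3.2 R hR)
    have hδD : 0 < δ * D := mul_pos hδ0 hD0
    rw [abs_le]
    constructor <;> nlinarith [a0.1, a0.2, a1.1, a1.2, a2.1, a2.2, a3.1, a3.2]
  have hle : ∀ R ∈ Blk n r, 4 * (A₁.filter fun e => R ⊆ e).card +
      2 * (A₂.filter fun e => R ⊆ e).card + 3 * (A₃.filter fun e => R ⊆ e).card ≤ 8 * v R := by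
    intro R hR
    have a0 := (abs_le.1 (hreal R hR)).1
    have hδD : 4 * δ * (23 / 8 * D) ≤ 1 * (23 / 8 * D) :=
      mul_le_mul_of_nonneg_right (by linarith) (by positivity)
    have : (4 * ((A₁.filter fun e => R ⊆ e).card : ℝ) +
      2 * ((A₂.filter fun e => R ⊆ e).card : ℝ) + 3 * ((A₃.filter fun e => R ⊆ e).card : ℝ)) ≤
      8 * (v R : ℝ) := by linarith
    exact_mod_cast this
  have hA1 : A₁ ⊆ Blk n q := h1.trans hG
  have hA2 : A₂ ⊆ Blk n q := (h2.trans sdiff_subset).trans hG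
  have hA3 : A₃ ⊆ Blk n q := ((h3.trans sdiff_subset).trans sdiff_subset).trans hG
  obtain ⟨W, hW1, hW2⟩ := g4.2 (P * (23 / 8 * D)) (by
    have e1 : C0 * (5 / 8 * D * Real.log n) = (C0 * Real.log n) * (5 / 8 * D) := by ring
    rw [e1]
    exact mul_le_mul (by rw [hP]; exact hI) (by linarith) (by positivity) hP0.le)
    (half_target I v A₁ A₂ A₃) (half_target_divi hA1 hA2 hA3 hv hle) (by
    intro R hR
    rw [half_target, Nat.cast_mul, Nat.cast_sub (hle R hR)]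
    push_cast
    rw [← hP, ← mul_sub, abs_mul, abs_of_pos hP0]
    have e1 := mul_le_mul_of_nonneg_left (hreal R hR) hP0.le
    refine e1.trans ?_
    have e2 : P * (4 * δ * (23 / 8 * D)) = 4 * δ * (P * (23 / 8 * D)) := by ring
    rw [e2]
    exact mul_le_mul_of_nonneg_right hδ' (by positivity))
  obtain ⟨S, hS, hSc⟩ := hch D hD G hG A₁ h1 A₂ h2 A₃ h3
    (fun R hR => by
      have := (abs_le.1 (hdeg R hR)).2
      linarith) g1.1 g2.1 g3.1 g4.1 hcl (fun R => (v R : ℤ)) (hPh v hv) I (fun e => (W e : ℤ))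
    (fun R hR => by
      have e1 := hW1 R (mem_powersetCard.1 hR).2
      rw [← Nat.cast_sum, e1, half_target, Nat.cast_mul, Nat.cast_sub (hle R hR)]
      push_cast
      ring)
    (fun e he => by
      have e1 := abs_le.1 (hW2 e he)
      have hPD : 0 < P * D := mul_pos hP0 hD0
      have e2 : 2 * P * D ≤ (W e : ℝ) * D := by nlinarith [e1.1]
      have e3 : (W e : ℝ) * D ≤ 6 * P * D := by nlinarith [e1.2]
      have e4 : 2 * P ≤ (W e : ℝ) := le_of_mul_le_mul_right e2 hD0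
      have e5 : (W e : ℝ) ≤ 6 * P := le_of_mul_le_mul_right e3 hD0
      rw [hP] at e4 e5
      exact ⟨by exact_mod_cast e4, by exact_mod_cast e5⟩)
  exact ⟨S, hS, fun R hR => by exact_mod_cast hSc R hR⟩

/-- Splitting off three small parts. -/
theorem half_thin {β : Type*} [DecidableEq β] (E : Finset β) {p : ℝ} (h0 : 0 ≤ p) (h1 : p ≤ 1)
    (A B : Set (Finset β)) :
    PrE E p {G | ¬ ∃ A₁ ⊆ G, A₁ ∈ A ∧ ∃ A₂ ⊆ G \ A₁, A₂ ∈ A ∧ ∃ A₃ ⊆ (G \ A₁) \ A₂, A₃ ∈ A ∧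
      ((G \ A₁) \ A₂) \ A₃ ∈ B} ≤
      3 * PrE E (p / 8) Aᶜ + PrE E (5 / 8 * p) Bᶜ := by
  have t1 := thin E h0 h1 (show (0 : ℝ) ≤ 1 / 8 by norm_num) (by norm_num) A
    {G | ∃ A₂ ⊆ G, A₂ ∈ A ∧ ∃ A₃ ⊆ G \ A₂, A₃ ∈ A ∧ (G \ A₂) \ A₃ ∈ B}
  have t2 := thin E (p := p * (1 - 1 / 8)) (by linarith) (by linarith)
    (show (0 : ℝ) ≤ 1 / 7 by norm_num) (by norm_num) A
    {G | ∃ A₃ ⊆ G, A₃ ∈ A ∧ G \ A₃ ∈ B}
  have t3 := thin E (p := p * (1 - 1 / 8) * (1 - 1 / 7)) (by linarith) (by linarith)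
    (show (0 : ℝ) ≤ 1 / 6 by norm_num) (by norm_num) A B
  have e1 : p * (1 / 8) = p / 8 := by ring
  have e2 : p * (1 - 1 / 8) * (1 / 7) = p / 8 := by ring
  have e3 : p * (1 - 1 / 8) * (1 - 1 / 7) * (1 / 6) = p / 8 := by ring
  have e4 : p * (1 - 1 / 8) * (1 - 1 / 7) * (1 - 1 / 6) = 5 / 8 * p := by ring
  rw [e1] at t1
  rw [e2] at t2
  rw [e3, e4] at t3
  have f1 : {G : Finset β | ∃ A₂ ⊆ G, A₂ ∈ A ∧ ∃ A₃ ⊆ G \ A₂, A₃ ∈ A ∧ (G \ A₂) \ A₃ ∈ B}ᶜ =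
      {G : Finset β | ¬ ∃ A₂ ⊆ G, A₂ ∈ A ∧ G \ A₂ ∈ {G | ∃ A₃ ⊆ G, A₃ ∈ A ∧ G \ A₃ ∈ B}} := rfl
  have f2 : {G : Finset β | ∃ A₃ ⊆ G, A₃ ∈ A ∧ G \ A₃ ∈ B}ᶜ =
      {G : Finset β | ¬ ∃ A₃ ⊆ G, A₃ ∈ A ∧ G \ A₃ ∈ B} := rfl
  rw [f1] at t1
  rw [f2] at t2
  have t4 : PrE E p {G | ¬ ∃ A₁ ⊆ G, A₁ ∈ A ∧ ∃ A₂ ⊆ G \ A₁, A₂ ∈ A ∧
      ∃ A₃ ⊆ (G \ A₁) \ A₂, A₃ ∈ A ∧ ((G \ A₁) \ A₂) \ A₃ ∈ B} ≤
      PrE E (p / 8) Aᶜ + PrE E (p * (1 - 1 / 8))
      {G : Finset β | ¬ ∃ A₂ ⊆ G, A₂ ∈ A ∧ G \ A₂ ∈ {G | ∃ A₃ ⊆ G, A₃ ∈ A ∧ G \ A₃ ∈ B}} := t1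
  linarith

theorem half (q r : ℕ) (hr : 1 ≤ r) (hqr : r < q) : ∃ C δ k : ℝ, 0 < C ∧ 0 < δ ∧
    ∀ᶠ n : ℕ in atTop, ∀ p : ℝ, p ≤ 1 → C * (Real.log n / (n : ℝ) ^ (q - r)) ≤ p →
      1 - k / (n : ℝ) ≤ PrE (Blk n q) p (Good n q r (p * (n - r).choose (q - r) / 2) δ) := by
  obtain ⟨c0, Cc, hc0, hCc, hcoe⟩ := coe_prob q r hr hqr
  obtain ⟨Ci, hCi, δi, hδi, ki, hint⟩ := int_bound (q := q) (r := r) hr hqr
    (show (0 : ℝ) < 1 / 4 by norm_num)
  obtain ⟨c, hc⟩ : ∃ c : ℝ, c = c0 / 8 := ⟨_, rfl⟩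
  have hc0' : 0 < c := by rw [hc]; positivity
  have hk0 : (0 : ℝ) < q.choose r := by exact_mod_cast Nat.choose_pos hqr.le
  obtain ⟨K, Ck, hCk, hclo⟩ := clo_prob q r hr hqr (show 0 < c / (10 * q.choose r) by positivity)
  obtain ⟨δ, hδ⟩ : ∃ δ : ℝ, δ = min (δi / 4) (1 / 4) := ⟨_, rfl⟩
  have hδ0 : 0 < δ := by
    rw [hδ]
    exact lt_min (by positivity) (by norm_num)
  have hδ1 : δ ≤ δi / 4 := by
    rw [hδ]
    exact min_le_left _ _
  have hδ4 : δ ≤ 1 / 4 := by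
    rw [hδ]
    exact min_le_right _ _
  obtain ⟨C1, hC1, hdeg1⟩ := deg_prob q r hr hqr hδ0 (by linarith)
  obtain ⟨C2, hC2, hdeg2⟩ := deg_prob q r hr hqr (show (0 : ℝ) < 1 by norm_num) (by norm_num)
  obtain ⟨Ch, hCh, hchain⟩ := chain q r hr hqr K hc0'
  obtain ⟨Cl, hCl, hlarge⟩ := D_large q r hqr (show 0 < Ch by linarith)
  refine ⟨8 * (Cc + Ci + Ck + C1 + C2 + Cl), δ, 17 + ki, by positivity, hδ0, ?_⟩
  filter_upwards [hcoe, hint, hclo, hdeg1, hdeg2, hchain, hlarge, Ph_of_Divi q r hr hqr,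
    eventually_ge_atTop 2] with n hcoe hint hclo hdeg1 hdeg2 hchain hlarge hPh hn p hp1 hp
  have hn0 : (0 : ℝ) < n := by exact_mod_cast (by omega : 0 < n)
  have hl0 : 0 < Real.log n := Real.log_pos (by exact_mod_cast (by omega : 1 < n))
  obtain ⟨X, hX⟩ : ∃ X : ℝ, X = Real.log n / (n : ℝ) ^ (q - r) := ⟨_, rfl⟩
  have hX0 : 0 < X := by rw [hX]; positivity
  rw [← hX] at hp hcoe hint hclo hdeg1 hdeg2 hlarge
  have m1 := mul_pos hCc hX0
  have m2 := mul_pos hCi hX0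
  have m3 := mul_pos hCk hX0
  have m4 := mul_pos hC1 hX0
  have m5 := mul_pos hC2 hX0
  have m6 := mul_pos hCl hX0
  have hp' : 8 * (Cc * X + Ci * X + Ck * X + C1 * X + C2 * X + Cl * X) ≤ p :=
    le_trans (le_of_eq (by ring)) hp
  have hp0 : 0 < p := by linarith
  obtain ⟨N, hN⟩ : ∃ N : ℝ, N = ((n - r).choose (q - r) : ℝ) := ⟨_, rfl⟩
  rw [← hN]
  simp only [← hN] at hcoe hint hclo hdeg1 hdeg2 hlarge
  obtain ⟨D, hD⟩ : ∃ D : ℝ, D = p * N := ⟨_, rfl⟩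
  obtain ⟨-, hDl⟩ := hlarge p (by linarith)
  rw [← hD] at hDl
  have hD0 : 0 < D := lt_of_lt_of_le (mul_pos (by linarith) hl0) hDl
  have hp8 : p / 8 ≤ 1 := by linarith
  have hp5 : 5 / 8 * p ≤ 1 := by linarith
  have hA : PrE (Blk n q) (p / 8) (half_A n q r (c * D) D δ)ᶜ ≤ 4 / n := by
    refine (PrE_mono (B := {G | ¬ Coe n q r (c0 * (p / 8 * N)) G} ∪
      {G | ¬ ∀ R ∈ Blk n r, |((G.filter fun e => R ⊆ e).card : ℝ) -
        p / 8 * N| ≤ δ * (p / 8 * N)}) (by linarith) hp8 ?_).trans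
      ((PrE_union (by linarith) hp8 _ _).trans ?_)
    · intro G _ hG
      by_contra hcon
      rw [Set.mem_union, not_or] at hcon
      refine hG ⟨?_, ?_⟩
      · have := not_not.1 hcon.1
        have e1 : c * D = c0 * (p / 8 * N) := by
          rw [hc, hD]
          ring
        rw [e1]
        exact this
      · have := not_not.1 hcon.2
        have e1 : D / 8 = p / 8 * N := by
          rw [hD]
          ring
        rw [e1]
        exact this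
    · have b1 := hcoe (p / 8) hp8 (by linarith)
      have b2 := hdeg1 (p / 8) hp8 (by linarith)
      have : (4 : ℝ) / n = 1 / n + 3 / n := by ring
      linarith
  have hB : PrE (Blk n q) (5 / 8 * p) (half_B n q r (c * D) D Ci δi)ᶜ ≤ (1 + ki) / n := by
    refine (PrE_mono (B := {G | ¬ Coe n q r (c0 * (5 / 8 * p * N)) G} ∪
      {G | ∀ lam : ℝ,
        Ci * (5 / 8 * p * N * Real.log n) ≤ lam → ∀ v : Finset (Fin n) → ℕ,
        Divi n q r v → (∀ R ∈ Blk n r, |(v R : ℝ) - lam| ≤ δi * lam) →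
        ∃ W : Finset (Fin n) → ℕ,
        (∀ R : Finset (Fin n), R.card = r → ∑ e ∈ G with R ⊆ e, W e = v R) ∧
        ∀ e ∈ G, |(W e : ℝ) * (5 / 8 * p * N) - lam| ≤ 1 / 4 * lam}ᶜ) (by linarith) hp5 ?_).trans
      ((PrE_union (by linarith) hp5 _ _).trans ?_)
    · intro G _ hG
      by_contra hcon
      rw [Set.mem_union, not_or] at hcon
      refine hG ⟨?_, ?_⟩
      · have := not_not.1 hcon.1
        refine Coe.mono this ?_
        have e1 : c * D = 1 / 5 * (c0 * (5 / 8 * p * N)) := by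
          rw [hc, hD]
          ring
        have e2 : 0 < c * D := mul_pos hc0' hD0
        linarith
      · have := not_not.1 hcon.2
        have e1 : 5 / 8 * D = 5 / 8 * p * N := by
          rw [hD]
          ring
        rw [e1]
        exact this
    · have b1 := hcoe (5 / 8 * p) hp5 (by linarith)
      have b2 := hint (5 / 8 * p) hp5 (by linarith)
      have b3 := PrE_compl (Blk n q) (5 / 8 * p) {G | ∀ lam : ℝ,
        Ci * (5 / 8 * p * N * Real.log n) ≤ lam → ∀ v : Finset (Fin n) → ℕ,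
        Divi n q r v → (∀ R ∈ Blk n r, |(v R : ℝ) - lam| ≤ δi * lam) →
        ∃ W : Finset (Fin n) → ℕ,
        (∀ R : Finset (Fin n), R.card = r → ∑ e ∈ G with R ⊆ e, W e = v R) ∧
        ∀ e ∈ G, |(W e : ℝ) * (5 / 8 * p * N) - lam| ≤ 1 / 4 * lam}
      have : (1 + ki) / (n : ℝ) = 1 / n + ki / n := by ring
      linarith
  have hT := half_thin (Blk n q) hp0.le hp1 (half_A n q r (c * D) D δ)
    (half_B n q r (c * D) D Ci δi)
  have hbad : PrE (Blk n q) p (Good n q r (p * N / 2) δ)ᶜ ≤ (17 + ki) / n := by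
    refine (PrE_mono (B := ({G | ¬ Clo n q r K (c / (10 * q.choose r) * (p * N)) G} ∪
      {G | ¬ ∀ R ∈ Blk n r, |((G.filter fun e => R ⊆ e).card : ℝ) -
        p * N| ≤ 1 * (p * N)}) ∪
      {G | ¬ ∃ A₁ ⊆ G, A₁ ∈ half_A n q r (c * D) D δ ∧
        ∃ A₂ ⊆ G \ A₁, A₂ ∈ half_A n q r (c * D) D δ ∧
        ∃ A₃ ⊆ (G \ A₁) \ A₂, A₃ ∈ half_A n q r (c * D) D δ ∧
        ((G \ A₁) \ A₂) \ A₃ ∈ half_B n q r (c * D) D Ci δi}) hp0.le hp1 ?_).trans
      ((PrE_union hp0.le hp1 _ _).trans ((add_le_add_left (PrE_union hp0.le hp1 _ _) _).trans ?_))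
    · intro G hGq hG
      by_contra hcon
      rw [Set.mem_union, Set.mem_union, not_or, not_or] at hcon
      obtain ⟨⟨k1, k2⟩, k3⟩ := hcon
      have k1 := not_not.1 k1
      have k2 := not_not.1 k2
      have k3 := not_not.1 k3
      rw [← hD] at k1 k2
      obtain ⟨A₁, h1, g1, A₂, h2, g2, A₃, h3, g3, g4⟩ := k3
      refine hG ?_
      rw [← hD]
      exact half_det hn hD0 hδ0 (by linarith) hδ4 hPh hchain hDl hGq k2 k1 h1 h2 h3 g1 g2 g3 g4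
    · have b1 := hclo p hp1 (by linarith)
      have b2 := hdeg2 p hp1 (by linarith)
      have : (17 + ki) / (n : ℝ) = 1 / n + 3 / n + (3 * (4 / n) + (1 + ki) / n) := by ring
      linarith
  have hcompl := PrE_compl (Blk n q) p (Good n q r (p * N / 2) δ)
  linarith

end Pool.Agent.MP4a7415S
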