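import Pool.Agent.Lib.MP_4a7415_coS.Comp
import Pool.Agent.Lib.MP_4a7415_coS.Cover
import Pool.Agent.Lib.MP_4a7415_coS.Count

/-! # The splitting lemma -/

namespace Pool.Agent.MP4a7415S

open Finset MeasureTheory Pool.Agent.MP4a7415

/-- The constant in the splitting lemma exists. -/
theorem split_const (k Q K : ℕ) (hk : 1 ≤ k) (hQ : 1 ≤ Q) {c : ℝ} (hc : 0 < c) :
    ∃ C : ℝ, 1 ≤ C ∧ ∀ (N : ℕ) (D : ℝ), C * (1 + Real.log (N + 1)) ≤ D →
      4 * k * Q ≤ D ∧ Real.exp (-(c * D * tau k Q ^ 2)) * (D ^ K *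
        Real.exp ((80 * k ^ 2 + 50 * k / c) * K)) ≤ 1 / (4 * (N + 1)) := by
  have hk' : (1 : ℝ) ≤ k := by exact_mod_cast hk
  have hQ' : (1 : ℝ) ≤ Q := by exact_mod_cast hQ
  have hτ : 0 < tau k Q := by
    unfold tau
    positivity
  obtain ⟨s, hs⟩ : ∃ s : ℝ, s = c * tau k Q ^ 2 := ⟨_, rfl⟩
  have hs0 : 0 < s := by
    rw [hs]
    positivity
  obtain ⟨A, hA⟩ : ∃ A : ℝ, A = (80 * k ^ 2 + 50 * k / c) := ⟨_, rfl⟩
  have hA0 : 0 < A := by
    rw [hA]
    positivity
  have hK0 : (0 : ℝ) ≤ K := Nat.cast_nonneg K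
  obtain ⟨ε, hε⟩ : ∃ ε : ℝ, ε = s / (2 * (K + 1)) := ⟨_, rfl⟩
  have hε0 : 0 < ε := by
    rw [hε]
    positivity
  obtain ⟨B, hB⟩ : ∃ B : ℝ, B = |K * (-1 - Real.log ε)| := ⟨_, rfl⟩
  have hB0 : 0 ≤ B := by
    rw [hB]
    exact abs_nonneg _
  have hl4 : 0 ≤ Real.log 4 := Real.log_nonneg (by norm_num)
  obtain ⟨W, hW⟩ : ∃ W : ℝ, W = Real.log 4 + A * K + B := ⟨_, rfl⟩
  have hW0 : 0 ≤ W := by
    rw [hW]
    positivity
  refine ⟨1 + 4 * k * Q + 2 / s * (W + 1), ?_, fun N D hD => ?_⟩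
  · have : 0 ≤ 2 / s * (W + 1) := by positivity
    nlinarith
  · have hN : (0 : ℝ) ≤ N := Nat.cast_nonneg N
    have hℓ : 0 ≤ Real.log ((N : ℝ) + 1) := Real.log_nonneg (by linarith)
    have h0 : 0 ≤ 2 / s * (W + 1) := by positivity
    have h00 : 0 ≤ 4 * (k : ℝ) * Q := by positivity
    have h1 : 4 * (k : ℝ) * Q ≤ D := by nlinarith
    have hD0 : 0 < D := by nlinarith
    refine ⟨h1, ?_⟩
    have h2 : 2 / s * (W + 1) * (1 + Real.log ((N : ℝ) + 1)) ≤ D := by nlinarith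
    have h3 : W + Real.log ((N : ℝ) + 1) ≤ s / 2 * D := by
      have h4 : (W + 1) * (1 + Real.log ((N : ℝ) + 1)) ≤ s / 2 * D := by
        have h5 := mul_le_mul_of_nonneg_left h2 (by positivity : (0 : ℝ) ≤ s / 2)
        have e1 : s / 2 * (2 / s * (W + 1) * (1 + Real.log ((N : ℝ) + 1))) =
            (W + 1) * (1 + Real.log ((N : ℝ) + 1)) := by
          field_simp
        rwa [e1] at h5
      nlinarith [mul_nonneg hW0 hℓ]
    have h6 : K * Real.log D ≤ s / 2 * D + B := by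
      have h7 : Real.log (ε * D) ≤ ε * D - 1 := Real.log_le_sub_one_of_pos (by positivity)
      rw [Real.log_mul hε0.ne' hD0.ne'] at h7
      have h8 : K * Real.log D ≤ K * (ε * D) + K * (-1 - Real.log ε) := by
        have := mul_le_mul_of_nonneg_left h7 hK0
        nlinarith
      have h9 : K * (-1 - Real.log ε) ≤ B := by
        rw [hB]
        exact le_abs_self _
      have h10 : K * (ε * D) ≤ s / 2 * D := by
        have h11 : K * ε ≤ s / 2 := by
          rw [hε, ← mul_div_assoc, div_le_iff₀ (by positivity)]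
          nlinarith
        nlinarith
      linarith
    have e2 : D ^ K = Real.exp (K * Real.log D) := by
      rw [Real.exp_nat_mul, Real.exp_log hD0]
    have e3 : (1 : ℝ) / (4 * (N + 1)) = Real.exp (-(Real.log 4 + Real.log ((N : ℝ) + 1))) := by
      rw [Real.exp_neg, Real.exp_add, Real.exp_log (by norm_num), Real.exp_log (by linarith),
        one_div]
    rw [← hA, e2, e3, ← Real.exp_add, ← Real.exp_add]
    refine Real.exp_le_exp.2 ?_
    have e4 : c * D * tau k Q ^ 2 = s * D := by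
      rw [hs]
      ring
    rw [e4]
    have : W = Real.log 4 + A * K + B := hW
    linarith

private theorem split_cont {ι κ : Type*} [Fintype ι] [Fintype κ] (M : κ → ι → ℤ) (a : ι → ℕ) :
    Continuous (Phi M a) := by
  unfold Phi Lm
  fun_prop

private theorem split_AS_meas {κ : Type*} [Fintype κ] (Ls : AddSubgroup (κ → ℝ)) (τ : ℝ)
    (S : Finset κ) : MeasurableSet (AS Ls τ S) := by
  have e : AS Ls τ S = {t | Mn Ls t} ∩ ⋂ R, {t : κ → ℝ | R ∈ S ↔ τ < |t R|} := by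
    ext t
    simp only [AS, Set.mem_setOf_eq, Set.mem_inter_iff, Set.mem_iInter]
  rw [e]
  refine closed_Mn.measurableSet.inter (MeasurableSet.iInter fun R => ?_)
  have h1 : MeasurableSet {t : κ → ℝ | τ < |t R|} := by
    refine measurableSet_lt measurable_const ?_
    fun_prop
  by_cases hR : R ∈ S
  · have : {t : κ → ℝ | R ∈ S ↔ τ < |t R|} = {t : κ → ℝ | τ < |t R|} := by
      ext t
      simp only [Set.mem_setOf_eq]
      exact ⟨fun h => h.1 hR, fun h => ⟨fun _ => h, fun _ => hR⟩⟩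
    rw [this]
    exact h1
  · have : {t : κ → ℝ | R ∈ S ↔ τ < |t R|} = {t : κ → ℝ | τ < |t R|}ᶜ := by
      ext t
      simp only [Set.mem_setOf_eq, Set.mem_compl_iff]
      exact ⟨fun h h' => hR (h.2 h'), fun h => ⟨fun h' => absurd h' hR, fun h' => absurd h' h⟩⟩
    rw [this]
    exact h1.compl

private theorem split_AS_int {ι κ : Type*} [Fintype ι] [Fintype κ] (M : κ → ι → ℤ)
    (a : ι → ℕ) {Ls : AddSubgroup (κ → ℝ)}
    (hint : ∀ b : κ → ℤ, (fun R => (b R : ℝ)) ∈ Ls) (τ : ℝ) (S : Finset κ) :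
    IntegrableOn (fun t => |Phi M a t|) (AS Ls τ S) := by
  have h1 : IntegrableOn (fun t => |Phi M a t|)
      (Set.Icc (fun _ : κ => (-(1 / 2) : ℝ)) (fun _ => (1 / 2 : ℝ))) :=
    (split_cont M a).abs.continuousOn.integrableOn_compact isCompact_Icc
  refine h1.mono_set fun t ht => ?_
  rw [Set.mem_Icc]
  exact ⟨fun R => (abs_le.1 (Mn_half hint ht.1 R)).1, fun R => (abs_le.1 (Mn_half hint ht.1 R)).2⟩

private theorem split_union {κ : Type*} [Fintype κ] (Ls : AddSubgroup (κ → ℝ)) (τ : ℝ) :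
    open Classical in
    {t | Mn Ls t ∧ t ∉ A0 τ} = ⋃ S ∈ (univ : Finset (Finset κ)).filter (fun S => S.Nonempty),
      AS Ls τ S := by
  classical
  ext t
  simp only [Set.mem_setOf_eq, Set.mem_iUnion, Finset.mem_filter, Finset.mem_univ, true_and,
    exists_prop]
  constructor
  · rintro ⟨h1, h2⟩
    refine ⟨univ.filter fun R => τ < |t R|, ?_, h1, fun R => by simp⟩
    by_contra hne
    rw [Finset.not_nonempty_iff_eq_empty, Finset.filter_eq_empty_iff] at hne
    exact h2 fun R => not_lt.1 (hne (Finset.mem_univ R))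
  · rintro ⟨S, ⟨R, hR⟩, h1, h2⟩
    exact ⟨h1, fun h3 => absurd (h3 R) (not_le.2 ((h2 R).1 hR))⟩

private theorem split_sum {κ : Type*} [Fintype κ] {q : ℝ} (hq0 : 0 ≤ q)
    (hq : q ≤ 1 / (4 * ((Fintype.card κ : ℝ) + 1))) : open Classical in
    ∑ S ∈ (univ : Finset (Finset κ)).filter (fun S => S.Nonempty), q ^ S.card ≤ 1 / 2 := by
  classical
  have h1 : ∑ S ∈ (univ : Finset κ).powerset, q ^ S.card * 1 ^ ((univ : Finset κ).card - S.card) =
      (q + 1) ^ (univ : Finset κ).card := Finset.sum_pow_mul_eq_add_pow q 1 univ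
  simp only [one_pow, mul_one, Finset.powerset_univ, Finset.card_univ] at h1
  have h2 : ∑ S : Finset κ, q ^ S.card =
      ∑ S ∈ (univ : Finset (Finset κ)).filter (fun S => S.Nonempty), q ^ S.card + 1 := by
    rw [← Finset.sum_filter_add_sum_filter_not univ (fun S : Finset κ => S.Nonempty)]
    congr 1
    have e : (univ : Finset (Finset κ)).filter (fun S => ¬ S.Nonempty) = {∅} := by
      ext S
      simp
    rw [e, Finset.sum_singleton, Finset.card_empty, pow_zero]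
  rw [h2] at h1
  have hN : (0 : ℝ) ≤ Fintype.card κ := Nat.cast_nonneg _
  have h3 : (q + 1) ^ Fintype.card κ ≤ Real.exp (1 / 4) := by
    calc (q + 1) ^ Fintype.card κ ≤ Real.exp q ^ Fintype.card κ :=
          pow_le_pow_left₀ (by linarith) (Real.add_one_le_exp q) _
      _ = Real.exp (Fintype.card κ * q) := (Real.exp_nat_mul _ _).symm
      _ ≤ Real.exp (1 / 4) := by
          refine Real.exp_le_exp.2 ?_
          have h4 : (Fintype.card κ : ℝ) * q ≤
              Fintype.card κ * (1 / (4 * ((Fintype.card κ : ℝ) + 1))) :=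
            mul_le_mul_of_nonneg_left hq hN
          refine h4.trans ?_
          rw [mul_one_div, div_le_div_iff₀ (by positivity) (by norm_num)]
          linarith
  have h5 : Real.exp (1 / 4) ≤ 3 / 2 := by
    have h6 := Real.one_sub_le_exp_neg (1 / 4)
    rw [Real.exp_neg] at h6
    have h7 : 0 < Real.exp (1 / 4) := Real.exp_pos _
    have h8 : Real.exp (1 / 4) * (Real.exp (1 / 4))⁻¹ = 1 := mul_inv_cancel₀ h7.ne'
    nlinarith
  linarith

theorem split (k Q K : ℕ) (hk : 1 ≤ k) (hQ : 1 ≤ Q) {c : ℝ} (hc : 0 < c) :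
    ∃ C : ℝ, 1 ≤ C ∧ ∀ {ι κ : Type} [Fintype ι] [Fintype κ] {M : κ → ι → ℤ}
      {Ls : AddSubgroup (κ → ℝ)} {a : ι → ℕ} {D : ℝ}, Spl M Ls a k Q K c D →
      C * (1 + Real.log (Fintype.card κ + 1)) ≤ D → ∀ u : κ → ℤ,
      (∀ R, ∑ e, M R e * a e = 2 * u R) → (∀ y ∈ Ls, ∃ m : ℤ, ∑ R, (u R : ℝ) * y R = m) →
      ∃ s : ι → ℕ, (∀ e, s e ≤ a e) ∧ ∀ R, ∑ e, M R e * s e = u R := by
  classical
  obtain ⟨C, hC1, hC⟩ := split_const k Q K hk hQ hc
  refine ⟨C, hC1, ?_⟩
  intro ι κ _ _ M Ls a D h hD u hu hph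
  by_contra hcon
  have hno : ∀ s : ι → ℕ, (∀ e, s e ≤ a e) → ¬ ∀ R, ∑ e, M R e * s e = u R :=
    fun s h1 h2 => hcon ⟨s, h1, h2⟩
  have hz := count_zero M a u hu hno
  obtain ⟨hD1, hq⟩ := hC (Fintype.card κ) D hD
  have hk' : (1 : ℝ) ≤ k := by exact_mod_cast hk
  have hQ' : (1 : ℝ) ≤ Q := by exact_mod_cast hQ
  have hDone : 1 ≤ D := by
    have : 1 ≤ 4 * (k : ℝ) * Q := by nlinarith
    linarith
  have hτ0 : 0 < tau k Q := by
    unfold tau
    positivity
  have hτ : 4 * tau k Q * Q ≤ 1 := by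
    unfold tau
    have e : 4 * (1 / (4 * (k : ℝ) * Q)) * Q = 1 / k := by
      field_simp
    rw [e, div_le_one (by positivity)]
    exact hk'
  obtain ⟨hp1, hp2⟩ := peak_pos h
  obtain ⟨I0, hI0⟩ : ∃ I0 : ℝ, I0 = ∫ t in A0 (κ := κ) (tau k Q), Phi M a t := ⟨_, rfl⟩
  obtain ⟨q, hqd⟩ : ∃ q : ℝ, q = Real.exp (-(c * D * tau k Q ^ 2)) * (D ^ K *
        Real.exp ((80 * k ^ 2 + 50 * k / c) * K)) := ⟨_, rfl⟩
  have hq0 : 0 ≤ q := by
    rw [hqd]
    positivity
  rw [← hqd] at hq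
  have hterm : ∀ S : Finset κ, S.Nonempty →
      ∫ t in AS Ls (tau k Q) S, |Phi M a t| ≤ q ^ S.card * I0 := by
    intro S hS
    obtain ⟨B, hSB, hBc, hB⟩ := h.clos S hS
    have h1 := comp h hD1 hSB hB
    rw [← hI0] at h1
    refine h1.trans (mul_le_mul_of_nonneg_right ?_ (by rw [hI0]; exact hp2.le))
    have e1 : q ^ S.card = Real.exp (-(c * D * tau k Q ^ 2 * S.card)) * (D ^ (K * S.card) *
        Real.exp ((80 * k ^ 2 + 50 * k / c) * ((K * S.card : ℕ) : ℝ))) := by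
      rw [hqd, mul_pow, mul_pow, ← Real.exp_nat_mul, ← pow_mul, ← Real.exp_nat_mul]
      congr 2
      · ring
      · congr 1
        push_cast
        ring
    rw [e1]
    refine mul_le_mul_of_nonneg_left ?_ (Real.exp_nonneg _)
    refine mul_le_mul (pow_le_pow_right₀ hDone hBc) ?_ (Real.exp_nonneg _) (by positivity)
    refine Real.exp_le_exp.2 (mul_le_mul_of_nonneg_left ?_ (by positivity))
    exact_mod_cast hBc
  have hsmall : ∫ t in {t | Mn Ls t ∧ t ∉ A0 (tau k Q)}, |Phi M a t| ≤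
      1 / 2 * ∫ t in A0 (κ := κ) (tau k Q), Phi M a t := by
    rw [split_union, integral_biUnion_finset _ (fun S _ => split_AS_meas Ls _ S) ?_
      (fun S _ => split_AS_int M a h.int _ S), ← hI0]
    · calc ∑ S ∈ (univ : Finset (Finset κ)).filter (fun S => S.Nonempty),
            ∫ t in AS Ls (tau k Q) S, |Phi M a t|
          ≤ ∑ S ∈ (univ : Finset (Finset κ)).filter (fun S => S.Nonempty), q ^ S.card * I0 :=
            Finset.sum_le_sum fun S hS => hterm S (Finset.mem_filter.1 hS).2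
        _ = (∑ S ∈ (univ : Finset (Finset κ)).filter (fun S => S.Nonempty), q ^ S.card) * I0 := by
            rw [Finset.sum_mul]
        _ ≤ 1 / 2 * I0 := by
            refine mul_le_mul_of_nonneg_right (split_sum hq0 hq) ?_
            rw [hI0]
            exact hp2.le
    · intro S _ S' _ hne
      rw [Function.onFun, Set.disjoint_left]
      intro t ht ht'
      exact hne (Finset.ext fun R => (ht.2 R).trans (ht'.2 R).symm)
  have hpos := cover h.int h.Q1 h.den (split_cont M a) (Phi_per h.val hu hph) hτ0 hτ hp1 hp2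
    hsmall
  rw [hz] at hpos
  exact lt_irrefl _ hpos

end Pool.Agent.MP4a7415S
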