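import Pool.Agent.Lib.MP_4a7415_coI.Final
import Pool.Agent.Lib.MP_4a7415_coS.Split
import Pool.Agent.Lib.MP_4a7415_coS.Clo2

/-! # Halving a weight function -/

namespace Pool.Agent.MP4a7415S

open Finset Filter Pool.Agent.MP4a7415

/-- Integral pairing with all vectors of `Lst`. -/
def Ph (n q r : ℕ) (v : Finset (Fin n) → ℤ) : Prop :=
  ∀ y : Finset (Fin n) → ℝ, Lst n q r y → ∃ m : ℤ, ∑ R ∈ Blk n r, (v R : ℝ) * y R = m

theorem Ph_of_Divi (q r : ℕ) (hr : 1 ≤ r) (hqr : r < q) : ∀ᶠ n : ℕ in atTop,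
    ∀ v : Finset (Fin n) → ℕ, Divi n q r v → Ph n q r (fun R => (v R : ℤ)) := by
  filter_upwards [phase_gen q r hr hqr] with n hph v hv y hy
  exact hph y hy (fun R => (v R : ℤ)) (fun T hT => by
    have := hv T hT
    exact_mod_cast this)

theorem Ph.mul {n q r : ℕ} {v : Finset (Fin n) → ℤ} (h : Ph n q r v) (m : ℤ) :
    Ph n q r (fun R => m * v R) := by
  intro y hy
  obtain ⟨k, hk⟩ := h y hy
  refine ⟨m * k, ?_⟩
  rw [Int.cast_mul, ← hk, mul_sum]
  refine sum_congr rfl fun R _ => ?_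
  push_cast
  ring

theorem Ph.sub {n q r : ℕ} {v w : Finset (Fin n) → ℤ} (h : Ph n q r v) (h' : Ph n q r w) :
    Ph n q r (fun R => v R - w R) := by
  intro y hy
  obtain ⟨k, hk⟩ := h y hy
  obtain ⟨k', hk'⟩ := h' y hy
  refine ⟨k - k', ?_⟩
  rw [Int.cast_sub, ← hk, ← hk', ← sum_sub_distrib]
  refine sum_congr rfl fun R _ => ?_
  push_cast
  ring

theorem Ph_edges {n q r : ℕ} {G : Finset (Finset (Fin n))} (hG : G ⊆ Blk n q)
    (W : Finset (Fin n) → ℤ) : Ph n q r (fun R => ∑ e ∈ G with R ⊆ e, W e) := by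
  intro y hy
  have h1 : ∑ R ∈ Blk n r, (((∑ e ∈ G with R ⊆ e, W e : ℤ)) : ℝ) * y R =
      ∑ e ∈ G, (W e : ℝ) * ev r y e := by
    have h2 : ∀ R ∈ Blk n r, (((∑ e ∈ G with R ⊆ e, W e : ℤ)) : ℝ) * y R =
        ∑ e ∈ G, if R ⊆ e then (W e : ℝ) * y R else 0 := by
      intro R _
      rw [Int.cast_sum, sum_mul, sum_filter]
    rw [sum_congr rfl h2, sum_comm]
    refine sum_congr rfl fun e _ => ?_
    rw [ev_eq_sum, mul_sum]
    refine sum_congr rfl fun R _ => ?_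
    split_ifs
    · rfl
    · rw [mul_zero]
  rw [h1]
  refine int_sum _ _ fun e he => ?_
  obtain ⟨k, hk⟩ := hy e (hG he)
  exact ⟨W e * k, by rw [hk, Int.cast_mul]⟩

/-- The integral vectors are in the lattice. -/
private theorem int_mem_LsG {n q r : ℕ} (a : {R // R ∈ Blk n r} → ℤ) :
    (fun R => (a R : ℝ)) ∈ LsG n q r := by
  classical
  rw [mem_LsG]
  intro e _
  refine ⟨∑ R ∈ (Blk n r).attach, if (R : Finset (Fin n)) ⊆ e then a R else 0, ?_⟩
  rw [ev_eq_sum, ← sum_attach (Blk n r)]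
  push_cast
  refine sum_congr rfl fun R _ => ?_
  rw [extz_mem _ R.2]

/-- Restriction of a vector of `Lst`. -/
private theorem res_mem_LsG {n q r : ℕ} {y : Finset (Fin n) → ℝ} (h : Lst n q r y) :
    (fun R : {R // R ∈ Blk n r} => y R) ∈ LsG n q r := by
  rw [mem_LsG]
  intro e he
  obtain ⟨k, hk⟩ := h e he
  refine ⟨k, ?_⟩
  rw [← hk]
  exact ev_congr (fun R hR => extz_mem _ hR) _

/-- Sums over the subtype. -/
private theorem sum_sub {n r : ℕ} (f : Finset (Fin n) → ℝ) :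
    ∑ R : {R // R ∈ Blk n r}, f R = ∑ R ∈ Blk n r, f R := by
  rw [univ_eq_attach, sum_attach (Blk n r) f]

private theorem Min_of_Mn {n q r : ℕ} {y : {R // R ∈ Blk n r} → ℝ}
    (h : Mn (LsG n q r) y) : Min n q r (extz y) := by
  classical
  constructor
  · intro R hR
    rw [extz_mem y hR]
    obtain ⟨R0, hR0⟩ : ∃ R0 : {R // R ∈ Blk n r}, R0 = ⟨R, hR⟩ := ⟨_, rfl⟩
    rw [← hR0]
    have h1 := h _ (int_mem_LsG (q := q) (fun R' => if R' = R0 then round (y R0) else 0))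
    have h2 : ∑ R', y R' ^ 2 = y R0 ^ 2 + ∑ R' ∈ univ.erase R0, y R' ^ 2 :=
      (add_sum_erase univ (fun R' => y R' ^ 2) (mem_univ R0)).symm
    have h3 : ∑ R', (y R' - (((if R' = R0 then round (y R0) else 0 : ℤ)) : ℝ)) ^ 2 =
        (y R0 - round (y R0)) ^ 2 + ∑ R' ∈ univ.erase R0, y R' ^ 2 := by
      rw [← add_sum_erase univ _ (mem_univ R0)]
      congr 1
      · rw [if_pos rfl]
      · refine sum_congr rfl fun R' hR' => ?_
        rw [if_neg (ne_of_mem_erase hR'), Int.cast_zero, sub_zero]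
    rw [h2, h3] at h1
    have h4 : y R0 ^ 2 ≤ (y R0 - round (y R0)) ^ 2 := by linarith
    have h5 := abs_sub_round (y R0)
    exact (sq_le_sq.1 h4).trans h5
  · intro y0 hy0
    have h1 := h _ (res_mem_LsG hy0)
    have h2 : ∑ R, y R ^ 2 = ∑ R ∈ Blk n r, extz y R ^ 2 := by
      rw [← sum_sub (r := r) (fun R => extz y R ^ 2)]
      exact sum_congr rfl fun R _ => by rw [extz_mem y R.2]
    have h3 : ∑ R : {R // R ∈ Blk n r}, (y R - y0 R) ^ 2 =
        ∑ R ∈ Blk n r, (extz y R - y0 R) ^ 2 := by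
      rw [← sum_sub (r := r) (fun R => (extz y R - y0 R) ^ 2)]
      exact sum_congr rfl fun R _ => by rw [extz_mem y R.2]
    rw [h2, h3] at h1
    exact h1

private theorem incM_ne {n r : ℕ} {G : Finset (Finset (Fin n))} {R : {R // R ∈ Blk n r}}
    {e : {e // e ∈ G}} : incM r G R e ≠ 0 ↔ (R : Finset (Fin n)) ⊆ e := by
  rw [incM]
  split_ifs with h
  · exact ⟨fun _ => h, fun _ => one_ne_zero⟩
  · exact ⟨fun h' => absurd rfl h', fun h' => absurd h' h⟩

private theorem sum_incM {n r : ℕ} (G : Finset (Finset (Fin n))) (R : {R // R ∈ Blk n r})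
    (f : Finset (Fin n) → ℤ) :
    ∑ e : {e // e ∈ G}, incM r G R e * f e = ∑ e ∈ G with (R : Finset (Fin n)) ⊆ e, f e := by
  rw [sum_filter, ← sum_attach G, ← univ_eq_attach]
  refine sum_congr rfl fun e _ => ?_
  rw [incM]
  split_ifs
  · rw [one_mul]
  · rw [zero_mul]

private theorem spl_of {n q r Q K : ℕ} {c D : ℝ} (hqr : r < q) (hQ : 0 < Q) (hc : 0 < c)
    (hden : ∀ y : Finset (Fin n) → ℝ, Lst n q r y → ∀ R ∈ Blk n r,
      ∃ k : ℤ, (Q : ℝ) * y R = k) {G A : Finset (Finset (Fin n))} (hG : G ⊆ Blk n q)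
    (hA : A ⊆ G) (hdeg : ∀ R ∈ Blk n r, ((G.filter (fun e => R ⊆ e)).card : ℝ) ≤ 2 * D)
    (hTC : ∀ y : Finset (Fin n) → ℝ, Min n q r y →
        c * D * ∑ R ∈ Blk n r, y R ^ 2 ≤ ∑ e ∈ A, dZ (ev r y e) ^ 2)
    (hclo : Clo n q r K (c / (10 * q.choose r) * D) G) {a : Finset (Fin n) → ℕ}
    (ha2 : ∀ e ∈ G, a e ≤ 2) (ha1 : ∀ e ∈ A, 1 ≤ a e) :
    Spl (incM r G) (LsG n q r) (fun e : {e // e ∈ G} => a e) (q.choose r) Q K c D := by
  classical
  refine ⟨Nat.choose_pos hqr.le, hQ, hc, ?_, ?_, ?_, ?_, ?_, ?_, ?_, ?_, ?_⟩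
  · intro R e
    rw [incM]
    split_ifs
    · exact Or.inr rfl
    · exact Or.inl rfl
  · intro e
    have h1 : ((univ.filter fun R : {R // R ∈ Blk n r} => incM r G R e ≠ 0).map
        (Function.Embedding.subtype _)) ⊆ powersetCard r (e : Finset (Fin n)) := by
      intro R hR
      rw [Finset.mem_map] at hR
      obtain ⟨R', hR', rfl⟩ := hR
      rw [mem_filter] at hR'
      rw [mem_powersetCard]
      exact ⟨incM_ne.1 hR'.2, (mem_powersetCard.1 R'.2).2⟩
    have h2 := card_le_card h1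
    rwa [card_map, card_powersetCard, (mem_powersetCard.1 (hG e.2)).2] at h2
  · intro R
    have h1 : ((univ.filter fun e : {e // e ∈ G} => incM r G R e ≠ 0).map
        (Function.Embedding.subtype _)) ⊆ G.filter (fun e => (R : Finset (Fin n)) ⊆ e) := by
      intro e he
      rw [Finset.mem_map] at he
      obtain ⟨e', he', rfl⟩ := he
      rw [mem_filter] at he'
      rw [mem_filter]
      exact ⟨e'.2, incM_ne.1 he'.2⟩
    have h2 := card_le_card h1
    rw [Finset.card_map] at h2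
    refine le_trans ?_ (hdeg R R.2)
    exact_mod_cast h2
  · intro e
    exact ha2 e e.2
  · exact int_mem_LsG
  · intro y hy e
    rw [Lm_incM]
    exact hy e (hG e.2)
  · intro y hy R
    have h1 := hden (extz y) hy R R.2
    rwa [extz_mem y R.2] at h1
  · intro y hy
    have h1 := hTC (extz y) (Min_of_Mn hy)
    have h2 : ∑ R, y R ^ 2 = ∑ R ∈ Blk n r, extz y R ^ 2 := by
      rw [← sum_sub (r := r) (fun R => extz y R ^ 2)]
      exact sum_congr rfl fun R _ => by rw [extz_mem y R.2]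
    rw [h2]
    refine h1.trans ?_
    have h3 : ∑ e : {e // e ∈ G}, (a e : ℝ) * dZ (Lm (incM r G) y e) ^ 2 =
        ∑ e ∈ G, (a e : ℝ) * dZ (ev r (extz y) e) ^ 2 := by
      rw [← sum_attach G, ← univ_eq_attach]
      exact sum_congr rfl fun e _ => by rw [Lm_incM]
    rw [h3]
    refine (sum_le_sum fun e he => ?_).trans (sum_le_sum_of_subset_of_nonneg hA
      (fun e _ _ => mul_nonneg (Nat.cast_nonneg _) (sq_nonneg _)))
    have h4 : (1 : ℝ) ≤ a e := by exact_mod_cast ha1 e he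
    exact le_mul_of_one_le_left (sq_nonneg _) h4
  · intro S hS
    obtain ⟨B, hB, h1, h2, h3⟩ := hclo (S.map (Function.Embedding.subtype _)) (by
      intro R hR
      rw [Finset.mem_map] at hR
      obtain ⟨R', -, rfl⟩ := hR
      exact R'.2) (by rwa [map_nonempty])
    refine ⟨univ.filter (fun R : {R // R ∈ Blk n r} => (R : Finset (Fin n)) ∈ B), ?_, ?_, ?_⟩
    · intro R hR
      rw [mem_filter]
      exact ⟨mem_univ _, h1 (Finset.mem_map.2 ⟨R, hR, rfl⟩)⟩
    · rw [Finset.card_map] at h2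
      refine le_trans ?_ h2
      rw [← card_map (Function.Embedding.subtype _)]
      refine card_le_card fun R hR => ?_
      rw [Finset.mem_map] at hR
      obtain ⟨R', hR', rfl⟩ := hR
      exact (mem_filter.1 hR').2
    · intro R hR
      have hRB : (R : Finset (Fin n)) ∉ B := fun h => hR (mem_filter.2 ⟨mem_univ _, h⟩)
      refine le_trans ?_ (h3 R R.2 hRB)
      rw [Nat.cast_le, ← card_map (Function.Embedding.subtype _)]
      refine card_le_card fun e he => ?_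
      rw [Finset.mem_map] at he
      obtain ⟨e', he', rfl⟩ := he
      rw [mem_filter, tch, mem_filter] at he'
      obtain ⟨⟨-, R', hR', h5⟩, h6⟩ := he'
      rw [mem_filter]
      exact ⟨e'.2, incM_ne.1 h6, R', (mem_filter.1 hR').2, incM_ne.1 h5⟩

theorem halve (q r : ℕ) (hr : 1 ≤ r) (hqr : r < q) (K : ℕ) {c : ℝ} (hc : 0 < c) :
    ∃ C : ℝ, 1 ≤ C ∧ ∀ᶠ n : ℕ in atTop, ∀ D : ℝ, C * Real.log n ≤ D →
      ∀ G ⊆ Blk n q, ∀ A ⊆ G,
      (∀ R ∈ Blk n r, ((G.filter (fun e => R ⊆ e)).card : ℝ) ≤ 2 * D) →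
      (∀ y : Finset (Fin n) → ℝ, Min n q r y →
        c * D * ∑ R ∈ Blk n r, y R ^ 2 ≤ ∑ e ∈ A, dZ (ev r y e) ^ 2) →
      Clo n q r K (c / (10 * q.choose r) * D) G →
      ∀ (a : Finset (Fin n) → ℕ) (W v : Finset (Fin n) → ℤ), (∀ e ∈ G, a e ≤ 2) →
      (∀ e ∈ A, 1 ≤ a e) → (∀ e ∈ G, (2 : ℤ) ∣ W e - a e) → Ph n q r v →
      (∀ R ∈ Blk n r, ∑ e ∈ G with R ⊆ e, W e = 2 * v R) →
      ∃ W' : Finset (Fin n) → ℤ, (∀ R ∈ Blk n r, ∑ e ∈ G with R ⊆ e, W' e = v R) ∧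
        ∀ e ∈ G, |2 * W' e - W e| ≤ a e := by
  classical
  obtain ⟨Q, hQ, hden⟩ := Lst_denom hqr.le
  obtain ⟨C, hC, hsplit⟩ := split (q.choose r) Q K (Nat.choose_pos hqr.le) hQ hc
  refine ⟨C * (r + 2), ?_, ?_⟩
  · have h1 : (1 : ℝ) ≤ (r : ℝ) + 2 := by
      have : (0 : ℝ) ≤ r := Nat.cast_nonneg r
      linarith
    exact one_le_mul_of_one_le_of_one_le hC h1
  filter_upwards [eventually_ge_atTop (q + r + 3)] with n hn D hD G hG A hA hdeg hTC hclo a W v
    ha2 ha1 hpar hv hW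
  have hS := spl_of hqr hQ hc (hden n (by omega)) hG hA hdeg hTC hclo ha2 ha1
  have hlog : C * (1 + Real.log ((Fintype.card {R // R ∈ Blk n r} : ℝ) + 1)) ≤ D := by
    have hl1 : 1 ≤ Real.log n := by
      rw [Real.le_log_iff_exp_le (by exact_mod_cast (by omega : 0 < n))]
      have h1 : (3 : ℝ) ≤ n := by exact_mod_cast (by omega : 3 ≤ n)
      have h2 := Real.exp_one_lt_d9
      linarith
    have hcard : (Fintype.card {R // R ∈ Blk n r} : ℝ) + 1 ≤ (n : ℝ) ^ (r + 1) := by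
      rw [Fintype.card_coe, card_powersetCard, card_univ, Fintype.card_fin]
      have h1 : n.choose r ≤ n ^ r := Nat.choose_le_pow n r
      have h2 : 1 ≤ n ^ r := Nat.one_le_pow _ _ (by omega)
      have h3 : n ^ (r + 1) = n ^ r * n := pow_succ n r
      have h4 : n ^ r * 2 ≤ n ^ r * n := Nat.mul_le_mul_left _ (by omega)
      exact_mod_cast (by omega : n.choose r + 1 ≤ n ^ (r + 1))
    have h1 : Real.log ((Fintype.card {R // R ∈ Blk n r} : ℝ) + 1) ≤ (r + 1) * Real.log n := by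
      have h2 := Real.log_le_log (by positivity) hcard
      rw [Real.log_pow] at h2
      push_cast at h2
      exact h2
    refine le_trans ?_ hD
    rw [mul_assoc]
    refine mul_le_mul_of_nonneg_left ?_ (by linarith)
    nlinarith
  -- the halves
  obtain ⟨h, hh⟩ : ∃ h : Finset (Fin n) → ℤ, ∀ e ∈ G, W e - a e = 2 * h e := by
    refine ⟨fun e => (W e - a e) / 2, fun e he => ?_⟩
    exact (Int.mul_ediv_cancel' (hpar e he)).symm
  have hPu : Ph n q r (fun R => v R - ∑ e ∈ G with R ⊆ e, h e) := hv.sub (Ph_edges hG h)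
  obtain ⟨s, hs1, hs2⟩ := hsplit hS hlog
    (fun R => v R - ∑ e ∈ G with (R : Finset (Fin n)) ⊆ e, h e) (by
    intro R
    have h1 : ∑ e : {e // e ∈ G}, incM r G R e * (a e : ℤ) =
        ∑ e ∈ G with (R : Finset (Fin n)) ⊆ e, (a e : ℤ) :=
      sum_incM G R (fun e => (a e : ℤ))
    rw [h1, mul_sub, ← hW R R.2, mul_sum, ← sum_sub_distrib]
    refine sum_congr rfl fun e he => ?_
    have := hh e (mem_filter.1 he).1
    linarith) (by
    intro y hy
    obtain ⟨m, hm⟩ := hPu (extz y) hy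
    refine ⟨m, ?_⟩
    rw [← hm, ← sum_sub (r := r)
      (fun R => ((v R - ∑ e ∈ G with R ⊆ e, h e : ℤ) : ℝ) * extz y R)]
    exact sum_congr rfl fun R _ => by rw [extz_mem y R.2])
  refine ⟨fun e => h e + if he : e ∈ G then (s ⟨e, he⟩ : ℤ) else 0, ?_, ?_⟩
  · intro R hR
    have h1 := hs2 ⟨R, hR⟩
    have h2 : ∑ e : {e // e ∈ G}, incM r G ⟨R, hR⟩ e * (s e : ℤ) =
        ∑ e ∈ G with R ⊆ e, (if he : e ∈ G then (s ⟨e, he⟩ : ℤ) else 0) := by
      rw [← sum_incM G ⟨R, hR⟩ (fun e => if he : e ∈ G then (s ⟨e, he⟩ : ℤ) else 0)]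
      refine sum_congr rfl fun e _ => ?_
      rw [dif_pos e.2]
    rw [sum_add_distrib, ← h2, h1]
    ring
  · intro e he
    have h1 := hh e he
    have h2 := hs1 ⟨e, he⟩
    simp only [dif_pos he]
    have h3 : 2 * (h e + (s ⟨e, he⟩ : ℤ)) - W e = 2 * (s ⟨e, he⟩ : ℤ) - a e := by linarith
    rw [h3, abs_le]
    have h4 : (s ⟨e, he⟩ : ℤ) ≤ a e := by exact_mod_cast h2
    have h5 : (0 : ℤ) ≤ (s ⟨e, he⟩ : ℤ) := Int.natCast_nonneg _
    constructor <;> linarith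

end Pool.Agent.MP4a7415S
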