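import Pool.Agent.Lib.MP_4a7415_coS.Halve

/-! # Repeated lazy halvings -/

namespace Pool.Agent.MP4a7415S

open Finset Filter Pool.Agent.MP4a7415

/-- Coercivity on the torus. -/
def Coe (n q r : ℕ) (b : ℝ) (A : Finset (Finset (Fin n))) : Prop :=
  ∀ y : Finset (Fin n) → ℝ, Min n q r y →
    b * ∑ R ∈ Blk n r, y R ^ 2 ≤ ∑ e ∈ A, dZ (ev r y e) ^ 2

/-- Repeated lazy halvings: from a decomposition of `2 ^ I * v` to one of `v`. -/
theorem halves (q r : ℕ) (hr : 1 ≤ r) (hqr : r < q) (K : ℕ) {c : ℝ} (hc : 0 < c) :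
    ∃ C : ℝ, 1 ≤ C ∧ ∀ᶠ n : ℕ in atTop, ∀ D : ℝ, C * Real.log n ≤ D →
      ∀ G ⊆ Blk n q, (∀ R ∈ Blk n r, ((G.filter (fun e => R ⊆ e)).card : ℝ) ≤ 2 * D) →
      Coe n q r (c * D) G → Clo n q r K (c / (10 * q.choose r) * D) G →
      ∀ v : Finset (Fin n) → ℤ, Ph n q r v → ∀ (I : ℕ) (W : Finset (Fin n) → ℤ),
      (∀ R ∈ Blk n r, ∑ e ∈ G with R ⊆ e, W e = 2 ^ I * v R) →
      ∃ X : Finset (Fin n) → ℤ, (∀ R ∈ Blk n r, ∑ e ∈ G with R ⊆ e, X e = v R) ∧
        ∀ e ∈ G, |2 ^ I * X e - W e| ≤ 2 * 2 ^ I := by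
  obtain ⟨C, hC, hh⟩ := halve q r hr hqr K hc
  refine ⟨C, hC, ?_⟩
  filter_upwards [hh] with n hn D hD G hG hdeg hco hcl v hv I
  -- prove the sharper bound `|2 ^ I * X e - W e| ≤ 2 * (2 ^ I - 1)`
  suffices H : ∀ W : Finset (Fin n) → ℤ,
      (∀ R ∈ Blk n r, ∑ e ∈ G with R ⊆ e, W e = 2 ^ I * v R) →
      ∃ X : Finset (Fin n) → ℤ, (∀ R ∈ Blk n r, ∑ e ∈ G with R ⊆ e, X e = v R) ∧
        ∀ e ∈ G, |2 ^ I * X e - W e| ≤ 2 * (2 ^ I - 1) by
    intro W hW
    obtain ⟨X, hX1, hX2⟩ := H W hW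
    exact ⟨X, hX1, fun e he => (hX2 e he).trans (by linarith)⟩
  induction I with
  | zero =>
    intro W hW
    refine ⟨W, fun R hR => by rw [hW R hR, pow_zero, one_mul], fun e _ => ?_⟩
    simp
  | succ I ih =>
    intro W hW
    obtain ⟨W', h1, h2⟩ := hn D hD G hG G subset_rfl hdeg hco hcl
      (fun e => if W e % 2 = 0 then 2 else 1) W (fun R => 2 ^ I * v R)
      (fun e _ => by
        split_ifs <;> norm_num)
      (fun e _ => by
        split_ifs <;> norm_num)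
      (fun e _ => by
        split_ifs with h
        · push_cast
          omega
        · push_cast
          omega)
      (hv.mul _) (fun R hR => by
        rw [hW R hR, pow_succ]
        ring)
    obtain ⟨X, h3, h4⟩ := ih W' h1
    refine ⟨X, h3, fun e he => ?_⟩
    have h5 := h4 e he
    have h6 : |2 * W' e - W e| ≤ 2 := (h2 e he).trans (by
      split_ifs <;> norm_num)
    have e1 : (2 : ℤ) ^ (I + 1) * X e - W e = 2 * (2 ^ I * X e - W' e) + (2 * W' e - W e) := by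
      rw [pow_succ]
      ring
    rw [e1]
    refine (abs_add_le _ _).trans ?_
    rw [abs_mul, abs_two, pow_succ]
    linarith

end Pool.Agent.MP4a7415S
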