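import Pool.Agent.Lib.MP_4a7415_coS.Grid

/-! # Complements -/

namespace Pool.Agent.MP4a7415S

open Finset Filter Pool.Agent.MP4a7415

/-- The complementary range. -/
def GoodC (n q r : ℕ) (D lam δ : ℝ) : Set (Finset (Finset (Fin n))) :=
  {G | ∀ v : Finset (Fin n) → ℕ, Divi n q r v →
    (∀ R ∈ Blk n r, |(v R : ℝ) - lam| ≤ δ * (D - lam)) →
    ∃ S ⊆ G, ∀ R ∈ Blk n r, (S.filter fun e => R ⊆ e).card = v R}

/-- The mean degree is at least a multiple of `log n`. -/
theorem high_mean {n q r : ℕ} (hqr : r < q) (hn : 2 * q ≤ n) {p C1 : ℝ}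
    (hp0 : 0 ≤ p)
    (hp : C1 * (2 ^ (q - r) * (q - r).factorial) * (Real.log n / (n : ℝ) ^ (q - r)) ≤ p) :
    C1 * Real.log n ≤ p * ((n - r).choose (q - r) : ℝ) := by
  have hn0 : (0 : ℝ) < n := by exact_mod_cast (by omega : 0 < n)
  have hl0 : 0 ≤ Real.log n := Real.log_nonneg (by exact_mod_cast (by omega : 1 ≤ n))
  have h2 := Nat.pow_le_choose (α := ℝ) (q - r) (n - r)
  have h3 : ((n : ℝ) / 2) ^ (q - r) ≤ (((n - r + 1 - (q - r) : ℕ) : ℝ)) ^ (q - r) := by
    refine pow_le_pow_left₀ (by positivity) ?_ _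
    have : n ≤ 2 * (n - r + 1 - (q - r)) := by omega
    have : (n : ℝ) ≤ 2 * ((n - r + 1 - (q - r) : ℕ) : ℝ) := by exact_mod_cast this
    linarith
  have hf : (0 : ℝ) < (q - r).factorial := by exact_mod_cast Nat.factorial_pos _
  have h4 : ((n : ℝ) / 2) ^ (q - r) / (q - r).factorial ≤ (n - r).choose (q - r) :=
    (div_le_div_of_nonneg_right h3 hf.le).trans h2
  have h5 := mul_le_mul hp h4 (by positivity) hp0
  refine le_trans (le_of_eq ?_) h5
  rw [div_pow]
  field_simp

/-- The degrees satisfy the divisibility conditions. -/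
theorem high_divi {n q r : ℕ} {G : Finset (Finset (Fin n))} (hG : G ⊆ Blk n q)
    (T : Finset (Fin n)) (hT : T.card < r) :
    bb q r T.card ∣ ∑ R ∈ (Blk n r).filter (fun R => T ⊆ R), (G.filter fun e => R ⊆ e).card := by
  have h1 : ∑ R ∈ (Blk n r).filter (fun R => T ⊆ R), (G.filter fun e => R ⊆ e).card =
      ∑ e ∈ G, (((Blk n r).filter (fun R => T ⊆ R)).filter fun R => R ⊆ e).card := by
    simp only [card_filter]
    rw [Finset.sum_comm]
  rw [h1]
  refine dvd_sum fun e he => ?_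
  have hec : e.card = q := (mem_powersetCard.1 (hG he)).2
  by_cases hTe : T ⊆ e
  · have h2 : ((Blk n r).filter (fun R => T ⊆ R)).filter (fun R => R ⊆ e) =
        (powersetCard r e).filter (fun R => T ⊆ R) := by
      ext R
      simp only [mem_filter, mem_powersetCard, subset_univ, true_and]
      tauto
    rw [h2, card_sup hTe hT.le, hec]
    exact dvd_rfl
  · have h2 : ((Blk n r).filter (fun R => T ⊆ R)).filter (fun R => R ⊆ e) = ∅ := by
      rw [Finset.filter_eq_empty_iff]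
      intro R hR hRe
      exact hTe ((mem_filter.1 hR).2.trans hRe)
    rw [h2, card_empty]
    exact dvd_zero _

/-- The complement of a simple decomposition. -/
theorem high_det {n q r : ℕ} {p lam D δn δ δ1 κ : ℝ}
    {G : Finset (Finset (Fin n))} (hG : G ⊆ Blk n q) (hD : D = p * (n - r).choose (q - r))
    (h2 : Good2 n q r p δn G) (hpos : 0 ≤ D - lam) (hκ1 : κ ≤ 1) (hκ : κ ≤ δ1)
    (hb : δn * D + δ * (D - lam) ≤ κ * (D - lam)) (hg : G ∈ Good n q r (D - lam) δ1) :
    G ∈ GoodC n q r D lam δ := by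
  intro v hv hvl
  have hdeg : ∀ R ∈ Blk n r, |((G.filter fun e => R ⊆ e).card : ℝ) - D| ≤ δn * D := by
    intro R hR
    have h3 := h2 R hR
    have h4 : G ∩ (Blk n q).filter (fun e => R ⊆ e) = G.filter fun e => R ⊆ e := by
      ext e
      simp only [mem_inter, mem_filter]
      constructor
      · rintro ⟨h5, -, h6⟩
        exact ⟨h5, h6⟩
      · rintro ⟨h5, h6⟩
        exact ⟨h5, hG h5, h6⟩
    rw [h4, ← hD] at h3
    exact h3
  have hclose : ∀ R ∈ Blk n r,
      |((G.filter fun e => R ⊆ e).card : ℝ) - v R - (D - lam)| ≤ κ * (D - lam) := by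
    intro R hR
    have h3 := hdeg R hR
    have h4 := hvl R hR
    rw [abs_le] at h3 h4 ⊢
    constructor <;> linarith
  have hle : ∀ R ∈ Blk n r, v R ≤ (G.filter fun e => R ⊆ e).card := by
    intro R hR
    have h3 := (abs_le.1 (hclose R hR)).1
    have h4 : κ * (D - lam) ≤ 1 * (D - lam) := mul_le_mul_of_nonneg_right hκ1 hpos
    have h5 : (v R : ℝ) ≤ ((G.filter fun e => R ⊆ e).card : ℝ) := by linarith
    exact_mod_cast h5
  obtain ⟨S', hS', hS'c⟩ := hg (fun R => (G.filter fun e => R ⊆ e).card - v R) (by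
    intro T hT
    have h3 : ∑ R ∈ (Blk n r).filter (fun R => T ⊆ R), ((G.filter fun e => R ⊆ e).card - v R) +
        ∑ R ∈ (Blk n r).filter (fun R => T ⊆ R), v R =
        ∑ R ∈ (Blk n r).filter (fun R => T ⊆ R), (G.filter fun e => R ⊆ e).card := by
      rw [← sum_add_distrib]
      refine sum_congr rfl fun R hR => ?_
      exact Nat.sub_add_cancel (hle R (mem_filter.1 hR).1)
    have h4 := high_divi hG T hT
    rw [← h3] at h4
    exact (Nat.dvd_add_left (hv T hT)).1 h4) (by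
    intro R hR
    rw [Nat.cast_sub (hle R hR)]
    exact (hclose R hR).trans (mul_le_mul_of_nonneg_right hκ hpos))
  refine ⟨G \ S', sdiff_subset, fun R hR => ?_⟩
  have h3 : (G \ S').filter (fun e => R ⊆ e) =
      (G.filter fun e => R ⊆ e) \ (S'.filter fun e => R ⊆ e) := by
    ext e
    simp only [Finset.mem_filter, Finset.mem_sdiff]
    tauto
  rw [h3, card_sdiff_of_subset (filter_subset_filter _ hS'), hS'c R hR]
  have := hle R hR
  omega

theorem all_high (q r : ℕ) (hr : 1 ≤ r) (hqr : r < q) : ∃ C δ : ℝ, 0 < C ∧ 0 < δ ∧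
    ∃ f : ℕ → ℝ, Tendsto f atTop (nhds 1) ∧
    ∀ᶠ n : ℕ in atTop, ∀ p : ℝ, p ≤ 1 → C * (Real.log n / (n : ℝ) ^ (q - r)) ≤ p →
      f n ≤ PrE (Blk n q) p {G | ∀ lam : ℝ, p * (n - r).choose (q - r) / 2 ≤ lam →
        lam ≤ p * (n - r).choose (q - r) - C * √(p * (n - r).choose (q - r) * Real.log n) →
        G ∈ GoodC n q r (p * (n - r).choose (q - r)) lam δ} := by
  obtain ⟨C1, δ1, hC1, hδ1, f1, hf1, hlow⟩ := all_low q r hr hqr
  obtain ⟨κ, hκd⟩ : ∃ κ, κ = min δ1 1 := ⟨_, rfl⟩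
  have hκ0 : 0 < κ := by rw [hκd]; exact lt_min hδ1 one_pos
  have hκ1 : κ ≤ 1 := by rw [hκd]; exact min_le_right _ _
  have hκδ : κ ≤ δ1 := by rw [hκd]; exact min_le_left _ _
  obtain ⟨C2, hC2d⟩ : ∃ C2 : ℝ, C2 = 2 * √((r : ℝ) + 1) := ⟨_, rfl⟩
  have hC20 : 0 < C2 := by rw [hC2d]; positivity
  have hC2s : C2 ^ 2 = 4 * ((r : ℝ) + 1) := by
    rw [hC2d, mul_pow, Real.sq_sqrt (by positivity)]
    norm_num
  obtain ⟨F, hF⟩ : ∃ F : ℝ, F = 2 ^ (q - r) * (q - r).factorial := ⟨_, rfl⟩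
  have hF0 : 0 < F := by rw [hF]; positivity
  obtain ⟨C, hCd⟩ : ∃ C : ℝ, C = C1 + 2 * C2 / κ + ((r : ℝ) + 1) * F := ⟨_, rfl⟩
  have hx1 : 0 < 2 * C2 / κ := by positivity
  have hx2 : 0 < ((r : ℝ) + 1) * F := by positivity
  have hC0 : 0 < C := by rw [hCd]; linarith
  refine ⟨C, κ / 2, hC0, by linarith, fun n => f1 n - 2 / n, ?_, ?_⟩
  · have h1 : Tendsto (fun n : ℕ => (2 : ℝ) / n) atTop (nhds 0) :=
      tendsto_const_div_atTop_nhds_zero_nat 2
    have h2 := hf1.sub h1
    rwa [sub_zero] at h2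
  filter_upwards [hlow, eventually_ge_atTop (2 * q)] with n hlown hn p h1 hp
  have hn2 : 2 ≤ n := by omega
  have hn0 : (0 : ℝ) < n := by exact_mod_cast (by omega : 0 < n)
  have hl0 : 0 < Real.log n := Real.log_pos (by exact_mod_cast hn2)
  have hq0 : 0 < Real.log n / (n : ℝ) ^ (q - r) := by positivity
  have hp0 : 0 < p := lt_of_lt_of_le (by positivity) hp
  have hp1 : C1 * (Real.log n / (n : ℝ) ^ (q - r)) ≤ p := by
    refine le_trans ?_ hp
    refine mul_le_mul_of_nonneg_right ?_ hq0.le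
    rw [hCd]
    linarith
  have hp2 : ((r : ℝ) + 1) * (2 ^ (q - r) * (q - r).factorial) *
      (Real.log n / (n : ℝ) ^ (q - r)) ≤ p := by
    refine le_trans ?_ hp
    refine mul_le_mul_of_nonneg_right ?_ hq0.le
    rw [← hF, hCd]
    linarith
  have hmean := high_mean hqr hn hp0.le hp2
  obtain ⟨D, hD⟩ : ∃ D, D = p * ((n - r).choose (q - r) : ℝ) := ⟨_, rfl⟩
  rw [← hD] at hmean
  have hD0 : 0 < D := lt_of_lt_of_le (by positivity) hmean
  obtain ⟨s, hs⟩ : ∃ s, s = √(D * Real.log n) := ⟨_, rfl⟩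
  have hs0 : 0 ≤ s := by rw [hs]; exact Real.sqrt_nonneg _
  have hss : s ^ 2 = D * Real.log n := by rw [hs]; exact Real.sq_sqrt (by positivity)
  have hr0 : (0 : ℝ) ≤ r := Nat.cast_nonneg r
  have hDl : Real.log n ≤ D := by nlinarith
  have hsl : Real.log n ≤ s := by
    refine le_of_sq_le_sq ?_ hs0
    rw [hss]
    nlinarith
  have hδn0 : 0 ≤ C2 * s / D := by positivity
  have hδn2 : C2 * s / D ≤ 2 := by
    rw [div_le_iff₀ hD0]
    refine le_of_sq_le_sq ?_ (by positivity)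
    have e1 : (C2 * s) ^ 2 = 4 * ((r : ℝ) + 1) * (D * Real.log n) := by
      rw [mul_pow, hC2s, hss]
    rw [e1]
    have e2 := mul_le_mul_of_nonneg_right hmean (show 0 ≤ 4 * D by positivity)
    nlinarith
  have hg2 : PrE (Blk n q) p {G | ¬ Good2 n q r p (C2 * s / D) G} ≤ 2 / n := by
    refine (good2_prob hqr.le hp0.le h1 hδn0 hδn2).trans ?_
    rw [← hD]
    have hch : (n.choose r : ℝ) ≤ (n : ℝ) ^ r := by
      exact_mod_cast Nat.choose_le_pow n r
    have e1 : Real.exp (-((C2 * s / D) ^ 2 / 4 * D)) = 1 / (n : ℝ) ^ (r + 1) := by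
      rw [← exp_neg_mul_log (by omega) (r + 1)]
      congr 2
      rw [div_pow, mul_pow, hC2s, hss]
      push_cast
      field_simp
    rw [e1]
    have e3 : (n.choose r : ℝ) * (2 * (1 / (n : ℝ) ^ (r + 1))) ≤
        (n : ℝ) ^ r * (2 * (1 / (n : ℝ) ^ (r + 1))) :=
      mul_le_mul_of_nonneg_right hch (by positivity)
    refine e3.trans (le_of_eq ?_)
    rw [pow_succ]
    field_simp
  have hsub := PrE_mono (E := Blk n q) hp0.le h1
    (A := {G | ∀ lam : ℝ, C1 * Real.log n ≤ lam →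
        lam ≤ p * (n - r).choose (q - r) / 2 → G ∈ Good n q r lam δ1})
    (B := {G | ∀ lam : ℝ, p * (n - r).choose (q - r) / 2 ≤ lam →
        lam ≤ p * (n - r).choose (q - r) - C * √(p * (n - r).choose (q - r) * Real.log n) →
        G ∈ GoodC n q r (p * (n - r).choose (q - r)) lam (κ / 2)} ∪
      {G | ¬ Good2 n q r p (C2 * s / D) G}) (by
    intro G hG hGl
    by_cases h2 : Good2 n q r p (C2 * s / D) G
    · left
      intro lam hl1 hl2
      rw [← hD] at hl1 hl2 ⊢
      rw [← hs] at hl2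
      have h5 : C * s ≤ D - lam := by linarith
      have h6 : C1 * Real.log n ≤ D - lam := by
        refine le_trans ?_ h5
        have h7 : C1 ≤ C := by rw [hCd]; linarith
        exact mul_le_mul h7 hsl hl0.le hC0.le
      have hpos : 0 ≤ D - lam := le_trans (by positivity) h6
      refine high_det hG hD h2 hpos hκ1 hκδ ?_ (hGl (D - lam) h6 ?_)
      · rw [div_mul_cancel₀ _ hD0.ne']
        have h8 : 2 * C2 / κ * s ≤ D - lam := by
          refine le_trans ?_ h5
          refine mul_le_mul_of_nonneg_right ?_ hs0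
          rw [hCd]
          linarith
        have h9 := mul_le_mul_of_nonneg_left h8 (show 0 ≤ κ / 2 by positivity)
        have h10 : κ / 2 * (2 * C2 / κ * s) = C2 * s := by
          field_simp
        rw [h10] at h9
        linarith
      · rw [← hD]
        linarith
    · right
      exact h2)
  have hun := PrE_union (E := Blk n q) hp0.le h1
    ({G | ∀ lam : ℝ, p * (n - r).choose (q - r) / 2 ≤ lam →
        lam ≤ p * (n - r).choose (q - r) - C * √(p * (n - r).choose (q - r) * Real.log n) →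
        G ∈ GoodC n q r (p * (n - r).choose (q - r)) lam (κ / 2)})
    {G | ¬ Good2 n q r p (C2 * s / D) G}
  have h3 := hlown p h1 hp1
  linarith

end Pool.Agent.MP4a7415S
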