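import Pool.Agent.Lib.MP_4a7415_coS.Tools

/-! # Large indices: almost equal multiplicities -/

namespace Pool.Agent.MP4a7415S

open Finset Filter Pool.Agent.MP4a7415

theorem lazy (q r : ℕ) (hr : 1 ≤ r) (hqr : r < q) {ε : ℝ} (hε : 0 < ε) :
    ∃ C δ k : ℝ, 0 < C ∧ 0 < δ ∧ ∀ᶠ n : ℕ in atTop, ∀ p : ℝ, p ≤ 1 →
      C * (Real.log n / (n : ℝ) ^ (q - r)) ≤ p →
      1 - k / (n : ℝ) ≤ PrE (Blk n q) p {G | ∀ lam : ℝ,
        C * (p * (n - r).choose (q - r)) ≤ lam → ∀ v : Finset (Fin n) → ℕ,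
        Divi n q r v → (∀ R ∈ Blk n r, |(v R : ℝ) - lam| ≤ δ * lam) →
        ∃ W : Finset (Fin n) → ℕ,
        (∀ R : Finset (Fin n), R.card = r → ∑ e ∈ G with R ⊆ e, W e = v R) ∧
        ∀ e ∈ G, |(W e : ℝ) * (p * (n - r).choose (q - r)) - lam| ≤ ε * lam} := by
  obtain ⟨ε1, hε1⟩ : ∃ ε1 : ℝ, ε1 = min ε 1 := ⟨_, rfl⟩
  have hε10 : 0 < ε1 := by
    rw [hε1]
    exact lt_min hε one_pos
  have hε11 : ε1 ≤ 1 := by
    rw [hε1]
    exact min_le_right _ _
  have hε12 : ε1 ≤ ε := by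
    rw [hε1]
    exact min_le_left _ _
  have hk0 : (0 : ℝ) < q.choose r := by exact_mod_cast Nat.choose_pos hqr.le
  obtain ⟨C1, hC1, δ, hδ, k1, h1⟩ := int_bound hr hqr (half_pos hε10)
  obtain ⟨c, C2, hc, hC2, h2⟩ := coe_prob q r hr hqr
  obtain ⟨K, C3, hC3, h3⟩ := clo_prob q r hr hqr (γ := c / (10 * q.choose r)) (by positivity)
  obtain ⟨C4, hC4, h4⟩ := deg_prob q r hr hqr (δ := 1) one_pos (by norm_num)
  obtain ⟨C5, hC5, h5⟩ := halves q r hr hqr K hc
  obtain ⟨C6, hC6, h6⟩ := D_large q r hqr (C := C5) (by linarith)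
  obtain ⟨C, hC⟩ : ∃ C : ℝ, C = C1 + C2 + C3 + C4 + C6 + 4 / ε1 := ⟨_, rfl⟩
  have h4ε : 0 < 4 / ε1 := by positivity
  have hC0 : 0 < C := by linarith
  refine ⟨C, δ, k1 + 5, hC0, hδ, ?_⟩
  filter_upwards [h1, h2, h3, h4, h5, h6, Ph_of_Divi q r hr hqr, eventually_ge_atTop (2 * q + 2)]
    with n h1 h2 h3 h4 h5 h6 hph hn p hp1 hp
  have hn0 : (0 : ℝ) < n := by exact_mod_cast (by omega : 0 < n)
  have hl0 : 0 < Real.log n := Real.log_pos (by exact_mod_cast (by omega : 1 < n))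
  have hx0 : 0 < Real.log n / (n : ℝ) ^ (q - r) := by positivity
  have hle : ∀ C' : ℝ, C' ≤ C → C' * (Real.log n / (n : ℝ) ^ (q - r)) ≤ p := fun C' h =>
    (mul_le_mul_of_nonneg_right h hx0.le).trans hp
  obtain ⟨hp0, hDl⟩ := h6 p (hle _ (by linarith))
  have b1 := h1 p hp1 (hle _ (by linarith))
  have b2 := h2 p hp1 (hle _ (by linarith))
  have b3 := h3 p hp1 (hle _ (by linarith))
  have b4 := h4 p hp1 (hle _ (by linarith))
  obtain ⟨D, hD⟩ : ∃ D, D = p * ((n - r).choose (q - r) : ℝ) := ⟨_, rfl⟩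
  rw [← hD] at hDl b1 b2 b3 b4 ⊢
  have hD0 : 0 < D := lt_of_lt_of_le (mul_pos (by linarith) hl0) hDl
  set E1 : Set (Finset (Finset (Fin n))) := {G | ∀ lam : ℝ,
        C1 * (D * Real.log n) ≤ lam → ∀ v : Finset (Fin n) → ℕ,
        Divi n q r v → (∀ R ∈ Blk n r, |(v R : ℝ) - lam| ≤ δ * lam) →
        ∃ W : Finset (Fin n) → ℕ,
        (∀ R : Finset (Fin n), R.card = r → ∑ e ∈ G with R ⊆ e, W e = v R) ∧
        ∀ e ∈ G, |(W e : ℝ) * D - lam| ≤ ε1 / 2 * lam} with hE1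
  have c1 := PrE_compl (Blk n q) p E1
  have hbad : PrE (Blk n q) p {G | ∀ lam : ℝ,
        C * D ≤ lam → ∀ v : Finset (Fin n) → ℕ,
        Divi n q r v → (∀ R ∈ Blk n r, |(v R : ℝ) - lam| ≤ δ * lam) →
        ∃ W : Finset (Fin n) → ℕ,
        (∀ R : Finset (Fin n), R.card = r → ∑ e ∈ G with R ⊆ e, W e = v R) ∧
        ∀ e ∈ G, |(W e : ℝ) * D - lam| ≤ ε * lam}ᶜ ≤ (k1 + 5) / n := by
    refine (PrE_mono hp0.le hp1 (B := (E1ᶜ ∪ {G | ¬ Coe n q r (c * D) G}) ∪
      ({G | ¬ Clo n q r K (c / (10 * q.choose r) * D) G} ∪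
      {G | ¬ ∀ R ∈ Blk n r, |((G.filter fun e => R ⊆ e).card : ℝ) - D| ≤ 1 * D})) ?_).trans
      ((PrE_union hp0.le hp1 _ _).trans ((add_le_add (PrE_union hp0.le hp1 _ _)
        (PrE_union hp0.le hp1 _ _)).trans ?_))
    · intro G hGq hG
      by_contra hcon
      rw [Set.mem_union, Set.mem_union, Set.mem_union, not_or, not_or, not_or] at hcon
      obtain ⟨⟨g1, g2⟩, g3, g4⟩ := hcon
      have g1 : G ∈ E1 := not_not.1 g1
      have g2 : Coe n q r (c * D) G := not_not.1 g2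
      have g3 : Clo n q r K (c / (10 * q.choose r) * D) G := not_not.1 g3
      have g4 : ∀ R ∈ Blk n r, |((G.filter fun e => R ⊆ e).card : ℝ) - D| ≤ 1 * D := not_not.1 g4
      refine hG fun lam hlam v hv hvl => ?_
      have hlam0 : 0 < lam := lt_of_lt_of_le (mul_pos hC0 hD0) hlam
      obtain ⟨I, hI⟩ := pow_unbounded_of_one_lt (C1 * Real.log n / C) (by norm_num : (1 : ℝ) < 2)
      have hI0 : (0 : ℝ) < 2 ^ I := by positivity
      obtain ⟨W, hW1, hW2⟩ := g1 (2 ^ I * lam) (by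
        rw [div_lt_iff₀ hC0] at hI
        calc C1 * (D * Real.log n) = C1 * Real.log n * D := by ring
          _ ≤ 2 ^ I * C * D := mul_le_mul_of_nonneg_right hI.le hD0.le
          _ = 2 ^ I * (C * D) := by ring
          _ ≤ 2 ^ I * lam := mul_le_mul_of_nonneg_left hlam hI0.le) (fun R => 2 ^ I * v R) (by
        intro T hT
        rw [← mul_sum]
        exact (hv T hT).mul_left _) (by
        intro R hR
        push_cast
        rw [← mul_sub, abs_mul, abs_of_pos hI0]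
        calc 2 ^ I * |(v R : ℝ) - lam| ≤ 2 ^ I * (δ * lam) :=
              mul_le_mul_of_nonneg_left (hvl R hR) hI0.le
          _ = δ * (2 ^ I * lam) := by ring)
      obtain ⟨X, hX1, hX2⟩ := h5 D hDl G hGq (fun R hR => by
          have := (abs_le.1 (g4 R hR)).2
          linarith) g2 g3 (fun R => (v R : ℤ)) (hph v hv) I (fun e => (W e : ℤ)) (by
        intro R hR
        have := hW1 R (mem_powersetCard.1 hR).2
        exact_mod_cast this)
      have hXe : ∀ e ∈ G, |(X e : ℝ) * D - lam| ≤ ε1 * lam := by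
        intro e he
        have e1 := hX2 e he
        have e2 := hW2 e he
        have e1' : |(2 : ℝ) ^ I * X e - W e| ≤ 2 * 2 ^ I := by exact_mod_cast e1
        have e3 : (2 : ℝ) ^ I * ((X e : ℝ) * D - lam) =
            (2 ^ I * X e - W e) * D + ((W e : ℝ) * D - 2 ^ I * lam) := by ring
        have e4 : (2 : ℝ) ^ I * |(X e : ℝ) * D - lam| ≤ 2 ^ I * (ε1 * lam) := by
          rw [← abs_of_pos hI0, ← abs_mul, abs_of_pos hI0, e3]
          refine (abs_add_le _ _).trans ?_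
          rw [abs_mul, abs_of_pos hD0]
          have e5 := mul_le_mul_of_nonneg_right e1' hD0.le
          have e6 : 2 * D ≤ ε1 / 2 * lam := by
            have e7 : 4 / ε1 * D ≤ lam :=
              (mul_le_mul_of_nonneg_right (by linarith) hD0.le).trans hlam
            rw [div_mul_eq_mul_div, div_le_iff₀ hε10] at e7
            linarith
          have e8 := mul_le_mul_of_nonneg_left e6 hI0.le
          linarith
        exact le_of_mul_le_mul_left e4 hI0
      have hX0 : ∀ e ∈ G, 0 ≤ X e := by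
        intro e he
        by_contra hneg
        have e1 : (X e : ℝ) ≤ -1 := by exact_mod_cast (by omega : X e ≤ -1)
        have e2 := (abs_le.1 (hXe e he)).1
        have e3 : ε1 * lam ≤ 1 * lam := mul_le_mul_of_nonneg_right hε11 hlam0.le
        have e4 := mul_le_mul_of_nonneg_right e1 hD0.le
        linarith
      refine ⟨fun e => (X e).toNat, fun R hR => ?_, fun e he => ?_⟩
      · have e1 := hX1 R (mem_powersetCard.2 ⟨subset_univ _, hR⟩)
        have e2 : ((∑ e ∈ G with R ⊆ e, (X e).toNat : ℕ) : ℤ) = ∑ e ∈ G with R ⊆ e, X e := by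
          rw [Nat.cast_sum]
          exact sum_congr rfl fun e he => Int.toNat_of_nonneg (hX0 e (mem_filter.1 he).1)
        rw [e1] at e2
        exact_mod_cast e2
      · have e1 : (((X e).toNat : ℕ) : ℝ) = (X e : ℝ) := by
          have := Int.toNat_of_nonneg (hX0 e he)
          exact_mod_cast this
        simp only [e1]
        exact (hXe e he).trans (mul_le_mul_of_nonneg_right hε12 hlam0.le)
    · have e1 : (k1 + 5) / (n : ℝ) = (k1 / n + 1 / n) + (1 / n + 3 / n) := by ring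
      rw [e1]
      refine add_le_add (add_le_add ?_ b2) (add_le_add b3 b4)
      linarith
  have c2 := PrE_compl (Blk n q) p {G | ∀ lam : ℝ,
        C * D ≤ lam → ∀ v : Finset (Fin n) → ℕ,
        Divi n q r v → (∀ R ∈ Blk n r, |(v R : ℝ) - lam| ≤ δ * lam) →
        ∃ W : Finset (Fin n) → ℕ,
        (∀ R : Finset (Fin n), R.card = r → ∑ e ∈ G with R ⊆ e, W e = v R) ∧
        ∀ e ∈ G, |(W e : ℝ) * D - lam| ≤ ε * lam}
  linarith

end Pool.Agent.MP4a7415S
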