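import Pool.Agent.Lib.MP_4a7415_coS.Defs

/-! # Shortest vectors modulo a lattice with bounded denominators -/

namespace Pool.Agent.MP4a7415S

open Finset MeasureTheory Pool.Agent.MP4a7415

variable {κ : Type*} [Fintype κ] {Ls : AddSubgroup (κ → ℝ)} {Q : ℕ}

/-- `2 |t y| ≤ y ^ 2` for `|t| ≤ 1 / (2 Q)` and `Q y` an integer. -/
private theorem Near_two (hQ : 1 ≤ Q) {t y : ℝ} (ht : |t| ≤ 1 / (2 * Q)) (hy : ∃ m : ℤ, (Q : ℝ) * y = m) :
    2 * (t * y) ≤ y ^ 2 ∧ -(2 * (t * y)) ≤ y ^ 2 := by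
  obtain ⟨m, hm⟩ := hy
  have hQ0 : (0 : ℝ) < Q := by exact_mod_cast hQ
  have h1 : |t| * (2 * Q) ≤ 1 := by
    rwa [le_div_iff₀ (by positivity)] at ht
  have h2 : |y| ≤ Q * y ^ 2 := by
    rcases eq_or_ne m 0 with h0 | h0
    · have hy0 : y = 0 := by
        rw [h0, Int.cast_zero] at hm
        rcases mul_eq_zero.1 hm with h | h
        · exact absurd h hQ0.ne'
        · exact h
      rw [hy0]
      simp
    · have h3 : (1 : ℝ) ≤ |(m : ℝ)| := by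
        have : (1 : ℤ) ≤ |m| := Int.one_le_abs h0
        exact_mod_cast this
      rw [← hm, abs_mul, abs_of_pos hQ0] at h3
      rw [← sq_abs]
      nlinarith [abs_nonneg y]
  have h3 : 2 * |t * y| ≤ y ^ 2 := by
    rw [abs_mul]
    have h4 : 2 * (|t| * |y|) * Q ≤ y ^ 2 * Q := by
      calc 2 * (|t| * |y|) * Q = (|t| * (2 * Q)) * |y| := by ring
        _ ≤ 1 * |y| := mul_le_mul_of_nonneg_right h1 (abs_nonneg _)
        _ = |y| := one_mul _
        _ ≤ y ^ 2 * Q := by linarith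
    exact le_of_mul_le_mul_right h4 hQ0
  have h4 := le_abs_self (t * y)
  have h5 := neg_abs_le (t * y)
  constructor <;> linarith

theorem exists_Mn (hint : ∀ b : κ → ℤ, (fun R => (b R : ℝ)) ∈ Ls) (hQ : 1 ≤ Q)
    (hden : ∀ y ∈ Ls, ∀ R, ∃ m : ℤ, (Q : ℝ) * y R = m) (t : κ → ℝ) :
    ∃ y0 ∈ Ls, Mn Ls (fun R => t R - y0 R) := by
  classical
  have hQ' : (0 : ℝ) < Q := by exact_mod_cast hQ
  let C : Set (κ → ℝ) := {y0 | y0 ∈ Ls ∧ ∀ R, |t R - y0 R| ≤ 1 / 2}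
  have hfin : C.Finite := by
    let V : κ → Set ℝ := fun R =>
      (fun k : ℤ => (k : ℝ) / Q) '' Set.Icc ⌊(Q : ℝ) * (t R - 1)⌋ ⌈(Q : ℝ) * (t R + 1)⌉
    have hV : (Set.pi Set.univ V).Finite :=
      Set.Finite.pi fun R => (Set.finite_Icc _ _).image _
    refine hV.subset fun y0 hy0 R _ => ?_
    obtain ⟨h1, h3⟩ := hy0
    obtain ⟨k, hk⟩ := hden y0 h1 R
    have h4 := abs_le.1 (h3 R)
    refine ⟨k, ⟨?_, ?_⟩, ?_⟩
    · have : (⌊(Q : ℝ) * (t R - 1)⌋ : ℝ) ≤ k := by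
        refine (Int.floor_le _).trans ?_
        rw [← hk]
        exact mul_le_mul_of_nonneg_left (by linarith) hQ'.le
      exact_mod_cast this
    · have : (k : ℝ) ≤ ⌈(Q : ℝ) * (t R + 1)⌉ := by
        refine le_trans ?_ (Int.le_ceil _)
        rw [← hk]
        exact mul_le_mul_of_nonneg_left (by linarith) hQ'.le
      exact_mod_cast this
    · show (k : ℝ) / Q = y0 R
      rw [← hk]
      field_simp
  have hshift : ∀ y ∈ Ls, ∃ z ∈ C, ∑ R, (t R - z R) ^ 2 ≤ ∑ R, (t R - y R) ^ 2 := by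
    intro y hy
    refine ⟨y + fun R => ((round (t R - y R) : ℤ) : ℝ), ⟨Ls.add_mem hy (hint _), fun R => ?_⟩, ?_⟩
    · rw [Pi.add_apply, ← sub_sub]
      exact abs_sub_round _
    · refine Finset.sum_le_sum fun R _ => ?_
      rw [Pi.add_apply, ← sub_sub, ← sq_abs, ← sq_abs (t R - y R)]
      refine pow_le_pow_left₀ (abs_nonneg _) ?_ 2
      have := round_le (t R - y R) 0
      simpa using this
  have hne : C.Nonempty := by
    obtain ⟨z, hz, _⟩ := hshift 0 Ls.zero_mem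
    exact ⟨z, hz⟩
  obtain ⟨y0, hy0, hmin⟩ := hfin.exists_minimalFor (fun z => ∑ R, (t R - z R) ^ 2) C hne
  refine ⟨y0, hy0.1, fun y hy => ?_⟩
  obtain ⟨z, hz, hle⟩ := hshift (y0 + y) (Ls.add_mem hy0.1 hy)
  have h1 : ∑ R, (t R - y0 R) ^ 2 ≤ ∑ R, (t R - z R) ^ 2 := by
    rcases le_total (∑ R, (t R - y0 R) ^ 2) (∑ R, (t R - z R) ^ 2) with h | h
    · exact h
    · exact hmin hz h
  refine h1.trans (hle.trans (le_of_eq ?_))
  refine Finset.sum_congr rfl fun R _ => ?_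
  rw [Pi.add_apply]
  ring

theorem Mn_half (hint : ∀ b : κ → ℤ, (fun R => (b R : ℝ)) ∈ Ls) {t : κ → ℝ} (ht : Mn Ls t)
    (R : κ) : |t R| ≤ 1 / 2 := by
  classical
  have h1 := ht _ (hint (Pi.single R (round (t R))))
  have h2 : ∑ S, (t S ^ 2 - (t S - ((Pi.single R (round (t R)) : κ → ℤ) S : ℝ)) ^ 2) =
      t R ^ 2 - (t R - round (t R)) ^ 2 := by
    rw [Finset.sum_eq_single R]
    · rw [Pi.single_eq_same]
    · intro S _ hS
      rw [Pi.single_eq_of_ne hS]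
      simp
    · intro h
      exact absurd (mem_univ R) h
  rw [Finset.sum_sub_distrib] at h2
  have h3 : (t R - round (t R)) ^ 2 ≤ (1 / 2) ^ 2 := by
    rw [← sq_abs]
    exact pow_le_pow_left₀ (abs_nonneg _) (abs_sub_round _) 2
  have h4 : t R ^ 2 ≤ (1 / 2) ^ 2 := by linarith
  exact abs_le_of_sq_le_sq h4 (by norm_num)

theorem Mn_small (hQ : 1 ≤ Q) (hden : ∀ y ∈ Ls, ∀ R, ∃ m : ℤ, (Q : ℝ) * y R = m) {t : κ → ℝ}
    (ht : ∀ R, |t R| ≤ 1 / (2 * Q)) : Mn Ls t := by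
  intro y hy
  refine Finset.sum_le_sum fun R _ => ?_
  have h1 := (Near_two hQ (ht R) (hden y hy R)).1
  nlinarith

/-- The distance of the part on `B` to the lattice. -/
theorem dist_onB (hQ : 1 ≤ Q) (hden : ∀ y ∈ Ls, ∀ R, ∃ m : ℤ, (Q : ℝ) * y R = m) {t : κ → ℝ}
    (ht : Mn Ls t) {B : Finset κ} (hB : ∀ R, R ∉ B → |t R| ≤ 1 / (2 * Q)) {y0 : κ → ℝ}
    (hy0 : y0 ∈ Ls) : ∑ R ∈ B, t R ^ 2 ≤ 2 * ∑ R, (onB B t R - y0 R) ^ 2 := by
  classical
  have h1 := ht y0 hy0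
  have h2 : ∑ R ∈ B, t R ^ 2 = ∑ R, if R ∈ B then t R ^ 2 else 0 := by
    rw [Finset.sum_ite_mem, Finset.univ_inter]
  have h3 : ∑ R, (if R ∈ B then t R ^ 2 else 0) ≤
      ∑ R, (2 * (onB B t R - y0 R) ^ 2 + (t R ^ 2 - (t R - y0 R) ^ 2)) := by
    refine Finset.sum_le_sum fun R _ => ?_
    by_cases hR : R ∈ B
    · have h4 : onB B t R = t R := by
        unfold onB
        rw [if_pos hR]
      rw [if_pos hR, h4]
      nlinarith [sq_nonneg (t R - y0 R)]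
    · have h4 : onB B t R = 0 := by
        unfold onB
        rw [if_neg hR]
      rw [if_neg hR, h4]
      have h5 := (Near_two hQ (hB R hR) (hden y0 hy0 R)).2
      nlinarith
  rw [Finset.sum_add_distrib, Finset.sum_sub_distrib, ← Finset.mul_sum] at h3
  rw [h2]
  linarith

theorem closed_Mn : IsClosed {t : κ → ℝ | Mn Ls t} := by
  have h1 : {t : κ → ℝ | Mn Ls t} = ⋂ y0 ∈ Ls, {t : κ → ℝ | ∑ R, t R ^ 2 ≤ ∑ R, (t R - y0 R) ^ 2} := by
    ext t
    simp only [Set.mem_setOf_eq, Set.mem_iInter]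
    rfl
  rw [h1]
  refine isClosed_biInter fun y0 _ => ?_
  exact isClosed_le (by fun_prop) (by fun_prop)

end Pool.Agent.MP4a7415S
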