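import Mathlib
import Pool.Agent.Lib.MP_6d4359_pr.PL

/-! # Prekopa-Leindler in several variables (midpoint form) -/

namespace Pool.Agent.MP4a7415S

open MeasureTheory
open scoped ENNReal

private lemma pl_box {κ : Type*} [Fintype κ] {f : (κ → ℝ) → ℝ} {C b : ℝ}
    (hfC : ∀ x, f x ≤ C) (hfb : ∀ x, f x ≠ 0 → ∀ i, |x i| ≤ b) :
    ∫⁻ x, ENNReal.ofReal (f x) ≤
      ENNReal.ofReal C * volume (Set.Icc (fun _ : κ => -b) (fun _ => b)) := by
  rw [← setLIntegral_const, ← lintegral_indicator measurableSet_Icc]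
  refine lintegral_mono fun x => ?_
  by_cases h : f x = 0
  · simp [h]
  · have hx : x ∈ Set.Icc (fun _ : κ => -b) (fun _ => b) :=
      ⟨fun i => (abs_le.1 (hfb x h i)).1, fun i => (abs_le.1 (hfb x h i)).2⟩
    rw [Set.indicator_of_mem hx]
    exact ENNReal.ofReal_le_ofReal (hfC x)

private lemma pl_box_top {κ : Type*} [Fintype κ] (C b : ℝ) :
    ENNReal.ofReal C * volume (Set.Icc (fun _ : κ => -b) (fun _ => b)) ≠ ⊤ :=
  ENNReal.mul_ne_top ENNReal.ofReal_ne_top isCompact_Icc.measure_lt_top.ne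

private lemma pl_symm {n : ℕ} (p : ℝ × (Fin n → ℝ)) :
    (MeasurableEquiv.piFinSuccAbove (fun _ : Fin (n + 1) => ℝ) 0).symm p =
      (Fin.cons p.1 p.2 : Fin (n + 1) → ℝ) := by
  have h : (MeasurableEquiv.piFinSuccAbove (fun _ : Fin (n + 1) => ℝ) 0).symm p =
      Fin.insertNth (α := fun _ => ℝ) 0 p.1 p.2 := rfl
  rw [h, Fin.insertNth_zero']

private lemma pl_cons {n : ℕ} {φ : (Fin (n + 1) → ℝ) → ℝ≥0∞} (hφ : Measurable φ) :
    ∫⁻ x, φ x = ∫⁻ s : ℝ, ∫⁻ x' : Fin n → ℝ, φ (Fin.cons s x' : Fin (n + 1) → ℝ) := by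
  have h := (volume_preserving_piFinSuccAbove (fun _ : Fin (n + 1) => ℝ) 0).symm
  rw [← h.lintegral_comp hφ, Measure.volume_eq_prod, lintegral_prod]
  · simp only [pl_symm]
  · exact (hφ.comp (MeasurableEquiv.measurable _)).aemeasurable

private lemma pl_cons_meas {n : ℕ} {φ : (Fin (n + 1) → ℝ) → ℝ≥0∞} (hφ : Measurable φ) :
    Measurable fun s : ℝ => ∫⁻ x' : Fin n → ℝ, φ (Fin.cons s x' : Fin (n + 1) → ℝ) := by
  have h : Measurable fun p : ℝ × (Fin n → ℝ) => φ (Fin.cons p.1 p.2 : Fin (n + 1) → ℝ) := by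
    have h2 := hφ.comp (MeasurableEquiv.piFinSuccAbove (fun _ : Fin (n + 1) => ℝ) 0).symm.measurable
    have h3 : (φ ∘ (MeasurableEquiv.piFinSuccAbove (fun _ : Fin (n + 1) => ℝ) 0).symm) =
        fun p : ℝ × (Fin n → ℝ) => φ (Fin.cons p.1 p.2 : Fin (n + 1) → ℝ) := by
      funext p
      rw [Function.comp_apply, pl_symm]
    rwa [h3] at h2
  exact h.lintegral_prod_right'

private lemma pl_cons_m {n : ℕ} (s : ℝ) :
    Measurable fun x' : Fin n → ℝ => (Fin.cons s x' : Fin (n + 1) → ℝ) := by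
  have h2 : Measurable ((MeasurableEquiv.piFinSuccAbove (fun _ : Fin (n + 1) => ℝ) 0).symm ∘
      Prod.mk s) := (MeasurableEquiv.measurable _).comp measurable_prodMk_left
  have h3 : ((MeasurableEquiv.piFinSuccAbove (fun _ : Fin (n + 1) => ℝ) 0).symm ∘
      Prod.mk s) = fun x' : Fin n → ℝ => (Fin.cons s x' : Fin (n + 1) → ℝ) := by
    funext p
    rw [Function.comp_apply, pl_symm]
  rwa [h3] at h2

private lemma pl_fin (n : ℕ) {C b : ℝ} : ∀ {f g h : (Fin n → ℝ) → ℝ}, Measurable f →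
    Measurable g → Measurable h → (∀ x, 0 ≤ f x) → (∀ x, 0 ≤ g x) → (∀ x, 0 ≤ h x) →
    (∀ x, f x ≤ C) → (∀ x, g x ≤ C) → (∀ x, h x ≤ C) → (∀ x, f x ≠ 0 → ∀ i, |x i| ≤ b) →
    (∀ x, g x ≠ 0 → ∀ i, |x i| ≤ b) → (∀ x, h x ≠ 0 → ∀ i, |x i| ≤ b) →
    (∀ x y, f x * g y ≤ h (fun i => (x i + y i) / 2) ^ 2) →
    (∫⁻ x, ENNReal.ofReal (f x)) * (∫⁻ x, ENNReal.ofReal (g x)) ≤
      (∫⁻ x, ENNReal.ofReal (h x)) ^ 2 := by
  induction n with
  | zero =>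
    intro f g h _ _ _ hf0 hg0 hh0 _ _ _ _ _ _ hfgh
    have e : ∀ φ : (Fin 0 → ℝ) → ℝ≥0∞, ∫⁻ x, φ x = φ default := by
      intro φ
      rw [lintegral_unique]
      have : volume (Set.univ : Set (Fin 0 → ℝ)) = 1 := by
        rw [volume_pi, Measure.pi_univ]
        simp
      rw [this, mul_one]
      exact congrArg φ (Subsingleton.elim _ _)
    rw [e, e, e, ← ENNReal.ofReal_mul (hf0 _), ← ENNReal.ofReal_pow (hh0 _)]
    refine ENNReal.ofReal_le_ofReal ((hfgh _ _).trans (le_of_eq ?_))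
    congr 2
    exact Subsingleton.elim _ _
  | succ n ih =>
    intro f g h hf hg hh hf0 hg0 hh0 hfC hgC hhC hfb hgb hhb hfgh
    rw [pl_cons hf.ennreal_ofReal, pl_cons hg.ennreal_ofReal, pl_cons hh.ennreal_ofReal]
    have supp : ∀ {φ : (Fin (n + 1) → ℝ) → ℝ}, (∀ x, φ x ≠ 0 → ∀ i, |x i| ≤ b) → ∀ s,
        ∀ x' : Fin n → ℝ, φ (Fin.cons s x' : Fin (n + 1) → ℝ) ≠ 0 → ∀ i, |x' i| ≤ b := by
      intro φ hφ s x' hx i
      have := hφ _ hx i.succ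
      rwa [Fin.cons_succ] at this
    have bd : ∀ {φ : (Fin (n + 1) → ℝ) → ℝ}, (∀ x, φ x ≤ C) →
        (∀ x, φ x ≠ 0 → ∀ i, |x i| ≤ b) → ∀ s,
        (∫⁻ x' : Fin n → ℝ, ENNReal.ofReal (φ (Fin.cons s x' : Fin (n + 1) → ℝ))) ≤
          ENNReal.ofReal C * volume (Set.Icc (fun _ : Fin n => -b) (fun _ => b)) :=
      fun hC hφ s => pl_box (fun x' => hC _) (supp hφ s)
    have tp : ∀ {φ : (Fin (n + 1) → ℝ) → ℝ}, (∀ x, φ x ≤ C) →
        (∀ x, φ x ≠ 0 → ∀ i, |x i| ≤ b) → ∀ s,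
        (∫⁻ x' : Fin n → ℝ, ENNReal.ofReal (φ (Fin.cons s x' : Fin (n + 1) → ℝ))) ≠ ⊤ :=
      fun hC hφ s => ne_top_of_le_ne_top (pl_box_top C b) (bd hC hφ s)
    have key : ∀ s u : ℝ,
        (∫⁻ x' : Fin n → ℝ, ENNReal.ofReal (f (Fin.cons s x' : Fin (n + 1) → ℝ))) *
          (∫⁻ x' : Fin n → ℝ, ENNReal.ofReal (g (Fin.cons u x' : Fin (n + 1) → ℝ))) ≤
          (∫⁻ x' : Fin n → ℝ,
            ENNReal.ofReal (h (Fin.cons ((s + u) / 2) x' : Fin (n + 1) → ℝ))) ^ 2 := by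
      intro s u
      refine ih (hf.comp (pl_cons_m s)) (hg.comp (pl_cons_m u)) (hh.comp (pl_cons_m _))
        (fun _ => hf0 _) (fun _ => hg0 _) (fun _ => hh0 _) (fun _ => hfC _) (fun _ => hgC _)
        (fun _ => hhC _) (supp hfb s) (supp hgb u) (supp hhb _) (fun x y => ?_)
      refine (hfgh _ _).trans (le_of_eq ?_)
      congr 2
      funext i
      refine Fin.cases ?_ (fun j => ?_) i
      · simp
      · simp
    have hbdd : ∀ {φ : (Fin (n + 1) → ℝ) → ℝ}, (∀ x, φ x ≤ C) →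
        (∀ x, φ x ≠ 0 → ∀ i, |x i| ≤ b) →
        BddAbove (Set.range fun s : ℝ => (∫⁻ x' : Fin n → ℝ,
          ENNReal.ofReal (φ (Fin.cons s x' : Fin (n + 1) → ℝ))).toReal) := by
      intro φ hC hφ
      refine ⟨(ENNReal.ofReal C * volume (Set.Icc (fun _ : Fin n => -b) (fun _ => b))).toReal, ?_⟩
      rintro _ ⟨s, rfl⟩
      exact ENNReal.toReal_mono (pl_box_top C b) (bd hC hφ s)
    have h1 := Pool.Agent.Lib.MP_6d4359_pr.pl_one
      (pl_cons_meas hf.ennreal_ofReal).ennreal_toReal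
      (pl_cons_meas hg.ennreal_ofReal).ennreal_toReal
      (pl_cons_meas hh.ennreal_ofReal).ennreal_toReal
      (fun _ => ENNReal.toReal_nonneg) (fun _ => ENNReal.toReal_nonneg)
      (fun _ => ENNReal.toReal_nonneg) (hbdd hfC hfb) (hbdd hgC hgb)
      (l := 1 / 2) (m := 1 / 2) (by norm_num) (by norm_num) (by norm_num) (fun s u => by
        have k1 := ENNReal.toReal_mono (ENNReal.pow_ne_top (tp hhC hhb ((s + u) / 2))) (key s u)
        rw [ENNReal.toReal_mul, ENNReal.toReal_pow] at k1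
        have k2 := Real.sqrt_le_sqrt k1
        rw [Real.sqrt_mul ENNReal.toReal_nonneg, Real.sqrt_sq ENNReal.toReal_nonneg,
          Real.sqrt_eq_rpow, Real.sqrt_eq_rpow] at k2
        have k3 : (1 : ℝ) / 2 * s + 1 / 2 * u = (s + u) / 2 := by ring
        rw [k3]
        exact k2)
    have e1 : ∀ {φ : (Fin (n + 1) → ℝ) → ℝ}, (∀ x, φ x ≤ C) →
        (∀ x, φ x ≠ 0 → ∀ i, |x i| ≤ b) →
        (∫⁻ s : ℝ, ENNReal.ofReal (∫⁻ x' : Fin n → ℝ,
          ENNReal.ofReal (φ (Fin.cons s x' : Fin (n + 1) → ℝ))).toReal) =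
        ∫⁻ s : ℝ, ∫⁻ x' : Fin n → ℝ, ENNReal.ofReal (φ (Fin.cons s x' : Fin (n + 1) → ℝ)) := by
      intro φ hC hφ
      exact lintegral_congr fun s => ENNReal.ofReal_toReal (tp hC hφ s)
    rw [e1 hfC hfb, e1 hgC hgb, e1 hhC hhb] at h1
    have h2 := pow_le_pow_left₀ zero_le h1 2
    refine le_trans (le_of_eq ?_) h2
    rw [← ENNReal.mul_rpow_of_nonneg _ _ (by norm_num : (0 : ℝ) ≤ 1 / 2), ← ENNReal.rpow_natCast,
      ← ENNReal.rpow_mul]
    norm_num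

/-- Prekopa-Leindler for bounded functions with bounded support, midpoint form. -/
theorem pl_pi {κ : Type*} [Fintype κ] {f g h : (κ → ℝ) → ℝ} (hf : Measurable f)
    (hg : Measurable g) (hh : Measurable h) (hf0 : ∀ x, 0 ≤ f x) (hg0 : ∀ x, 0 ≤ g x)
    (hh0 : ∀ x, 0 ≤ h x) {C b : ℝ} (hfC : ∀ x, f x ≤ C) (hgC : ∀ x, g x ≤ C)
    (hhC : ∀ x, h x ≤ C) (hfb : ∀ x, f x ≠ 0 → ∀ i, |x i| ≤ b)
    (hgb : ∀ x, g x ≠ 0 → ∀ i, |x i| ≤ b) (hhb : ∀ x, h x ≠ 0 → ∀ i, |x i| ≤ b)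
    (hfgh : ∀ x y, f x * g y ≤ h (fun i => (x i + y i) / 2) ^ 2) :
    (∫ x, f x) * (∫ x, g x) ≤ (∫ x, h x) ^ 2 := by
  obtain ⟨e⟩ : Nonempty (Fin (Fintype.card κ) ≃ κ) := ⟨(Fintype.equivFin κ).symm⟩
  have hp := volume_measurePreserving_piCongrLeft (fun _ : κ => ℝ) e
  have hE : ∀ (x : Fin (Fintype.card κ) → ℝ) (k : κ),
      MeasurableEquiv.piCongrLeft (fun _ : κ => ℝ) e x k = x (e.symm k) := by
    intro x k
    obtain ⟨i, rfl⟩ := e.surjective k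
    rw [e.symm_apply_apply, MeasurableEquiv.coe_piCongrLeft, Equiv.piCongrLeft_apply_apply]
  have hfin : ∀ {φ : (κ → ℝ) → ℝ}, (∀ x, φ x ≤ C) → (∀ x, φ x ≠ 0 → ∀ i, |x i| ≤ b) →
      ∫⁻ x, ENNReal.ofReal (φ x) ≠ ⊤ := fun hC hφ =>
    ne_top_of_le_ne_top (pl_box_top C b) (pl_box hC hφ)
  have hsupp : ∀ {φ : (κ → ℝ) → ℝ}, (∀ x, φ x ≠ 0 → ∀ i, |x i| ≤ b) →
      ∀ x, φ (MeasurableEquiv.piCongrLeft (fun _ : κ => ℝ) e x) ≠ 0 → ∀ i, |x i| ≤ b := by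
    intro φ hφ x hx i
    have := hφ _ hx (e i)
    rwa [hE, e.symm_apply_apply] at this
  have h1 := pl_fin (Fintype.card κ)
    (hf.comp (MeasurableEquiv.piCongrLeft (fun _ : κ => ℝ) e).measurable)
    (hg.comp (MeasurableEquiv.piCongrLeft (fun _ : κ => ℝ) e).measurable)
    (hh.comp (MeasurableEquiv.piCongrLeft (fun _ : κ => ℝ) e).measurable)
    (fun _ => hf0 _) (fun _ => hg0 _) (fun _ => hh0 _) (fun _ => hfC _) (fun _ => hgC _)
    (fun _ => hhC _) (hsupp hfb) (hsupp hgb) (hsupp hhb) (fun x y => by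
      refine (hfgh _ _).trans (le_of_eq ?_)
      show h _ ^ 2 = h _ ^ 2
      congr 2
      funext k
      rw [hE, hE, hE])
  simp only [Function.comp_apply] at h1
  rw [hp.lintegral_comp hf.ennreal_ofReal, hp.lintegral_comp hg.ennreal_ofReal,
    hp.lintegral_comp hh.ennreal_ofReal] at h1
  have h2 := ENNReal.toReal_mono (ENNReal.pow_ne_top (hfin hhC hhb)) h1
  rw [ENNReal.toReal_mul, ENNReal.toReal_pow] at h2
  rw [integral_eq_lintegral_of_nonneg_ae (Filter.Eventually.of_forall hf0) hf.aestronglyMeasurable,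
    integral_eq_lintegral_of_nonneg_ae (Filter.Eventually.of_forall hg0) hg.aestronglyMeasurable,
    integral_eq_lintegral_of_nonneg_ae (Filter.Eventually.of_forall hh0) hh.aestronglyMeasurable]
  exact h2

end Pool.Agent.MP4a7415S
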